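import Pool.Agent.Helper34.EF.Par

/-!
# The area of the non-hyperbolic parameters
-/

set_option autoImplicit false

open Filter Topology Metric Set MeasureTheory

namespace Pool.Agent.Helper34.EF

variable {q N : ℕ} {α : ℂ} {F : ℂ → ℂ} {A S : Set ℂ} {K B X ρ : ℝ} {c : ℂ}

/-- the thin strip in an annulus -/
theorem strip_meas (hq : 1 ≤ q) (hα : α ≠ 0) {k : ℝ} (hk : 0 ≤ k) (hρ : 4 ≤ ρ) :
    volume {c : ℂ | ρ / 4 ≤ ‖c‖ ∧ ‖c‖ ≤ ρ / 2 ∧ |uu q α c| < k * ‖c‖ ^ (q - 1) * Real.log ‖c‖} ≤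
      ENNReal.ofReal (360000 * (k / ‖α‖) * ρ * Real.log ρ) := by
  have ha : 0 < ‖α‖ := norm_pos_iff.2 hα
  have hlog : 0 < Real.log ρ := Real.log_pos (by linarith)
  have hρ0 : 0 < ρ := by linarith
  set δ : ℝ := 4 * k * Real.log ρ / (‖α‖ * ρ) with hδ
  have hδ0 : 0 ≤ δ := by positivity
  have h := grid (E := {c : ℂ | ρ / 4 ≤ ‖c‖ ∧ ‖c‖ ≤ ρ / 2 ∧ |uu q α c| < k * ‖c‖ ^ (q - 1) * Real.log ‖c‖})
    (ρ := ρ) (r := ρ / 16) (σ := 900 * δ) (by positivity) (by linarith) (by positivity) ?_ ?_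
  · refine h.trans (ENNReal.ofReal_le_ofReal (le_of_eq ?_))
    rw [hδ]; field_simp; ring
  · rintro c ⟨-, hc, -⟩
    rw [mem_closedBall_zero_iff]; linarith
  · rintro x ⟨hx1, hx2, -⟩
    have hx0 : 0 < ‖x‖ := by linarith
    have hxne : x ≠ 0 := norm_pos_iff.1 hx0
    obtain ⟨L, hL⟩ : ∃ L, Complex.exp L = α := ⟨Complex.log α, Complex.exp_log hα⟩
    have hbx : ∀ b ∈ ball x (ρ / 16), b / x ∈ Complex.slitPlane ∧ b ≠ 0 ∧ 3 / 4 * ‖x‖ ≤ ‖b‖ := by
      intro b hb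
      rw [mem_ball, dist_eq_norm] at hb
      have h1 := norm_sub_norm_le x b
      rw [norm_sub_rev] at h1
      have h2 : 3 / 4 * ‖x‖ ≤ ‖b‖ := by linarith
      refine ⟨?_, ?_, h2⟩
      · left
        have h3 : ‖b / x - 1‖ < 1 := by
          rw [div_sub_one hxne, norm_div, div_lt_one hx0]
          linarith
        have h4 := Complex.abs_re_le_norm (b / x - 1)
        rw [Complex.sub_re, Complex.one_re] at h4
        have h5 := (abs_lt.1 (lt_of_le_of_lt h4 h3)).1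
        linarith
      · intro h0
        rw [h0, norm_zero] at h2
        linarith
    set H : ℂ → ℂ := fun b => Complex.log (b / x) + Complex.log x with hH
    have hHe : ∀ b ∈ ball x (ρ / 16), Complex.exp (H b) = b := by
      intro b hb
      obtain ⟨h1, h2, h3⟩ := hbx b hb
      rw [hH]
      show Complex.exp (Complex.log (b / x) + Complex.log x) = b
      rw [Complex.exp_add, Complex.exp_log (div_ne_zero h2 hxne), Complex.exp_log hxne]
      field_simp
    have hHd : ∀ b ∈ ball x (ρ / 16), HasDerivAt H (1 / b) b := by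
      intro b hb
      obtain ⟨h1, h2, h3⟩ := hbx b hb
      have h4 : HasDerivAt (fun b => b / x) (1 / x) b := (hasDerivAt_id b).div_const x
      have h5 := (h4.clog h1).add_const (Complex.log x)
      have e : (1 / x) / (b / x) = 1 / b := by field_simp
      rw [e] at h5
      exact h5
    have hqc : (q : ℂ) ≠ 0 := by exact_mod_cast (by omega : q ≠ 0)
    have key := near_up (c := x) (r := ρ / 16) (δ := δ) (Λ := q * (1 / x))
      (G := fun b => q * H b + L) (G' := fun b => q * (1 / b)) (by positivity)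
      (mul_ne_zero hqc (one_div_ne_zero hxne)) hδ0
      (fun b hb => ((hHd b hb).const_mul (q : ℂ)).add_const L)
      (fun b hb => by
        obtain ⟨h1, h2, h3⟩ := hbx b hb
        rw [← mul_sub, norm_mul, norm_mul]
        have e : 1 / b - 1 / x = (x - b) / (b * x) := by field_simp
        have h4 : ‖1 / b - 1 / x‖ ≤ 1 / 2 * ‖1 / x‖ := by
          rw [e, norm_div, norm_mul, norm_div, norm_one, div_le_iff₀ (by positivity)]
          rw [mem_ball, dist_eq_norm, norm_sub_rev] at hb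
          have e2 : 1 / 2 * (1 / ‖x‖) * (‖b‖ * ‖x‖) = ‖b‖ / 2 := by field_simp
          rw [e2]
          linarith
        have h5 : 0 ≤ ‖(q : ℂ)‖ := norm_nonneg _
        calc ‖(q : ℂ)‖ * ‖1 / b - 1 / x‖ ≤ ‖(q : ℂ)‖ * (1 / 2 * ‖1 / x‖) := by gcongr
          _ = _ := by ring)
    refine (measure_mono ?_).trans (key.trans (ENNReal.ofReal_le_ofReal ?_))
    · rintro b ⟨⟨hb1, hb2, hb3⟩, hb⟩
      refine ⟨hb, ?_⟩
      have hb0 : 0 < ‖b‖ := by linarith
      rw [← hHe b hb, uu_exp q α (H b) L hL, hHe b hb, abs_mul, abs_mul, abs_of_pos ha,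
        abs_of_nonneg (by positivity : 0 ≤ ‖b‖ ^ q)] at hb3
      show |Real.cos ((q * H b + L).im)| < δ
      have e : ‖b‖ ^ q = ‖b‖ ^ (q - 1) * ‖b‖ := by rw [← pow_succ]; congr 1; omega
      rw [e] at hb3
      have hbq : 0 < ‖b‖ ^ (q - 1) := by positivity
      have h6 : ‖b‖ ^ (q - 1) * (‖α‖ * ‖b‖ * |Real.cos ((q * H b + L).im)|) <
          ‖b‖ ^ (q - 1) * (k * Real.log ‖b‖) := by
        calc _ = ‖α‖ * (‖b‖ ^ (q - 1) * ‖b‖) * |Real.cos ((q * H b + L).im)| := by ring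
          _ < _ := hb3
          _ = _ := by ring
      have h7 := lt_of_mul_lt_mul_left h6 hbq.le
      have h8 : Real.log ‖b‖ ≤ Real.log ρ := Real.log_le_log hb0 (by linarith)
      rw [hδ, lt_div_iff₀ (by positivity)]
      have h9 : 0 ≤ |Real.cos ((q * H b + L).im)| := abs_nonneg _
      calc |Real.cos ((q * H b + L).im)| * (‖α‖ * ρ) ≤ |Real.cos ((q * H b + L).im)| * (‖α‖ * (4 * ‖b‖)) := by
            gcongr; linarith
        _ = 4 * (‖α‖ * ‖b‖ * |Real.cos ((q * H b + L).im)|) := by ring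
        _ < 4 * (k * Real.log ‖b‖) := by linarith
        _ ≤ 4 * (k * Real.log ρ) := by gcongr
        _ = _ := by ring
    · have h1 : 3 / (‖(q : ℂ) * (1 / x)‖ * (ρ / 16)) ≤ 24 := by
        rw [norm_mul, Complex.norm_natCast, norm_div, norm_one]
        have hq1 : (1 : ℝ) ≤ q := by exact_mod_cast hq
        have h2 : 1 / 8 ≤ q * (1 / ‖x‖) * (ρ / 16) := by
          have h3 : 2 / ρ ≤ 1 / ‖x‖ := by
            rw [div_le_div_iff₀ hρ0 hx0]; linarith
          calc (1 : ℝ) / 8 = 1 * (2 / ρ) * (ρ / 16) := by field_simp; norm_num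
            _ ≤ _ := by gcongr
        rw [div_le_iff₀ (by linarith)]
        linarith
      calc 36 * δ * ((ρ / 16) ^ 2 * (1 + 3 / (‖(q : ℂ) * (1 / x)‖ * (ρ / 16))))
          ≤ 36 * δ * ((ρ / 16) ^ 2 * (1 + 24)) := by gcongr
        _ = 900 * δ * (ρ / 16) ^ 2 := by ring

theorem exists_cst_aux (q N : ℕ) {K a : ℝ} (hN : 10 * q + 40 ≤ N) (hK : 1 ≤ K) (ha : 0 < a) :
    ∃ B X : ℝ, Cst q N K a B X := by
  set B := 2 * K + 1000 / a with hB
  have hB0 : 0 < 1000 / a := by positivity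
  obtain ⟨l2, hl2⟩ : ∃ l2 : ℝ, l2 = ((4 * N).factorial : ℝ) := ⟨_, rfl⟩
  have g2 : 0 ≤ l2 := by rw [hl2]; exact Nat.cast_nonneg _
  obtain ⟨l1, hl1⟩ : ∃ l1 : ℝ, l1 = 10000 * K ^ 2 * ((N : ℝ) + 2) := ⟨_, rfl⟩
  obtain ⟨l3, hl3⟩ : ∃ l3 : ℝ, l3 = 10000 * ((q : ℝ) + 1) * 4 ^ q * (a + 1) * (1 / a + 1) := ⟨_, rfl⟩
  obtain ⟨l4, hl4⟩ : ∃ l4 : ℝ, l4 = 4 * Real.exp (a * q * 2 ^ q * (K + B + 1)) := ⟨_, rfl⟩
  obtain ⟨l5, hl5⟩ : ∃ l5 : ℝ, l5 = 100 * (K + B + 1) := ⟨_, rfl⟩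
  obtain ⟨l6, hl6⟩ : ∃ l6 : ℝ, l6 = 4 ^ q * K + 1 := ⟨_, rfl⟩
  obtain ⟨l7, hl7⟩ : ∃ l7 : ℝ, l7 = 100000 * ((q : ℝ) + 1) * 4 ^ q * B := ⟨_, rfl⟩
  have g1 : 0 ≤ l1 := by rw [hl1]; positivity
  have g3 : 0 ≤ l3 := by rw [hl3]; positivity
  have g4 : 0 ≤ l4 := by rw [hl4]; positivity
  have g5 : 0 ≤ l5 := by rw [hl5]; positivity
  have g6 : 0 ≤ l6 := by rw [hl6]; positivity
  have g7 : 0 ≤ l7 := by rw [hl7]; positivity
  refine ⟨B, l1 + l2 + l3 + l4 + l5 + l6 + l7, ⟨hN, ha, ?_, ?_, ?_, ?_, ?_, ?_, ?_, ?_, ?_, ?_⟩⟩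
  all_goals first | linarith | skip

/-- existence of the constants -/
theorem exists_cst (hS : Sys q α F A S K) : ∃ B X : ℝ, Cst q (10 * q + 40) K ‖α‖ B X :=
  exists_cst_aux q _ (le_refl _) hS.K1 (norm_pos_iff.2 hS.α0)

/-- **Area of the parameters which are not hyperbolic.** -/
theorem area_bound (hS : Sys q α F A S K) :
    ∃ C : ℝ, 0 < C ∧ ∀ R : ℝ, 2 ≤ R →
      volume {c : ℂ | ‖c‖ ≤ R ∧ ¬ ∀ s ∈ S, Attr (fun z => F z + c) (c + s)} ≤
        ENNReal.ofReal (C * R * Real.log R) := by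
  obtain ⟨B, X, hC⟩ := exists_cst hS
  have hX := hC.X1 hS
  have ha := hC.a0
  have hK := hS.K1
  set k := kk q (10 * q + 40) K with hk
  have hk0 : 0 ≤ k := by rw [hk]; unfold kk; positivity
  set C1 : ℝ := hS.Sfin.toFinset.card * (8000 / ‖α‖) with hC1
  set C2 : ℝ := 360000 * (k / ‖α‖) with hC2
  have hC10 : 0 ≤ C1 := by positivity
  have hC20 : 0 ≤ C2 := by positivity
  set E : Set ℂ := {c : ℂ | ¬ ∀ s ∈ S, Attr (fun z => F z + c) (c + s)} with hE
  -- one annulus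
  have hann : ∀ ρ : ℝ, X ≤ ρ → volume {c | c ∈ E ∧ ρ / 4 ≤ ‖c‖ ∧ ‖c‖ ≤ ρ / 2} ≤
      ENNReal.ofReal ((C1 + C2) * ρ * Real.log ρ) := by
    intro ρ hρ
    have hlog : 1 ≤ Real.log ρ := by
      rw [Real.le_log_iff_exp_le (by linarith)]
      have := Real.exp_one_lt_d9
      linarith
    have hsub : {c | c ∈ E ∧ ρ / 4 ≤ ‖c‖ ∧ ‖c‖ ≤ ρ / 2} ⊆
        {c : ℂ | ρ / 4 ≤ ‖c‖ ∧ ‖c‖ ≤ ρ / 2 ∧ |uu q α c| < k * ‖c‖ ^ (q - 1) * Real.log ‖c‖} ∪
        {c | Adm q (10 * q + 40) α K ρ c ∧ ¬ ∀ s ∈ S, Attr (fun z => F z + c) (c + s)} := by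
      rintro c ⟨h1, h2, h3⟩
      by_cases h4 : |uu q α c| < k * ‖c‖ ^ (q - 1) * Real.log ‖c‖
      · exact Or.inl ⟨h2, h3, h4⟩
      · right
        rw [not_lt] at h4
        rcases le_or_gt 0 (uu q α c) with h5 | h5
        · rw [abs_of_nonneg h5] at h4
          exact ⟨⟨h2, h3, h4⟩, h1⟩
        · exfalso
          rw [abs_of_neg h5] at h4
          apply h1
          intro s hs
          refine attr_neg hC hS hρ ⟨h2, h3, ?_⟩ hs
          have : uu q (-α) c = -uu q α c := by unfold uu; rw [neg_mul, Complex.neg_re]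
          rw [this]
          exact h4
    refine (measure_mono hsub).trans ((measure_union_le _ _).trans
      ((add_le_add (strip_meas hS.q1 hS.α0 hk0 (by linarith)) (pos_part hC hS hρ)).trans ?_))
    rw [← ENNReal.ofReal_add (by
      have : 0 ≤ Real.log ρ := by linarith
      have : 0 ≤ ρ := by linarith
      positivity) (by
      have : 0 ≤ ρ := by linarith
      positivity)]
    apply ENNReal.ofReal_le_ofReal
    have h5 : 0 ≤ C1 * ρ := mul_nonneg hC10 (by linarith)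
    calc C2 * ρ * Real.log ρ + hS.Sfin.toFinset.card * (8000 / ‖α‖ * ρ) = C2 * ρ * Real.log ρ + C1 * ρ * 1 := by
          rw [hC1]; ring
      _ ≤ C2 * ρ * Real.log ρ + C1 * ρ * Real.log ρ := by gcongr
      _ = _ := by ring
  refine ⟨8 * (C1 + C2) + 4 * X ^ 2, by positivity, fun R hR => ?_⟩
  have hR0 : 0 < R := by linarith
  have hlogR : 1 / 2 ≤ Real.log R := by
    have h1 : Real.log 2 ≤ Real.log R := Real.log_le_log (by norm_num) hR
    have := Real.log_two_gt_d9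
    linarith
  have hlog2R : Real.log (2 * R) ≤ 2 * Real.log R := by
    rw [Real.log_mul (by norm_num) (by linarith)]
    have h1 : Real.log 2 ≤ Real.log R := Real.log_le_log (by norm_num) hR
    linarith
  set P : ℕ → Set ℂ := fun n => {c | c ∈ E ∧ X ≤ 2 * R * (1 / 2) ^ n ∧ (2 * R * (1 / 2) ^ n) / 4 ≤ ‖c‖ ∧
    ‖c‖ ≤ (2 * R * (1 / 2) ^ n) / 2} with hP
  have hPm : ∀ n, volume (P n) ≤ ENNReal.ofReal ((C1 + C2) * (2 * R) * (2 * Real.log R) * (1 / 2) ^ n) := by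
    intro n
    by_cases hn : X ≤ 2 * R * (1 / 2) ^ n
    · have h1 : P n ⊆ {c | c ∈ E ∧ (2 * R * (1 / 2) ^ n) / 4 ≤ ‖c‖ ∧ ‖c‖ ≤ (2 * R * (1 / 2) ^ n) / 2} :=
        fun c hc => ⟨hc.1, hc.2.2⟩
      refine (measure_mono h1).trans ((hann _ hn).trans (ENNReal.ofReal_le_ofReal ?_))
      have h2 : Real.log (2 * R * (1 / 2) ^ n) ≤ 2 * Real.log R := by
        refine le_trans (Real.log_le_log (by linarith) ?_) hlog2R
        have : (1 / 2 : ℝ) ^ n ≤ 1 := pow_le_one₀ (by norm_num) (by norm_num)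
        nlinarith
      calc (C1 + C2) * (2 * R * (1 / 2) ^ n) * Real.log (2 * R * (1 / 2) ^ n)
          ≤ (C1 + C2) * (2 * R * (1 / 2) ^ n) * (2 * Real.log R) := by gcongr
        _ = _ := by ring
    · have h1 : P n = ∅ := by
        ext c
        constructor
        · intro hc; exact absurd hc.2.1 hn
        · intro hc; exact absurd hc (notMem_empty c)
      rw [h1, measure_empty]
      exact zero_le
  have hsub : {c : ℂ | ‖c‖ ≤ R ∧ ¬ ∀ s ∈ S, Attr (fun z => F z + c) (c + s)} ⊆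
      closedBall 0 X ∪ ⋃ n, P n := by
    rintro c ⟨h1, h2⟩
    by_cases h3 : ‖c‖ ≤ X
    · left; rwa [mem_closedBall_zero_iff]
    · right
      rw [not_le] at h3
      have hc0 : 0 < ‖c‖ := by linarith
      obtain ⟨n, hn1, hn2⟩ := exists_nat_pow_near_of_lt_one (x := ‖c‖ / R) (y := (1 / 2 : ℝ))
        (by positivity) (by rw [div_le_one hR0]; exact h1) (by norm_num) (by norm_num)
      rw [lt_div_iff₀ hR0] at hn1
      rw [div_le_iff₀ hR0] at hn2
      rw [pow_succ] at hn1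
      rw [mem_iUnion]
      refine ⟨n, h2, ?_, ?_, ?_⟩
      · linarith
      · linarith
      · linarith
  refine (measure_mono hsub).trans ((measure_union_le _ _).trans ?_)
  have hball : volume (closedBall (0 : ℂ) X) ≤ ENNReal.ofReal (4 * X ^ 2) := by
    rw [Complex.volume_closedBall, ← ENNReal.ofReal_pow (by linarith), mul_comm, ← ENNReal.ofReal_coe_nnreal,
      ← ENNReal.ofReal_mul (by positivity)]
    apply ENNReal.ofReal_le_ofReal
    rw [NNReal.coe_real_pi]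
    have := Real.pi_lt_four
    nlinarith [sq_nonneg X]
  have hsum : volume (⋃ n, P n) ≤ ENNReal.ofReal (8 * (C1 + C2) * R * Real.log R) := by
    refine (measure_iUnion_le _).trans ((ENNReal.tsum_le_tsum hPm).trans (le_of_eq ?_))
    rw [← ENNReal.ofReal_tsum_of_nonneg (fun n => by
      have : 0 ≤ Real.log R := by linarith
      positivity), tsum_mul_left, tsum_geometric_of_lt_one (by norm_num) (by norm_num)]
    · congr 1; ring
    · exact (summable_geometric_of_lt_one (by norm_num) (by norm_num)).mul_left _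
  refine (add_le_add hball hsum).trans ?_
  rw [← ENNReal.ofReal_add (by positivity) (by
      have : 0 ≤ Real.log R := by linarith
      positivity)]
  apply ENNReal.ofReal_le_ofReal
  have h1 : 1 ≤ R * Real.log R := by nlinarith
  have h2 : 0 ≤ 4 * X ^ 2 := by positivity
  calc 4 * X ^ 2 + 8 * (C1 + C2) * R * Real.log R ≤ 4 * X ^ 2 * (R * Real.log R) + 8 * (C1 + C2) * R * Real.log R := by
        nlinarith
    _ = _ := by ring

end Pool.Agent.Helper34.EF
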