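import Mathlib

/-!
# Entire functions with finitely many singular values of type `∫ P e^Q`: abstract data

We study the one parameter family `F + c`, `F` entire, which far out in the plane is either huge
(where `Re (α z ^ q)` is large) or very near one of finitely many values (where `Re (α z ^ q)` is very
negative).
-/

set_option autoImplicit false

open Filter Topology Metric Set MeasureTheory

namespace Pool.Agent.Helper34.EF

/-- the harmonic function which governs the size of the map -/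
noncomputable def uu (q : ℕ) (α z : ℂ) : ℝ := (α * z ^ q).re

/-- the hypotheses on the entire function `F`: `A` is the set of the asymptotic values, `S` the set
of all singular values -/
structure Sys (q : ℕ) (α : ℂ) (F : ℂ → ℂ) (A S : Set ℂ) (K : ℝ) : Prop where
  q1 : 1 ≤ q
  α0 : α ≠ 0
  K1 : 1 ≤ K
  diff : Differentiable ℂ F
  up : ∀ z, K ≤ ‖z‖ → ‖F z‖ ≤ Real.exp (K * ‖z‖ ^ q)
  big : ∀ z, K ≤ ‖z‖ → K * ‖z‖ ^ (q - 1) * Real.log ‖z‖ ≤ uu q α z →
    Real.exp (uu q α z / 2) ≤ ‖F z‖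
  far : ∀ z, K ≤ ‖z‖ → K ≤ ‖F z‖ →
    ‖deriv F z - q * α * z ^ (q - 1) * F z‖ ≤ 1 / 1000 * ‖q * α * z ^ (q - 1) * F z‖
  small : ∀ z, K ≤ ‖z‖ → uu q α z ≤ -(K * ‖z‖ ^ (q - 1) * Real.log ‖z‖) →
    (∃ a ∈ A, ‖F z - a‖ ≤ Real.exp (uu q α z / 2)) ∧ ‖deriv F z‖ ≤ Real.exp (uu q α z / 2)
  deep : ∀ a ∈ A, ∃ θ : ℝ, ∀ (z : ℂ) (y : ℝ), |y| ≤ 1 / K → K ≤ ‖z‖ →
    z = ‖z‖ * Complex.exp ((θ + y : ℝ) * Complex.I) →
      uu q α z ≤ -(‖z‖ ^ q / K) ∧ ‖F z - a‖ ≤ Real.exp (uu q α z / 2)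
  Ane : A.Nonempty
  Afin : A.Finite
  Sfin : S.Finite
  AS : A ⊆ S
  bd : ∀ s ∈ S, ‖s‖ ≤ K

/-- size of the map on a segment, if the logarithmic derivative is bounded -/
theorem ld {F : ℂ → ℂ} (hF : Differentiable ℂ F) {z w : ℂ} {B : ℝ} (hB : 0 ≤ B)
    (h : ∀ ζ ∈ segment ℝ z w, ‖deriv F ζ‖ ≤ B * ‖F ζ‖) (h2 : B * ‖w - z‖ ≤ 1 / 2) :
    ‖F w - F z‖ ≤ 2 * (B * ‖w - z‖) * ‖F z‖ := by
  have hc : IsCompact (segment ℝ z w) := by
    rw [segment_eq_image_lineMap]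
    exact isCompact_Icc.image AffineMap.lineMap_continuous
  obtain ⟨ζ0, hζ0, hmax⟩ := hc.exists_isMaxOn ⟨z, left_mem_segment ℝ z w⟩
    hF.continuous.norm.continuousOn
  have key : ∀ ζ ∈ segment ℝ z w, ‖F ζ - F z‖ ≤ B * ‖F ζ0‖ * ‖w - z‖ := by
    intro ζ hζ
    have h3 := (convex_segment (𝕜 := ℝ) z w).norm_image_sub_le_of_norm_deriv_le (𝕜 := ℂ)
      (f := F) (C := B * ‖F ζ0‖) (fun x _ => hF x)
      (fun x hx => (h x hx).trans (mul_le_mul_of_nonneg_left (hmax hx) hB))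
      (left_mem_segment ℝ z w) hζ
    refine h3.trans (mul_le_mul_of_nonneg_left ?_ (by positivity))
    obtain ⟨a, b, ha, hb, hab, rfl⟩ := hζ
    have e : a • z + b • w - z = b • (w - z) := by
      have : a = 1 - b := by linarith
      rw [this, sub_smul, smul_sub, one_smul]; ring
    rw [e, norm_smul, Real.norm_of_nonneg hb]
    nlinarith [norm_nonneg (w - z)]
  have h4 : ‖F ζ0‖ ≤ 2 * ‖F z‖ := by
    have h5 := key ζ0 hζ0
    have h6 := norm_sub_norm_le (F ζ0) (F z)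
    have h7 : B * ‖F ζ0‖ * ‖w - z‖ = (B * ‖w - z‖) * ‖F ζ0‖ := by ring
    rw [h7] at h5
    nlinarith [norm_nonneg (F ζ0)]
  refine (key w (right_mem_segment ℝ z w)).trans ?_
  have h7 : B * ‖F ζ0‖ * ‖w - z‖ = (B * ‖w - z‖) * ‖F ζ0‖ := by ring
  rw [h7]
  have h8 : 0 ≤ B * ‖w - z‖ := by positivity
  nlinarith [mul_le_mul_of_nonneg_left h4 h8]

/-- a power difference bound -/
theorem pow_sub_le (q : ℕ) {z w : ℂ} {R : ℝ} (hz : ‖z‖ ≤ R) (hw : ‖w‖ ≤ R) :
    ‖w ^ q - z ^ q‖ ≤ q * R ^ (q - 1) * ‖w - z‖ := by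
  have h3 := (convex_closedBall (0 : ℂ) R).norm_image_sub_le_of_norm_deriv_le (𝕜 := ℂ)
      (f := fun x : ℂ => x ^ q) (C := q * R ^ (q - 1)) (fun x _ => by fun_prop)
      (fun x hx => by
        rw [deriv_pow_field, norm_mul, norm_pow, Complex.norm_natCast]
        rw [mem_closedBall_zero_iff] at hx
        gcongr) (x := z) (y := w) (by simpa using hz) (by simpa using hw)
  exact h3

theorem uu_sub_le (q : ℕ) (α : ℂ) {z w : ℂ} {R : ℝ} (hz : ‖z‖ ≤ R) (hw : ‖w‖ ≤ R) :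
    |uu q α w - uu q α z| ≤ ‖α‖ * q * R ^ (q - 1) * ‖w - z‖ := by
  unfold uu
  rw [← Complex.sub_re, ← mul_sub]
  refine (Complex.abs_re_le_norm _).trans ?_
  rw [norm_mul]
  calc ‖α‖ * ‖w ^ q - z ^ q‖ ≤ ‖α‖ * (q * R ^ (q - 1) * ‖w - z‖) :=
        mul_le_mul_of_nonneg_left (pow_sub_le q hz hw) (norm_nonneg _)
    _ = _ := by ring

theorem log_le_two_sqrt {r : ℝ} (hr : 0 < r) : Real.log r ≤ 2 * Real.sqrt r := by
  have h : Real.log r = 2 * Real.log (Real.sqrt r) := by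
    rw [Real.log_sqrt hr.le]; ring
  rw [h]
  have := Real.log_le_self (Real.sqrt_nonneg r)
  linarith

variable {q : ℕ} {α : ℂ} {F : ℂ → ℂ} {A S : Set ℂ} {K : ℝ}

/-- positions of large modulus outside a thin strip -/
theorem marg (hS : Sys q α F A S K) {N : ℕ} (hN : q + 4 ≤ N) {x : ℝ}
    (hx : 10000 * K ^ 2 * (N + 2) ≤ x) {ζ : ℂ} (h1 : x ^ N / 2 ≤ ‖ζ‖)
    (h2 : 1 / 16 * ‖ζ‖ ^ q ≤ x * |uu q α ζ|) :
    K ≤ ‖ζ‖ ∧ K * ‖ζ‖ ^ (q - 1) * Real.log ‖ζ‖ ≤ |uu q α ζ| ∧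
      4 * Real.exp (x ^ (q + 1)) ^ N ≤ Real.exp (|uu q α ζ| / 2) := by
  have hq := hS.q1
  have hK := hS.K1
  have hN2 : (2 : ℝ) ≤ N + 2 := by
    have : (0 : ℝ) ≤ N := Nat.cast_nonneg N
    linarith
  have hK2 : 1 ≤ K ^ 2 := by nlinarith
  have hx1 : 1 ≤ x := by nlinarith
  have hx2 : 2048 * K ^ 2 ≤ x := by nlinarith
  have hx3 : 1000 * ((N : ℝ) + 2) ≤ x := by nlinarith
  set r := ‖ζ‖ with hr
  have hrx : x ^ 3 ≤ r := by
    have h3 : x ^ 4 ≤ x ^ N := pow_le_pow_right₀ hx1 (by omega)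
    have h4 : x ^ 3 * 2 ≤ x ^ 4 := by
      have : 2 ≤ x := by nlinarith
      nlinarith [pow_pos (by linarith : 0 < x) 3]
    linarith
  have hr1 : 1 ≤ r := (one_le_pow₀ hx1).trans hrx
  have hr0 : 0 < r := by linarith
  have hx0 : 0 < x := by linarith
  have hKx : K ≤ x := by nlinarith
  have hxr : x ≤ r := by
    refine le_trans ?_ hrx
    nlinarith [sq_nonneg x, mul_nonneg hx0.le hx0.le]
  refine ⟨hKx.trans hxr, ?_, ?_⟩
  · -- first
    have h5 : K * Real.log r * (16 * x) ≤ r := by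
      have h6 := log_le_two_sqrt hr0
      have h7 : 32 * K * x ≤ Real.sqrt r := by
        apply Real.le_sqrt_of_sq_le
        have : (32 * K * x) ^ 2 = 1024 * K ^ 2 * x ^ 2 := by ring
        rw [this]
        refine le_trans ?_ hrx
        have : 1024 * K ^ 2 * x ^ 2 ≤ x * x ^ 2 :=
          mul_le_mul_of_nonneg_right (by linarith) (sq_nonneg x)
        calc _ ≤ x * x ^ 2 := this
          _ = x ^ 3 := by ring
      have h8 : Real.sqrt r * Real.sqrt r = r := Real.mul_self_sqrt hr0.le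
      have h9 : 0 ≤ Real.sqrt r := Real.sqrt_nonneg r
      calc K * Real.log r * (16 * x) ≤ K * (2 * Real.sqrt r) * (16 * x) := by gcongr
        _ = 32 * K * x * Real.sqrt r := by ring
        _ ≤ Real.sqrt r * Real.sqrt r := mul_le_mul_of_nonneg_right h7 h9
        _ = r := h8
    have h10 : r ^ q = r ^ (q - 1) * r := by
      rw [← pow_succ]; congr 1; omega
    have h11 : 0 < r ^ (q - 1) := by positivity
    rw [h10] at h2
    have h12 : r ^ (q - 1) * (K * Real.log r * (16 * x)) ≤ 16 * (x * |uu q α ζ|) := by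
      calc r ^ (q - 1) * (K * Real.log r * (16 * x)) ≤ r ^ (q - 1) * r :=
            mul_le_mul_of_nonneg_left h5 h11.le
        _ ≤ 16 * (x * |uu q α ζ|) := by linarith
    have h13 : 16 * x * (K * r ^ (q - 1) * Real.log r) ≤ 16 * x * |uu q α ζ| := by
      calc _ = r ^ (q - 1) * (K * Real.log r * (16 * x)) := by ring
        _ ≤ 16 * (x * |uu q α ζ|) := h12
        _ = _ := by ring
    exact le_of_mul_le_mul_left h13 (by positivity)
  · have h5 : 2 + N * x ^ (q + 1) ≤ |uu q α ζ| / 2 := by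
      have h6 : r ≤ r ^ q := le_self_pow₀ hr1 (by omega)
      have h7 : x ^ N / 32 ≤ x * |uu q α ζ| := by
        calc x ^ N / 32 = 1 / 16 * (x ^ N / 2) := by ring
          _ ≤ 1 / 16 * r ^ q := by
            apply mul_le_mul_of_nonneg_left (h1.trans h6) (by norm_num)
          _ ≤ _ := h2
      have h8 : x ^ N = x ^ (N - 1) * x := by
        rw [← pow_succ]; congr 1; omega
      have h9 : x ^ (N - 1) / 32 ≤ |uu q α ζ| := by
        rw [h8] at h7
        have : x * (x ^ (N - 1) / 32) ≤ x * |uu q α ζ| := by linarith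
        exact le_of_mul_le_mul_left this hx0
      have h10 : x ^ (q + 1) * x ^ 2 ≤ x ^ (N - 1) := by
        rw [← pow_add]
        exact pow_le_pow_right₀ hx1 (by omega)
      have h11 : 1 ≤ x ^ (q + 1) := one_le_pow₀ hx1
      have h12 : 64 * (N + 2) ≤ x ^ 2 := by nlinarith
      have h13 : x ^ (q + 1) * (64 * (N + 2)) ≤ x ^ (N - 1) :=
        (mul_le_mul_of_nonneg_left h12 (by positivity)).trans h10
      nlinarith
    have h6 : Real.exp (x ^ (q + 1)) ^ N = Real.exp (N * x ^ (q + 1)) := by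
      rw [← Real.exp_nat_mul]
    rw [h6]
    have h7 : (4 : ℝ) ≤ Real.exp 2 := by
      have := Real.exp_one_gt_d9
      have h8 : Real.exp 2 = Real.exp 1 * Real.exp 1 := by rw [← Real.exp_add]; norm_num
      rw [h8]; nlinarith
    calc 4 * Real.exp (N * x ^ (q + 1)) ≤ Real.exp 2 * Real.exp (N * x ^ (q + 1)) := by gcongr
      _ = Real.exp (2 + N * x ^ (q + 1)) := by rw [Real.exp_add]
      _ ≤ _ := Real.exp_le_exp.2 h5

end Pool.Agent.Helper34.EF
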