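import Mathlib
import Pool.Graph.R_pool_sql_team_seeded_3997aac3.Q68.XF.COS
import Pool.Graph.R_pool_sql_team_seeded_5cf16337.K3h20.EJ.B1

/-!
# Distribution of the values of near-affine maps
-/

set_option autoImplicit false

open Filter Topology Metric Set MeasureTheory

namespace Pool.Agent.Helper34.EF

theorem vol_rect (I T : Set ℝ) :
    volume {w : ℂ | w.re ∈ I ∧ w.im ∈ T} = volume I * volume T := by
  have h := Complex.volume_preserving_equiv_real_prod.measure_preimage_equiv (I ×ˢ T)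
  rw [Measure.volume_eq_prod, Measure.prod_prod] at h
  rw [← h]
  rfl

theorem vol_cos {a δ : ℝ} (h0 : 0 ≤ δ) (h1 : δ ≤ 1) :
    volume ({y : ℝ | |Real.cos y| < δ} ∩ Ico a (a + 2 * Real.pi)) ≤ ENNReal.ofReal (2 * Real.pi * δ) := by
  obtain ⟨hA, hB⟩ := Pool.Agent.Q68.XF.t_COS a δ h0 h1
  have hpi := Real.pi_pos
  set I := Ico a (a + 2 * Real.pi) with hI
  set U1 := {θ : ℝ | θ ∈ I ∧ δ ≤ Real.cos θ}
  set U2 := {θ : ℝ | θ ∈ I ∧ Real.cos θ ≤ -δ}
  set U3 := {y : ℝ | |Real.cos y| < δ} ∩ I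
  have hm1 : MeasurableSet U1 :=
    measurableSet_Ico.inter (measurableSet_le measurable_const Real.measurable_cos)
  have hm2 : MeasurableSet U2 :=
    measurableSet_Ico.inter (measurableSet_le Real.measurable_cos measurable_const)
  have hm3 : MeasurableSet U3 :=
    (measurableSet_lt Real.measurable_cos.abs measurable_const).inter measurableSet_Ico
  have hd23 : Disjoint U2 U3 := by
    rw [Set.disjoint_left]
    rintro y ⟨_, h2⟩ ⟨h3, _⟩
    have := (abs_lt.1 (show |Real.cos y| < δ from h3)).1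
    linarith
  have hd13 : Disjoint U1 U3 := by
    rw [Set.disjoint_left]
    rintro y ⟨_, h2⟩ ⟨h3, _⟩
    have := (abs_lt.1 (show |Real.cos y| < δ from h3)).2
    linarith
  rcases h0.eq_or_lt with h00 | h00
  · have : U3 = ∅ := by
      ext y
      constructor
      · rintro ⟨h3, _⟩
        have h4 : |Real.cos y| < δ := h3
        rw [← h00] at h4
        exact absurd h4 (not_lt.2 (abs_nonneg _))
      · exact fun h => absurd h (notMem_empty y)
    rw [this, measure_empty]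
    exact zero_le
  have hd12 : Disjoint U1 U2 := by
    rw [Set.disjoint_left]
    rintro y ⟨_, h2⟩ ⟨_, h3⟩
    linarith
  have hle : volume U1 + (volume U2 + volume U3) ≤ ENNReal.ofReal (2 * Real.pi) := by
    rw [← measure_union hd23 hm3, ← measure_union (by
      rw [disjoint_union_right]; exact ⟨hd12, hd13⟩) (hm2.union hm3)]
    have : U1 ∪ (U2 ∪ U3) ⊆ I := by
      rintro y (h | h | h)
      · exact h.1
      · exact h.1
      · exact h.2
    refine (measure_mono this).trans ?_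
    rw [hI, Real.volume_Ico]
    apply ENNReal.ofReal_le_ofReal
    linarith
  have h5 : ENNReal.ofReal (Real.pi - Real.pi * δ) + (ENNReal.ofReal (Real.pi - Real.pi * δ) + volume U3) ≤
      ENNReal.ofReal (Real.pi - Real.pi * δ) + (ENNReal.ofReal (Real.pi - Real.pi * δ) +
        ENNReal.ofReal (2 * Real.pi * δ)) := by
    have h6 : ENNReal.ofReal (Real.pi - Real.pi * δ) + (ENNReal.ofReal (Real.pi - Real.pi * δ) +
        ENNReal.ofReal (2 * Real.pi * δ)) = ENNReal.ofReal (2 * Real.pi) := by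
      have h7 : 0 ≤ Real.pi - Real.pi * δ := by nlinarith
      rw [← ENNReal.ofReal_add h7 (by positivity), ← ENNReal.ofReal_add h7 (by positivity)]
      congr 1; ring
    rw [h6]
    refine le_trans ?_ hle
    gcongr
  exact (ENNReal.add_le_add_iff_left ENNReal.ofReal_ne_top).1
    ((ENNReal.add_le_add_iff_left ENNReal.ofReal_ne_top).1 h5)

theorem vol_cos_n {a δ : ℝ} (h0 : 0 ≤ δ) (h1 : δ ≤ 1) (n : ℕ) :
    volume ({y : ℝ | |Real.cos y| < δ} ∩ Ico a (a + 2 * Real.pi * n)) ≤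
      ENNReal.ofReal (n * (2 * Real.pi * δ)) := by
  induction n with
  | zero => simp
  | succ n ih =>
    have h2 : {y : ℝ | |Real.cos y| < δ} ∩ Ico a (a + 2 * Real.pi * (n + 1 : ℕ)) ⊆
        ({y : ℝ | |Real.cos y| < δ} ∩ Ico a (a + 2 * Real.pi * n)) ∪
        ({y : ℝ | |Real.cos y| < δ} ∩ Ico (a + 2 * Real.pi * n) (a + 2 * Real.pi * n + 2 * Real.pi)) := by
      rintro y ⟨h3, h4, h5⟩
      push_cast at h5
      by_cases h6 : y < a + 2 * Real.pi * n
      · exact Or.inl ⟨h3, h4, h6⟩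
      · exact Or.inr ⟨h3, not_lt.1 h6, by linarith⟩
    refine (measure_mono h2).trans ((measure_union_le _ _).trans ?_)
    refine (add_le_add ih (vol_cos h0 h1)).trans ?_
    rw [← ENNReal.ofReal_add (by positivity) (by positivity)]
    apply ENNReal.ofReal_le_ofReal
    push_cast; linarith

/-- horizontal strips in a disc -/
theorem strips {p : ℂ} {R δ : ℝ} (hR : 0 < R) (h0 : 0 ≤ δ) :
    volume (ball p R ∩ {w : ℂ | |Real.cos w.im| < δ}) ≤ ENNReal.ofReal (4 * R * (R + 4) * δ) := by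
  have hpi := Real.pi_pos
  have hpi3 := Real.pi_gt_three
  have hpi4 := Real.pi_lt_four
  rcases le_or_gt δ 1 with h1 | h1
  · obtain ⟨n, hn⟩ : ∃ n : ℕ, n = ⌈R / Real.pi⌉₊ := ⟨_, rfl⟩
    have hn1 : R / Real.pi ≤ n := by rw [hn]; exact Nat.le_ceil _
    have hn2 : (n : ℝ) < R / Real.pi + 1 := by rw [hn]; exact Nat.ceil_lt_add_one (by positivity)
    have hn1' : R ≤ Real.pi * n := by rwa [div_le_iff₀ hpi, mul_comm] at hn1
    have hn2' : Real.pi * n ≤ R + Real.pi := by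
      have : Real.pi * n < Real.pi * (R / Real.pi + 1) := by gcongr
      have h3 : Real.pi * (R / Real.pi + 1) = R + Real.pi := by field_simp
      linarith
    have hsub : ball p R ∩ {w : ℂ | |Real.cos w.im| < δ} ⊆
        {w : ℂ | w.re ∈ Icc (p.re - R) (p.re + R) ∧ w.im ∈ {y : ℝ | |Real.cos y| < δ} ∩
          Ico (p.im - R) (p.im - R + 2 * Real.pi * n)} := by
      rintro w ⟨hw, hw2⟩
      rw [mem_ball, dist_eq_norm] at hw
      have h3 := (abs_le.1 ((Complex.abs_re_le_norm (w - p)).trans hw.le))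
      have h4 := (abs_lt.1 (lt_of_le_of_lt (Complex.abs_im_le_norm (w - p)) hw))
      rw [Complex.sub_re] at h3
      rw [Complex.sub_im] at h4
      exact ⟨⟨by linarith, by linarith⟩, hw2, by linarith, by linarith⟩
    refine (measure_mono hsub).trans ?_
    rw [vol_rect, Real.volume_Icc]
    refine (mul_le_mul_right (vol_cos_n h0 h1 n) _).trans ?_
    rw [← ENNReal.ofReal_mul (by linarith)]
    apply ENNReal.ofReal_le_ofReal
    have h5 : (p.re + R - (p.re - R)) * (n * (2 * Real.pi * δ)) = 4 * R * (Real.pi * n) * δ := by ring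
    rw [h5]
    gcongr
    linarith
  · refine (measure_mono inter_subset_left).trans ?_
    rw [K3h20.EJ.vol_ball p hR.le]
    apply ENNReal.ofReal_le_ofReal
    have h5 : Real.pi * R ^ 2 ≤ 4 * R * R * 1 := by nlinarith [sq_nonneg R]
    refine h5.trans ?_
    have : 4 * R * R ≤ 4 * R * (R + 4) := by nlinarith
    have h6 : 0 ≤ 4 * R * (R + 4) := by positivity
    nlinarith

/-- union of sectors in the logarithmic plane -/
theorem sect_low {p : ℂ} {R θ η : ℝ} (hR : 100 ≤ R) (h0 : 0 < η) (h1 : η ≤ 1) :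
    ENNReal.ofReal (η * R ^ 2 / 10) ≤
      volume (ball p R ∩ {w : ℂ | ∃ (k : ℤ) (y : ℝ), |y| ≤ η ∧ w.im = θ + y + k * (2 * Real.pi)}) := by
  have hpi := Real.pi_pos
  have hpi3 := Real.pi_gt_three
  have hpi4 : Real.pi < 3.15 := Real.pi_lt_d2
  obtain ⟨k0, hk0⟩ : ∃ k0 : ℤ, k0 = ⌈(p.im - R / 2 - θ + 1) / (2 * Real.pi)⌉ := ⟨_, rfl⟩
  have hk1 : (p.im - R / 2 - θ + 1) / (2 * Real.pi) ≤ k0 := by rw [hk0]; exact Int.le_ceil _
  have hk2 : (k0 : ℝ) < (p.im - R / 2 - θ + 1) / (2 * Real.pi) + 1 := by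
    rw [hk0]; exact Int.ceil_lt_add_one _
  rw [div_le_iff₀ (by positivity)] at hk1
  rw [← sub_lt_iff_lt_add, lt_div_iff₀ (by positivity)] at hk2
  obtain ⟨n, hn⟩ : ∃ n : ℕ, n = ⌊R / 8⌋₊ := ⟨_, rfl⟩
  have hn1 : (n : ℝ) ≤ R / 8 := by rw [hn]; exact Nat.floor_le (by linarith)
  have hn2 : R / 8 < n + 1 := by rw [hn]; exact Nat.lt_floor_add_one _
  set I := Icc (p.re - R / 2) (p.re + R / 2) with hI
  set T : ℕ → Set ℝ := fun i => Icc (θ + ((k0 + i : ℤ) : ℝ) * (2 * Real.pi) - η)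
    (θ + ((k0 + i : ℤ) : ℝ) * (2 * Real.pi) + η) with hT
  have hsub : (⋃ i ∈ Finset.range n, {w : ℂ | w.re ∈ I ∧ w.im ∈ T i}) ⊆
      ball p R ∩ {w : ℂ | ∃ (k : ℤ) (y : ℝ), |y| ≤ η ∧ w.im = θ + y + k * (2 * Real.pi)} := by
    intro w hw
    rw [mem_iUnion₂] at hw
    obtain ⟨i, hi, h3, h4⟩ := hw
    rw [Finset.mem_range] at hi
    refine ⟨?_, k0 + i, w.im - θ - ((k0 + i : ℤ) : ℝ) * (2 * Real.pi), ?_, by ring⟩
    · have hi' : (i : ℝ) + 1 ≤ n := by exact_mod_cast hi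
      have h5 : θ + ((k0 + i : ℤ) : ℝ) * (2 * Real.pi) - η ≤ w.im := h4.1
      have h6 : w.im ≤ θ + ((k0 + i : ℤ) : ℝ) * (2 * Real.pi) + η := h4.2
      push_cast at h5 h6
      have hi0 : (0 : ℝ) ≤ i := Nat.cast_nonneg i
      have h7 : (i : ℝ) * (2 * Real.pi) ≤ (R / 8 - 1) * (2 * Real.pi) := by
        gcongr; linarith
      have h8 : 0 ≤ (i : ℝ) * (2 * Real.pi) := by positivity
      have h9 : |(w - p).re| ≤ R / 2 := by
        rw [Complex.sub_re, abs_le]
        exact ⟨by linarith [h3.1], by linarith [h3.2]⟩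
      have h10 : |(w - p).im| ≤ R / 2 := by
        rw [Complex.sub_im, abs_le]
        constructor
        · nlinarith
        · nlinarith
      rw [mem_ball, dist_eq_norm]
      have h11 : ‖w - p‖ ^ 2 ≤ (R / 2) ^ 2 + (R / 2) ^ 2 := by
        rw [← Complex.normSq_eq_norm_sq, Complex.normSq_apply]
        have := sq_le_sq' (abs_le.1 h9).1 (abs_le.1 h9).2
        have := sq_le_sq' (abs_le.1 h10).1 (abs_le.1 h10).2
        nlinarith
      have h12 : ‖w - p‖ ^ 2 < R ^ 2 := by nlinarith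
      exact lt_of_pow_lt_pow_left₀ 2 (by linarith) h12
    · have h5 : θ + ((k0 + i : ℤ) : ℝ) * (2 * Real.pi) - η ≤ w.im := h4.1
      have h6 : w.im ≤ θ + ((k0 + i : ℤ) : ℝ) * (2 * Real.pi) + η := h4.2
      rw [abs_le]
      exact ⟨by linarith, by linarith⟩
  refine le_trans ?_ (measure_mono hsub)
  rw [measure_biUnion_finset]
  · have h3 : ∀ i ∈ Finset.range n, volume {w : ℂ | w.re ∈ I ∧ w.im ∈ T i} = ENNReal.ofReal (R * (2 * η)) := by
      intro i _
      rw [vol_rect, hI, Real.volume_Icc, Real.volume_Icc, ← ENNReal.ofReal_mul (by linarith)]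
      congr 1; ring
    rw [Finset.sum_congr rfl h3, Finset.sum_const, Finset.card_range, nsmul_eq_mul,
      ← ENNReal.ofReal_natCast, ← ENNReal.ofReal_mul (Nat.cast_nonneg n)]
    apply ENNReal.ofReal_le_ofReal
    have h4 : R / 10 ≤ 2 * n := by linarith
    calc η * R ^ 2 / 10 = (R / 10) * (R * η) := by ring
      _ ≤ 2 * n * (R * η) := by gcongr
      _ = _ := by ring
  · intro i _ j _ hij
    rw [Function.onFun, Set.disjoint_left]
    rintro w ⟨_, h4⟩ ⟨_, h5⟩
    have g1 : θ + ((k0 + i : ℤ) : ℝ) * (2 * Real.pi) - η ≤ w.im := h4.1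
    have g2 : w.im ≤ θ + ((k0 + i : ℤ) : ℝ) * (2 * Real.pi) + η := h4.2
    have g3 : θ + ((k0 + j : ℤ) : ℝ) * (2 * Real.pi) - η ≤ w.im := h5.1
    have g4 : w.im ≤ θ + ((k0 + j : ℤ) : ℝ) * (2 * Real.pi) + η := h5.2
    push_cast at g1 g2 g3 g4
    rcases Nat.lt_or_gt_of_ne hij with h | h
    · have h6 : (i : ℝ) + 1 ≤ j := by exact_mod_cast h
      have h7 : ((i : ℝ) + 1) * (2 * Real.pi) ≤ j * (2 * Real.pi) := by gcongr
      linarith
    · have h6 : (j : ℝ) + 1 ≤ i := by exact_mod_cast h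
      have h7 : ((j : ℝ) + 1) * (2 * Real.pi) ≤ i * (2 * Real.pi) := by gcongr
      linarith
  · intro i _
    exact (Complex.measurable_re measurableSet_Icc).inter (Complex.measurable_im measurableSet_Icc)

/-- **Upper bound**: the values of a near-affine map in thin strips. -/
theorem near_up {c : ℂ} {r δ : ℝ} {Λ : ℂ} {G G' : ℂ → ℂ} (hr : 0 < r) (hΛ : Λ ≠ 0) (h0 : 0 ≤ δ)
    (hd : ∀ z ∈ ball c r, HasDerivAt G (G' z) z) (hn : ∀ z ∈ ball c r, ‖G' z - Λ‖ ≤ 1 / 2 * ‖Λ‖) :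
    volume (ball c r ∩ {x | |Real.cos (G x).im| < δ}) ≤
      ENNReal.ofReal (36 * δ * (r ^ 2 * (1 + 3 / (‖Λ‖ * r)))) := by
  classical
  set Φ : ℂ → ℂ := (ball c r).indicator G with hΦ
  have hcont : ContinuousOn G (ball c r) := fun z hz => (hd z hz).continuousAt.continuousWithinAt
  have hmeas : Measurable Φ := by
    have h3 := (hcont.measurable_piecewise (continuousOn_const (c := (0 : ℂ)) (s := (ball c r)ᶜ))
      measurableSet_ball)
    have : Φ = (ball c r).piecewise G (fun _ => 0) := by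
      ext z; rw [hΦ]; simp [indicator, piecewise]
    rw [this]; exact h3
  have hd' : ∀ z ∈ ball c r, HasDerivAt Φ (G' z) z := fun z hz =>
    (hd z hz).congr_of_eventuallyEq (by
      filter_upwards [isOpen_ball.mem_nhds hz] with x hx
      rw [hΦ, indicator_of_mem hx])
  have hT : MeasurableSet {w : ℂ | |Real.cos w.im| < δ} :=
    measurableSet_lt (Real.measurable_cos.comp Complex.measurable_im).abs measurable_const
  have key := K3h20.EJ.near_affine hr (by norm_num : (0 : ℝ) ≤ 1 / 2) (by norm_num) hΛ hd' hn hmeas hT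
  have hΛ0 : 0 < ‖Λ‖ := norm_pos_iff.2 hΛ
  have hset : ball c r ∩ Φ ⁻¹' {w : ℂ | |Real.cos w.im| < δ} = ball c r ∩ {x | |Real.cos (G x).im| < δ} := by
    ext x
    constructor
    · rintro ⟨h1, h2⟩
      refine ⟨h1, ?_⟩
      rw [mem_preimage, hΦ, indicator_of_mem h1] at h2
      exact h2
    · rintro ⟨h1, h2⟩
      refine ⟨h1, ?_⟩
      rw [mem_preimage, hΦ, indicator_of_mem h1]
      exact h2
  rw [hset] at key
  have h3 := key.trans (strips (p := Φ c) (R := (1 + 1 / 2) * ‖Λ‖ * r) (by positivity) h0)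
  have h4 : 0 < ((1 - 1 / 2) * ‖Λ‖) ^ 2 := by positivity
  have h5 : ENNReal.ofReal (4 * ((1 + 1 / 2) * ‖Λ‖ * r) * ((1 + 1 / 2) * ‖Λ‖ * r + 4) * δ) ≤
      ENNReal.ofReal (((1 - 1 / 2) * ‖Λ‖) ^ 2) * ENNReal.ofReal (36 * δ * (r ^ 2 * (1 + 3 / (‖Λ‖ * r)))) := by
    rw [← ENNReal.ofReal_mul h4.le]
    apply ENNReal.ofReal_le_ofReal
    have e1 : ((1 - 1 / 2) * ‖Λ‖) ^ 2 * (36 * δ * (r ^ 2 * (1 + 3 / (‖Λ‖ * r)))) =
        9 * δ * (‖Λ‖ * r) ^ 2 * (1 + 3 / (‖Λ‖ * r)) := by ring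
    have e2 : (‖Λ‖ * r) ^ 2 * (1 + 3 / (‖Λ‖ * r)) = (‖Λ‖ * r) ^ 2 + 3 * (‖Λ‖ * r) := by
      field_simp
    rw [e1, mul_assoc (9 * δ), e2]
    have e3 : 0 < ‖Λ‖ * r := by positivity
    nlinarith [mul_nonneg h0 e3.le, mul_nonneg h0 (sq_nonneg (‖Λ‖ * r))]
  have h6 := h3.trans h5
  exact (ENNReal.mul_le_mul_iff_right (ENNReal.ofReal_pos.2 h4).ne' ENNReal.ofReal_ne_top).1 h6

/-- **Lower bound**: the values of a near-affine map in a union of sectors. -/
theorem near_low {c : ℂ} {r θ η : ℝ} {Λ : ℂ} {H H' : ℂ → ℂ} (hr : 0 < r) (h0 : 0 < η) (h1 : η ≤ 1)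
    (hΛr : 1000 ≤ ‖Λ‖ * r)
    (hd : ∀ z ∈ ball c r, HasDerivAt H (H' z) z) (hn : ∀ z ∈ ball c r, ‖H' z - Λ‖ ≤ 1 / 2 * ‖Λ‖) :
    ENNReal.ofReal (η * r ^ 2 / 1500) ≤ volume (closedBall c (r / 2) ∩
      {x | ∃ (k : ℤ) (y : ℝ), |y| ≤ η ∧ (H x).im = θ + y + k * (2 * Real.pi)}) := by
  have hΛ0 : 0 < ‖Λ‖ := by
    by_contra h
    have : ‖Λ‖ * r ≤ 0 := mul_nonpos_of_nonpos_of_nonneg (not_lt.1 h) hr.le
    linarith
  have hsub : closedBall c (r / 2) ⊆ ball c r := closedBall_subset_ball (by linarith)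
  have hcb : c ∈ ball c r := mem_ball_self hr
  have hlip : ∀ x ∈ ball c r, ‖(H x - Λ * x) - (H c - Λ * c)‖ ≤ 1 / 2 * ‖Λ‖ * ‖x - c‖ := by
    intro x hx
    refine (convex_ball c r).norm_image_sub_le_of_norm_hasDerivWithin_le (f := fun z => H z - Λ * z)
      (f' := fun z => H' z - Λ) (fun z hz => ?_) (fun z hz => hn z hz) hcb hx
    have h5 : HasDerivAt (fun z => Λ * z) Λ z := by
      simpa using (hasDerivAt_id z).const_mul Λ
    exact ((hd z hz).sub h5).hasDerivWithinAt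
  have hlow : ∀ x ∈ ball c r, 1 / 2 * ‖Λ‖ * ‖x - c‖ ≤ ‖H x - H c‖ := by
    intro x hx
    have h2 := hlip x hx
    have h3 : ‖Λ * (x - c)‖ ≤ ‖H x - H c‖ + ‖(H x - Λ * x) - (H c - Λ * c)‖ := by
      have : Λ * (x - c) = (H x - H c) - ((H x - Λ * x) - (H c - Λ * c)) := by ring
      rw [this]; exact norm_sub_le _ _
    rw [norm_mul] at h3
    nlinarith
  have hdiff : DifferentiableOn ℂ H (ball c r) := fun z hz =>
    (hd z hz).differentiableAt.differentiableWithinAt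
  have hdc : DiffContOnCl ℂ H (ball c (r / 2)) := by
    refine DifferentiableOn.diffContOnCl ?_
    rw [closure_ball c (by positivity)]
    exact hdiff.mono hsub
  have himg := hdc.ball_subset_image_closedBall (half_pos hr) (ε := ‖Λ‖ * r / 4) (fun z hz => by
    have hz' : z ∈ ball c r := hsub (sphere_subset_closedBall hz)
    have h2 := hlow z hz'
    rw [mem_sphere, dist_eq_norm] at hz
    rw [hz] at h2
    linarith) (by
      apply Filter.Eventually.frequently (f := 𝓝[≠] c) _ |>.filter_mono nhdsWithin_le_nhds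
      filter_upwards [self_mem_nhdsWithin, mem_nhdsWithin_of_mem_nhds (isOpen_ball.mem_nhds hcb)] with x hx hx'
      intro heq
      have h2 := hlow x hx'
      rw [heq, sub_self, norm_zero] at h2
      have h3 : 0 < ‖x - c‖ := norm_pos_iff.2 (sub_ne_zero.2 hx)
      have : 0 < 1 / 2 * ‖Λ‖ * ‖x - c‖ := by positivity
      linarith)
  set E : Set ℂ := {w : ℂ | ∃ (k : ℤ) (y : ℝ), |y| ≤ η ∧ w.im = θ + y + k * (2 * Real.pi)} with hE
  have hEm : IsClosed E ∨ MeasurableSet E := by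
    right
    have : E = ⋃ k : ℤ, {w : ℂ | |w.im - θ - k * (2 * Real.pi)| ≤ η} := by
      ext w
      rw [mem_iUnion]
      constructor
      · rintro ⟨k, y, hy, hw⟩
        refine ⟨k, ?_⟩
        show |w.im - θ - k * (2 * Real.pi)| ≤ η
        rw [hw]
        have : θ + y + k * (2 * Real.pi) - θ - k * (2 * Real.pi) = y := by ring
        rw [this]; exact hy
      · rintro ⟨k, hk⟩
        exact ⟨k, w.im - θ - k * (2 * Real.pi), hk, by ring⟩
    rw [this]
    refine MeasurableSet.iUnion fun k => measurableSet_le ?_ measurable_const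
    exact ((Complex.measurable_im.sub_const θ).sub_const _).abs
  have hEm' : MeasurableSet E := by
    rcases hEm with h | h
    · exact h.measurableSet
    · exact h
  set Xs : Set ℂ := closedBall c (r / 2) ∩ {x | H x ∈ E} with hXs
  have hXm : MeasurableSet Xs := by
    classical
    have h3 : Measurable ((closedBall c (r / 2)).piecewise H (fun _ => 0)) :=
      ((hdiff.continuousOn.mono hsub).measurable_piecewise
        (continuousOn_const (c := (0 : ℂ)) (s := (closedBall c (r / 2))ᶜ)) measurableSet_closedBall)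
    have h4 : Xs = closedBall c (r / 2) ∩ (closedBall c (r / 2)).piecewise H (fun _ => 0) ⁻¹' E := by
      ext x
      constructor
      · rintro ⟨h5, h6⟩
        refine ⟨h5, ?_⟩
        rw [mem_preimage, piecewise_eq_of_mem _ _ _ h5]
        exact h6
      · rintro ⟨h5, h6⟩
        refine ⟨h5, ?_⟩
        rw [mem_preimage, piecewise_eq_of_mem _ _ _ h5] at h6
        exact h6
    rw [h4]
    exact measurableSet_closedBall.inter (h3 hEm')
  have h2 : ball (H c) (‖Λ‖ * r / 8) ∩ E ⊆ H '' Xs := by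
    rintro w ⟨hw, hwE⟩
    obtain ⟨x, hx, rfl⟩ := himg (show w ∈ ball (H c) (‖Λ‖ * r / 4 / 2) by
      rw [mem_ball] at hw ⊢; linarith)
    exact ⟨x, ⟨hx, hwE⟩, rfl⟩
  have h3 : volume (H '' Xs) ≤ ENNReal.ofReal ((3 / 2 * ‖Λ‖) ^ 2) * volume Xs := by
    refine (addHaar_image_le_lintegral_abs_det_fderiv volume hXm (f' := fun z =>
      (((1 : ℂ →L[ℂ] ℂ).smulRight (H' z)).restrictScalars ℝ : ℂ →L[ℝ] ℂ)) (fun z hz =>
        ((hd z (hsub hz.1)).hasFDerivAt.restrictScalars ℝ).hasFDerivWithinAt)).trans ?_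
    rw [← setLIntegral_const]
    refine setLIntegral_mono' hXm fun z hz => ENNReal.ofReal_le_ofReal ?_
    rw [K3h20.EJ.det_mul, abs_of_nonneg (by positivity)]
    have h4 := hn z (hsub hz.1)
    have h5 := norm_sub_norm_le (H' z) Λ
    have h6 : ‖H' z‖ ≤ 3 / 2 * ‖Λ‖ := by linarith
    gcongr
  have h4 := (sect_low (p := H c) (θ := θ) (R := ‖Λ‖ * r / 8) (by linarith) h0 h1).trans
    ((measure_mono h2).trans h3)
  have h5 : 0 < (3 / 2 * ‖Λ‖) ^ 2 := by positivity
  have h6 : ENNReal.ofReal ((3 / 2 * ‖Λ‖) ^ 2) * ENNReal.ofReal (η * r ^ 2 / 1500) ≤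
      ENNReal.ofReal (η * (‖Λ‖ * r / 8) ^ 2 / 10) := by
    rw [← ENNReal.ofReal_mul h5.le]
    apply ENNReal.ofReal_le_ofReal
    have h7 : 0 ≤ η * ‖Λ‖ ^ 2 * r ^ 2 := by positivity
    calc (3 / 2 * ‖Λ‖) ^ 2 * (η * r ^ 2 / 1500) = (η * ‖Λ‖ ^ 2 * r ^ 2) * (9 / 6000) := by ring
      _ ≤ (η * ‖Λ‖ ^ 2 * r ^ 2) * (1 / 640) := mul_le_mul_of_nonneg_left (by norm_num) h7
      _ = _ := by ring
  exact (ENNReal.mul_le_mul_iff_right (ENNReal.ofReal_pos.2 h5).ne' ENNReal.ofReal_ne_top).1 (h6.trans h4)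

end Pool.Agent.Helper34.EF
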