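import Pool.Agent.Helper34.EF.Rec
import Pool.Agent.Helper34.EF.Dist
import Pool.Graph.R_seed8.Helper242.RK.Log

/-!
# Cells in the parameter plane
-/

set_option autoImplicit false

open Filter Topology Metric Set MeasureTheory

namespace Pool.Agent.Helper34.EF

/-- derivative of the orbit of `b + s` with respect to the parameter `b` -/
noncomputable def dD (F : ℂ → ℂ) (b s : ℂ) : ℕ → ℂ
  | 0 => 1
  | t + 1 => deriv F (ob F b (b + s) t) * dD F b s t + 1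

variable {q N : ℕ} {α : ℂ} {F : ℂ → ℂ} {A S : Set ℂ} {K B X ρ : ℝ} {c : ℂ}

theorem hasDeriv_ob (hF : Differentiable ℂ F) (s b : ℂ) (t : ℕ) :
    HasDerivAt (fun b => ob F b (b + s) t) (dD F b s t) b := by
  induction t with
  | zero => exact (hasDerivAt_id b).add_const s
  | succ t ih =>
    have h1 := (hF (ob F b (b + s) t)).hasDerivAt.comp b ih
    exact h1.add (hasDerivAt_id b)

/-- `10000 / a ≤ X` etc. -/
theorem Cst.Xa (hC : Cst q N K ‖α‖ B X) : 10000 / ‖α‖ ≤ X ∧ 10000 * (q + 1) * 4 ^ q * (‖α‖ + 1) ≤ X := by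
  have ha := hC.a0
  have hc3 := hC.c3
  have e5 : (1 : ℝ) ≤ 4 ^ q := one_le_pow₀ (by norm_num)
  have e0 : (0 : ℝ) ≤ q := Nat.cast_nonneg q
  have e7 : 0 < 1 / ‖α‖ := by positivity
  constructor
  · refine le_trans ?_ hc3
    calc 10000 / ‖α‖ = 10000 * 1 * 1 * 1 * (1 / ‖α‖) := by ring
      _ ≤ 10000 * (q + 1) * 4 ^ q * (‖α‖ + 1) * (1 / ‖α‖ + 1) := by
        gcongr <;> linarith
  · refine le_trans ?_ hc3
    have : 0 ≤ 10000 * (q + 1) * 4 ^ q * (‖α‖ + 1) := by positivity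
    nlinarith

/-- bounds of the derivative along an orbit with margins -/
theorem dD_bounds (hC : Cst q N K ‖α‖ B X) (hS : Sys q α F A S K) (hρ : X ≤ ρ)
    (hc : Adm q N α K ρ c) {κ : ℝ} (hκ : 1 / 16 ≤ κ) {b s : ℂ} (hb : ‖b - c‖ ≤ B)
    (hs : s ∈ S) {t : ℕ}
    (hm : ∀ r < t, Mg q α ρ κ (lv q α F b (b + s) r) (ob F b (b + s) r)) :
    1 / 2 ≤ ‖dD F b s t‖ ∧ ‖dD F b s t‖ ≤ tw q ρ (lv q α F b (b + s) t) ^ 2 ∧
      (lv q α F b (b + s) t ≠ 0 → ‖α‖ / 16 * ‖ob F b (b + s) t‖ ≤ ‖dD F b s t‖) := by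
  have hX := hC.X1 hS
  have hN := hC.N1
  have hq := hS.q1
  have ha := hC.a0
  induction t with
  | zero =>
    have e : dD F b s 0 = 1 := rfl
    rw [e, norm_one]
    refine ⟨by norm_num, ?_, fun h => absurd rfl h⟩
    have := (tw_ge hC hS hρ (lv q α F b (b + s) 0)).1
    nlinarith
  | succ t ih =>
    obtain ⟨ih1, ih2, ih3⟩ := ih (fun r hr => hm r (by omega))
    have hbρ := norm_b_le hC hS hρ hc hb
    have hz := s_mem hS hs hb
    have hpos := pos_ob hC hS hρ hc hκ hb hz (t := t) (fun r hr => hm r (by omega))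
    have hst := st_of_pos hC hS hρ hκ hpos (hm t (by omega))
    obtain ⟨hj1, hj2⟩ := tw_ge hC hS hρ (lv q α F b (b + s) t)
    set y := tw q ρ (lv q α F b (b + s) t) with hy
    set Z := ob F b (b + s) t with hZ
    have hy1 : 1000 ≤ y := by linarith
    have e : dD F b s (t + 1) = deriv F Z * dD F b s t + 1 := rfl
    obtain ⟨f1, f2, f3, f4, f5, f6⟩ := st_facts hC hS hρ hc hst
    by_cases h0 : uu q α Z < 0
    · rw [lv_succ_neg h0]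
      obtain ⟨-, h4⟩ := stS hC hS hρ hc hst h0
      have h5 : ‖deriv F Z * dD F b s t‖ ≤ 1 / 2 := by
        rw [norm_mul]
        calc ‖deriv F Z‖ * ‖dD F b s t‖ ≤ 1 / (4 * y ^ N) * y ^ 2 := by gcongr
          _ ≤ 1 / (4 * y ^ 2) * y ^ 2 := by
            have : y ^ 2 ≤ y ^ N := pow_le_pow_right₀ (by linarith) (by omega)
            gcongr
          _ = 1 / 4 := by field_simp
          _ ≤ 1 / 2 := by norm_num
      rw [e]
      have h6 := norm_add_le (deriv F Z * dD F b s t) 1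
      have h7 := norm_sub_norm_le (1 : ℂ) (-(deriv F Z * dD F b s t))
      rw [norm_neg, sub_neg_eq_add, add_comm (1 : ℂ), norm_one] at h7
      rw [norm_one] at h6
      refine ⟨by linarith, ?_, fun h => absurd rfl h⟩
      show _ ≤ ρ ^ 2
      nlinarith
    · rw [lv_succ_pos h0]
      obtain ⟨g1, g2, g3, g4, g5⟩ := stL hC hS hρ hc hst (not_lt.1 h0) hbρ
      obtain ⟨g6, g7⟩ := far_deriv hS f1 g1
      have hob : ob F b (b + s) (t + 1) = F Z + b := rfl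
      obtain ⟨g8, g9⟩ := g3
      change y ^ N ≤ ‖F Z + b‖ at g8
      obtain ⟨Y, hY⟩ : ∃ Y, Y = tw q ρ (lv q α F b (b + s) t + 1) := ⟨_, rfl⟩
      rw [← hY] at g9 hj2 ⊢
      obtain ⟨hXa1, hXa2⟩ := hC.Xa
      have hzq : 1 ≤ ‖Z‖ ^ (q - 1) := one_le_pow₀ f6
      have hq1 : (1 : ℝ) ≤ q := by exact_mod_cast hq
      rw [hob, e]
      have h6 := norm_add_le (deriv F Z * dD F b s t) 1
      have h7 := norm_sub_norm_le (deriv F Z * dD F b s t) (-1)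
      rw [norm_neg, sub_neg_eq_add, norm_one, norm_mul] at h7
      rw [norm_one, norm_mul] at h6
      have hlow : ‖α‖ / 16 * ‖F Z + b‖ ≤ ‖deriv F Z * dD F b s t + 1‖ := by
        have h8 : ‖α‖ / 8 * ‖F Z + b‖ ≤ ‖deriv F Z‖ * ‖dD F b s t‖ := by
          calc ‖α‖ / 8 * ‖F Z + b‖ ≤ ‖α‖ / 8 * (2 * ‖F Z‖) := by gcongr
            _ = (1 / 2 * (1 * ‖α‖ * 1) * ‖F Z‖) * (1 / 2) := by ring
            _ ≤ (1 / 2 * (q * ‖α‖ * ‖Z‖ ^ (q - 1)) * ‖F Z‖) * ‖dD F b s t‖ := by gcongr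
            _ ≤ _ := by gcongr
        have h9 : 1 ≤ ‖α‖ / 16 * ‖F Z + b‖ := by
          have h10 : 10000 / ‖α‖ ≤ ‖F Z + b‖ := by
            refine hXa1.trans ?_
            have : y ≤ y ^ N := le_self_pow₀ (by linarith) (by omega)
            linarith
          rw [div_le_iff₀ ha] at h10
          linarith
        linarith
      refine ⟨?_, ?_, fun _ => hlow⟩
      · have h10 : 10000 / ‖α‖ ≤ ‖F Z + b‖ := by
          refine hXa1.trans ?_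
          have : y ≤ y ^ N := le_self_pow₀ (by linarith) (by omega)
          linarith
        rw [div_le_iff₀ ha] at h10
        linarith
      · refine h6.trans ?_
        have h8 : ‖deriv F Z‖ * ‖dD F b s t‖ ≤ y ^ (q + 2) / 2 * Y := by
          have h9 : 8 * (q * ‖α‖ * 2 ^ q) ≤ y := by
            refine le_trans ?_ (hXa2.trans (by linarith))
            have e1 : (2 : ℝ) ^ q ≤ 4 ^ q := by gcongr; norm_num
            have e2 : q * ‖α‖ * 2 ^ q ≤ (q + 1) * (‖α‖ + 1) * 4 ^ q := by gcongr <;> linarith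
            have e3 : 0 ≤ ((q : ℝ) + 1) * (‖α‖ + 1) * 4 ^ q := by positivity
            linarith
          calc ‖deriv F Z‖ * ‖dD F b s t‖ ≤ (2 * (q * ‖α‖ * ‖Z‖ ^ (q - 1)) * ‖F Z‖) * y ^ 2 := by gcongr
            _ ≤ (2 * (q * ‖α‖ * (2 * y) ^ (q - 1)) * (2 * Y)) * y ^ 2 := by
              have : ‖F Z‖ ≤ 2 * Y := g4.trans (by linarith)
              gcongr
            _ = 2 * (q * ‖α‖ * (2 * 2 ^ (q - 1))) * (y ^ (q - 1) * y ^ 2) * Y := by rw [mul_pow]; ring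
            _ = 2 * (q * ‖α‖ * 2 ^ q) * y ^ (q + 1) * Y := by
              rw [← pow_succ', ← pow_add, show q - 1 + 1 = q by omega, show q - 1 + 2 = q + 1 by omega]
            _ ≤ 2 * (y / 8) * y ^ (q + 1) * Y := by gcongr <;> linarith
            _ ≤ y ^ (q + 2) / 2 * Y := by
              have h10 : 2 * (y / 8) * y ^ (q + 1) = y ^ (q + 2) / 4 := by ring
              rw [h10]
              have h11 : 0 < y ^ (q + 2) := by positivity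
              gcongr <;> linarith
        have h9 : y ^ (q + 2) ≤ Y := by
          rw [hY]
          exact tw_pow hC hS (hρ.trans hj1) (by omega)
        have h10 : 1 ≤ Y := by linarith
        nlinarith

/-- near-affinity of `log (F (Y b) + b)` -/
theorem na0 (hS : Sys q α F A S K) {δ : ℝ} {b c' Yb Yc Yb' Yc' : ℂ}
    (hδ : δ * (q * 2 ^ q) ≤ 1 / 1000) (hδ1 : δ ≤ 1 / 1000) (h1 : K ≤ ‖Yb‖) (h2 : K ≤ ‖F Yb‖)
    (h3 : ‖Yb - Yc‖ ≤ δ * ‖Yc‖) (h4 : ‖Yb' - Yc'‖ ≤ δ * ‖Yc'‖) (h5 : 1000 * ‖b‖ ≤ ‖F Yb‖)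
    (h6 : 1000 ≤ ‖(q : ℂ) * α * Yc ^ (q - 1) * Yc'‖ * ‖F Yb‖) (hc' : c' = (q : ℂ) * α * Yc ^ (q - 1) * Yc')
    (h7 : 0 < ‖F Yb‖) :
    F Yb + b ≠ 0 ∧ ‖(deriv F Yb * Yb' + 1) / (F Yb + b) - c'‖ ≤ 1 / 50 * ‖c'‖ := by
  have hq := hS.q1
  have hδ0 : 0 ≤ δ ∨ δ < 0 := le_or_gt 0 δ
  rw [← hc'] at h6
  have hFb : ‖F Yb‖ ≤ 2 * ‖F Yb + b‖ := by
    have h8 := norm_sub_norm_le (F Yb) (-b)
    rw [norm_neg, sub_neg_eq_add] at h8
    linarith
  have hne : F Yb + b ≠ 0 := by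
    intro h
    rw [h, norm_zero] at hFb
    linarith
  refine ⟨hne, ?_⟩
  have hpos : 0 < ‖F Yb + b‖ := norm_pos_iff.2 hne
  have hYc : 0 ≤ δ * ‖Yc‖ := (norm_nonneg _).trans h3
  have hYbn : ‖Yb‖ ≤ 2 * ‖Yc‖ := by
    have h8 := norm_sub_norm_le Yb Yc
    have : δ * ‖Yc‖ ≤ 1 / 1000 * ‖Yc‖ := by gcongr
    have := norm_nonneg Yc
    linarith
  have hYbn' : ‖Yb'‖ ≤ 1001 / 1000 * ‖Yc'‖ := by
    have h8 := norm_sub_norm_le Yb' Yc'
    have : δ * ‖Yc'‖ ≤ 1 / 1000 * ‖Yc'‖ := by gcongr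
    linarith
  have hpow : ‖Yb ^ (q - 1) - Yc ^ (q - 1)‖ ≤ 1 / 1000 * ‖Yc‖ ^ (q - 1) := by
    rcases Nat.lt_or_ge q 2 with h | h
    · have : q - 1 = 0 := by omega
      rw [this]
      simp
    · have h8 := pow_sub_le (q - 1) (z := Yc) (w := Yb) (R := 2 * ‖Yc‖) (by linarith [norm_nonneg Yc]) hYbn
      refine h8.trans ?_
      have h9 : ((q - 1 : ℕ) : ℝ) ≤ q := by exact_mod_cast Nat.sub_le q 1
      calc ((q - 1 : ℕ) : ℝ) * (2 * ‖Yc‖) ^ (q - 1 - 1) * ‖Yb - Yc‖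
          ≤ q * (2 * ‖Yc‖) ^ (q - 1 - 1) * (δ * ‖Yc‖) := by gcongr
        _ = q * 2 ^ (q - 1 - 1) * δ * (‖Yc‖ ^ (q - 1 - 1) * ‖Yc‖) := by rw [mul_pow]; ring
        _ = (q * 2 ^ (q - 1 - 1)) * δ * ‖Yc‖ ^ (q - 1) := by
          rw [← pow_succ, show q - 1 - 1 + 1 = q - 1 by omega]
        _ ≤ 1 / 1000 * ‖Yc‖ ^ (q - 1) := by
          rcases hδ0 with h0 | h0
          · have h10 : (2 : ℝ) ^ (q - 1 - 1) ≤ 2 ^ q := pow_le_pow_right₀ (by norm_num) (by omega)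
            have h11 : (q * 2 ^ (q - 1 - 1)) * δ ≤ 1 / 1000 := by
              calc (q * 2 ^ (q - 1 - 1)) * δ ≤ (q * 2 ^ q) * δ := by gcongr
                _ ≤ 1 / 1000 := by linarith
            gcongr
          · have h11 : (q * 2 ^ (q - 1 - 1)) * δ ≤ 0 :=
              mul_nonpos_of_nonneg_of_nonpos (by positivity) h0.le
            have h12 : 0 ≤ ‖Yc‖ ^ (q - 1) := by positivity
            nlinarith
  have hqa : 0 ≤ (q : ℝ) * ‖α‖ := by positivity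
  have hcn : ‖c'‖ = q * ‖α‖ * ‖Yc‖ ^ (q - 1) * ‖Yc'‖ := by
    rw [hc', norm_mul, norm_mul, norm_mul, norm_pow, Complex.norm_natCast]
  -- the difference of the leading coefficients
  have hlead : ‖(q : ℂ) * α * Yb ^ (q - 1) * Yb' - c'‖ ≤ 3 / 1000 * ‖c'‖ := by
    have e1 : (q : ℂ) * α * Yb ^ (q - 1) * Yb' - c' =
        (q : ℂ) * α * ((Yb ^ (q - 1) - Yc ^ (q - 1)) * Yb' + Yc ^ (q - 1) * (Yb' - Yc')) := by
      rw [hc']; ring
    rw [e1, norm_mul, norm_mul, Complex.norm_natCast]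
    have h8 : ‖(Yb ^ (q - 1) - Yc ^ (q - 1)) * Yb' + Yc ^ (q - 1) * (Yb' - Yc')‖ ≤
        3 / 1000 * (‖Yc‖ ^ (q - 1) * ‖Yc'‖) := by
      refine (norm_add_le _ _).trans ?_
      rw [norm_mul, norm_mul, norm_pow]
      have h9 : ‖Yb ^ (q - 1) - Yc ^ (q - 1)‖ * ‖Yb'‖ ≤
          (1 / 1000 * ‖Yc‖ ^ (q - 1)) * (1001 / 1000 * ‖Yc'‖) := by gcongr
      have h10 : ‖Yc‖ ^ (q - 1) * ‖Yb' - Yc'‖ ≤ ‖Yc‖ ^ (q - 1) * (1 / 1000 * ‖Yc'‖) := by
        have : δ * ‖Yc'‖ ≤ 1 / 1000 * ‖Yc'‖ := by gcongr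
        gcongr
        linarith
      have h11 : 0 ≤ ‖Yc‖ ^ (q - 1) * ‖Yc'‖ := by positivity
      nlinarith
    calc q * ‖α‖ * ‖(Yb ^ (q - 1) - Yc ^ (q - 1)) * Yb' + Yc ^ (q - 1) * (Yb' - Yc')‖
        ≤ q * ‖α‖ * (3 / 1000 * (‖Yc‖ ^ (q - 1) * ‖Yc'‖)) := by gcongr
      _ = 3 / 1000 * ‖c'‖ := by rw [hcn]; ring
  have hlead2 : ‖(q : ℂ) * α * Yb ^ (q - 1) * Yb'‖ ≤ 1003 / 1000 * ‖c'‖ := by
    have h8 := norm_sub_norm_le ((q : ℂ) * α * Yb ^ (q - 1) * Yb') c'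
    linarith
  have hfar := hS.far Yb h1 h2
  -- total
  have e2 : (deriv F Yb * Yb' + 1) - c' * (F Yb + b) =
      (deriv F Yb - q * α * Yb ^ (q - 1) * F Yb) * Yb' +
        ((q : ℂ) * α * Yb ^ (q - 1) * Yb' - c') * F Yb + (1 - c' * b) := by ring
  have hc0 : 0 ≤ ‖c'‖ * ‖F Yb‖ := by positivity
  have htot : ‖(deriv F Yb * Yb' + 1) - c' * (F Yb + b)‖ ≤ 1 / 100 * (‖c'‖ * ‖F Yb‖) := by
    rw [e2]
    refine (norm_add₃_le).trans ?_
    have t1 : ‖(deriv F Yb - q * α * Yb ^ (q - 1) * F Yb) * Yb'‖ ≤ 1003 / 1000000 * (‖c'‖ * ‖F Yb‖) := by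
      rw [norm_mul]
      calc ‖deriv F Yb - q * α * Yb ^ (q - 1) * F Yb‖ * ‖Yb'‖
          ≤ (1 / 1000 * ‖(q : ℂ) * α * Yb ^ (q - 1) * F Yb‖) * ‖Yb'‖ := by gcongr
        _ = 1 / 1000 * ‖(q : ℂ) * α * Yb ^ (q - 1) * Yb'‖ * ‖F Yb‖ := by
          simp only [norm_mul]; ring
        _ ≤ 1 / 1000 * (1003 / 1000 * ‖c'‖) * ‖F Yb‖ := by gcongr
        _ = _ := by ring
    have t2 : ‖((q : ℂ) * α * Yb ^ (q - 1) * Yb' - c') * F Yb‖ ≤ 3 / 1000 * (‖c'‖ * ‖F Yb‖) := by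
      rw [norm_mul]
      calc _ ≤ (3 / 1000 * ‖c'‖) * ‖F Yb‖ := by gcongr
        _ = _ := by ring
    have t3 : ‖1 - c' * b‖ ≤ 2 / 1000 * (‖c'‖ * ‖F Yb‖) := by
      refine (norm_sub_le _ _).trans ?_
      rw [norm_one, norm_mul]
      have : ‖c'‖ * ‖b‖ ≤ ‖c'‖ * (‖F Yb‖ / 1000) := by gcongr; linarith
      linarith
    linarith
  have e3 : (deriv F Yb * Yb' + 1) / (F Yb + b) - c' =
      ((deriv F Yb * Yb' + 1) - c' * (F Yb + b)) / (F Yb + b) := by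
    field_simp
  rw [e3, norm_div, div_le_iff₀ hpos]
  calc _ ≤ 1 / 100 * (‖c'‖ * ‖F Yb‖) := htot
    _ ≤ 1 / 100 * (‖c'‖ * (2 * ‖F Yb + b‖)) := by gcongr
    _ = _ := by ring

end Pool.Agent.Helper34.EF
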