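import Pool.Agent.Helper34.EF.Cell

/-!
# Cells in the parameter plane, part 2
-/

set_option autoImplicit false

open Filter Topology Metric Set MeasureTheory

namespace Pool.Agent.Helper34.EF

/-- cell radius -/
noncomputable def cr (q : ℕ) (ρ B : ℝ) : ℕ → ℝ
  | 0 => B
  | m + 1 => 1 / tw q ρ m ^ (2 * q + 10)

variable {q N : ℕ} {α : ℂ} {F : ℂ → ℂ} {A S : Set ℂ} {K B X ρ : ℝ} {c : ℂ}

theorem freeze (hC : Cst q N K ‖α‖ B X) (hS : Sys q α F A S K) (hρ : X ≤ ρ)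
    (hc : Adm q N α K ρ c) {η : ℝ} (hη : 0 < η) {m : ℕ}
    (hηm : η * tw q ρ m ^ (q + 5) ≤ 1) (hηB : η ≤ B) {b : ℂ} (hb : ‖b - c‖ ≤ η) {s : ℂ} (hs : s ∈ S)
    {T : ℕ} (hlev : ∀ t ≤ T, lv q α F c (c + s) t ≤ m + 1)
    (hmg : ∀ t < T, Mg q α ρ (1 / 2) (lv q α F c (c + s) t) (ob F c (c + s) t)) :
    ∀ t ≤ T, (∀ r ≤ t, lv q α F c (c + s) r = lv q α F b (b + s) r) ∧
      Cl q ρ η (lv q α F c (c + s) t) (ob F c (c + s) t) (ob F b (b + s) t) ∧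
      (∀ r < t, Mg q α ρ (1 / 4) (lv q α F b (b + s) r) (ob F b (b + s) r)) := by
  have hcc : ‖c - c‖ ≤ B := by rw [sub_self, norm_zero]; linarith [hC.B0]
  have hbB : ‖b - c‖ ≤ B := hb.trans hηB
  have h := compare hC hS hρ hc (κ := 1 / 2) (by norm_num) hη hηm hcc hbB hb (s_mem hS hs hcc)
    (s_mem hS hs hbB) (by
      rw [show b + s - (c + s) = b - c by ring]; linarith) T (fun t ht _ => hlev t ht)
    (fun t ht _ => hmg t ht)
  intro t ht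
  obtain ⟨h1, h2, h3⟩ := h t ht
  refine ⟨h1, h2, fun r hr => ?_⟩
  have := h3 r hr
  rwa [show (1 : ℝ) / 2 / 2 = 1 / 4 by norm_num] at this

theorem cell_zero (hC : Cst q N K ‖α‖ B X) (hS : Sys q α F A S K) (hρ : X ≤ ρ)
    (hc : Adm q N α K ρ c) {s : ℂ} (hs : s ∈ S) :
    ∃ Λ : ℂ, 1000 ≤ ‖Λ‖ * B ∧ ∀ b ∈ ball c B,
      0 ≤ uu q α (b + s) ∧ F (b + s) + b ≠ 0 ∧
      ‖(deriv F (b + s) * 1 + 1) / (F (b + s) + b) - Λ‖ ≤ 1 / 50 * ‖Λ‖ := by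
  have hX := hC.X1 hS
  have hN := hC.N1
  have hq := hS.q1
  have ha := hC.a0
  have hB := hC.B0
  have hB2 := hC.B2
  obtain ⟨hXa1, hXa2⟩ := hC.Xa
  have hc7 := hC.c7
  have hcc : ‖c - c‖ ≤ B := by rw [sub_self, norm_zero]; linarith
  have hcs := s_mem hS (c := c) hs hcc
  obtain ⟨f1, f2, f3, f4, f5, f6⟩ := step0 hC hS hρ hc hcs
  have hq1 : (1 : ℝ) ≤ q := by exact_mod_cast hq
  have hρ0 : 0 < ρ := by linarith
  have hcs1 : 1 ≤ ‖c + s‖ := by linarith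
  have hΛ : ‖α‖ ≤ ‖(q : ℂ) * α * (c + s) ^ (q - 1) * 1‖ := by
    rw [mul_one, norm_mul, norm_mul, norm_pow, Complex.norm_natCast]
    have : 1 ≤ ‖c + s‖ ^ (q - 1) := one_le_pow₀ hcs1
    calc ‖α‖ = 1 * ‖α‖ * 1 := by ring
      _ ≤ q * ‖α‖ * ‖c + s‖ ^ (q - 1) := by gcongr
  refine ⟨(q : ℂ) * α * (c + s) ^ (q - 1) * 1, ?_, fun b hb => ?_⟩
  · rw [div_le_iff₀ ha] at hB2
    calc 1000 ≤ B * ‖α‖ := hB2
      _ ≤ _ := by rw [mul_comm]; gcongr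
  · rw [mem_ball, dist_eq_norm] at hb
    have hbs := s_mem hS (c := c) hs hb.le
    obtain ⟨g1, g2, g3, g4, g5, g6⟩ := step0 hC hS hρ hc hbs
    have hbρ := norm_b_le hC hS hρ hc hb.le
    have hst : St q N α K B ρ c 0 (b + s) := hbs
    obtain ⟨k1, k2, k3, k4, k5⟩ := stL hC hS hρ hc hst g4.le hbρ
    change 4 * ρ ^ N ≤ ‖F (b + s)‖ at k2
    have hρN : ρ * 1000 ≤ ρ ^ N := by
      have h1 : ρ ^ 2 ≤ ρ ^ N := pow_le_pow_right₀ (by linarith) (by omega)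
      nlinarith
    have h4q : (1 : ℝ) ≤ 4 ^ q := one_le_pow₀ (by norm_num)
    have hδ : 8 * B / ρ * (q * 2 ^ q) ≤ 1 / 1000 := by
      rw [div_mul_eq_mul_div, div_le_iff₀ hρ0]
      have e1 : (2 : ℝ) ^ q ≤ 4 ^ q := by gcongr; norm_num
      have e2 : 8 * B * (q * 2 ^ q) ≤ 8 * B * ((q + 1) * 4 ^ q) := by gcongr; linarith
      have e3 : 0 ≤ B * (((q : ℝ) + 1) * 4 ^ q) := by positivity
      linarith
    have hδ1 : 8 * B / ρ ≤ 1 / 1000 := by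
      rw [div_le_iff₀ hρ0]
      have e2 : B * 1 ≤ B * ((q + 1) * 4 ^ q) := by gcongr; nlinarith
      linarith
    obtain ⟨r1, r2⟩ := na0 hS (δ := 8 * B / ρ) (b := b) (Yb := b + s) (Yc := c + s) (Yb' := 1) (Yc' := 1)
      hδ hδ1 g1 k1 (by
        rw [show b + s - (c + s) = b - c by ring, div_mul_eq_mul_div, le_div_iff₀ hρ0]
        nlinarith) (by rw [sub_self, norm_zero]; positivity) (by linarith) (by
        have h1 : 10000 / ‖α‖ ≤ ‖F (b + s)‖ := by linarith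
        rw [div_le_iff₀ ha] at h1
        calc (1000 : ℝ) ≤ ‖α‖ * ‖F (b + s)‖ := by linarith
          _ ≤ _ := by gcongr) rfl (by linarith)
    exact ⟨g4.le, r1, r2⟩

theorem cell_succ (hC : Cst q N K ‖α‖ B X) (hS : Sys q α F A S K) (hρ : X ≤ ρ)
    (hc : Adm q N α K ρ c) {s : ℂ} (hs : s ∈ S) {m T : ℕ}
    (hlev : ∀ r ≤ T, lv q α F c (c + s) r ≤ m + 1) (hT : lv q α F c (c + s) (T + 1) = m + 2)
    (hmg : ∀ r ≤ T, Mg q α ρ (1 / 2) (lv q α F c (c + s) r) (ob F c (c + s) r)) :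
    ∃ Λ : ℂ, 1000 ≤ ‖Λ‖ * (1 / tw q ρ m ^ (2 * q + 10)) ∧ ∀ b ∈ ball c (1 / tw q ρ m ^ (2 * q + 10)),
      (∀ r ≤ T + 1, lv q α F c (c + s) r = lv q α F b (b + s) r) ∧
      (∀ r ≤ T, Mg q α ρ (1 / 4) (lv q α F b (b + s) r) (ob F b (b + s) r)) ∧
      ob F b (b + s) (T + 1) ≠ 0 ∧
      ‖dD F b s (T + 1) / ob F b (b + s) (T + 1) - Λ‖ ≤ 1 / 50 * ‖Λ‖ := by
  have hX := hC.X1 hS
  have hN := hC.N1
  have hq := hS.q1
  have ha := hC.a0
  have hB := hC.B0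
  obtain ⟨hXa1, hXa2⟩ := hC.Xa
  have hcc : ‖c - c‖ ≤ B := by rw [sub_self, norm_zero]; linarith
  have hcs := s_mem hS (c := c) hs hcc
  have hq1 : (1 : ℝ) ≤ q := by exact_mod_cast hq
  obtain ⟨hj1, hj2⟩ := tw_ge hC hS hρ m
  set x := tw q ρ m with hx
  have hx1 : 1000 ≤ x := by linarith
  have hx0 : 0 < x := by linarith
  -- level at T
  have hcase := lv_cases q α F c (c + s) T
  have hu0 : ¬ uu q α (ob F c (c + s) T) < 0 := by
    rcases hcase with h | h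
    · rw [h.2] at hT; omega
    · exact h.1
  have hlT : lv q α F c (c + s) T = m + 1 := by
    rw [lv_succ_pos hu0] at hT; omega
  set Y : ℂ → ℂ := fun b => ob F b (b + s) T with hY
  have hYd : ∀ b, HasDerivAt Y (dD F b s T) b := fun b => hasDeriv_ob hS.diff s b T
  have hYdiff : Differentiable ℂ Y := fun b => (hYd b).differentiableAt
  have hderiv : deriv Y = fun b => dD F b s T := by ext b; exact (hYd b).deriv
  obtain ⟨η, hη⟩ : ∃ η : ℝ, η = 1 / x ^ (q + 5) := ⟨_, rfl⟩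
  have hη0 : 0 < η := by rw [hη]; positivity
  have hη2 : 1 / x ^ (2 * q + 10) = η ^ 2 := by
    rw [hη, div_pow, one_pow, ← pow_mul]; congr 2; ring
  have hη1 : η ≤ 1 / 1000 := by
    rw [hη, div_le_div_iff₀ (by positivity) (by norm_num)]
    have : x ≤ x ^ (q + 5) := le_self_pow₀ (by linarith) (by omega)
    linarith
  have hηm : η * x ^ (q + 5) ≤ 1 := by
    rw [hη, one_div_mul_cancel (by positivity)]
  rw [hη2]
  have hfr : ∀ b : ℂ, ‖b - c‖ ≤ η → _ := fun b hb =>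
    freeze hC hS hρ hc hη0 (m := m) hηm (by linarith) hb hs hlev (fun t ht => hmg t ht.le) T (le_refl T)
  have hYc : Y c = ob F c (c + s) T := rfl
  have hclose : ∀ b : ℂ, ‖b - c‖ ≤ η → ‖Y b - Y c‖ ≤ ‖Y c‖ / x ^ 3 := by
    intro b hb
    obtain ⟨-, h2, -⟩ := hfr b hb
    rw [hlT] at h2
    have h3 : ‖Y b - Y c‖ ≤ η * x ^ (q + 2) * ‖Y c‖ := h2
    refine h3.trans (le_of_eq ?_)
    rw [hη, show x ^ (q + 5) = x ^ (q + 2) * x ^ 3 by ring]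
    field_simp
  -- positions at c
  have hposc := pos_ob hC hS hρ hc (by norm_num : (1 : ℝ) / 16 ≤ 1 / 2) hcc hcs (t := T)
    (fun r hr => hmg r hr.le)
  rw [hlT] at hposc
  obtain ⟨hYl, hYu⟩ := hposc
  change x ^ N ≤ ‖Y c‖ at hYl
  have hYc1 : 1 ≤ ‖Y c‖ := (one_le_pow₀ (by linarith)).trans hYl
  obtain ⟨d1, d2, d3⟩ := dD_bounds hC hS hρ hc (by norm_num : (1 : ℝ) / 16 ≤ 1 / 2) hcc hs (t := T)
    (fun r hr => hmg r hr.le)
  have d3' : ‖α‖ / 16 * ‖Y c‖ ≤ ‖dD F c s T‖ := d3 (by rw [hlT]; omega)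
  -- derivative bounds
  have hYd1 : ∀ z ∈ closedBall c (η / 2), ‖deriv Y z‖ ≤ (‖Y c‖ / x ^ 3) / (η / 2) := by
    intro z hz
    have e : deriv Y z = deriv (fun y => Y y - Y c) z := by rw [deriv_sub_const]
    rw [e]
    refine Complex.norm_deriv_le_of_forall_mem_sphere_norm_le (by positivity)
      (hYdiff.sub_const _).diffContOnCl fun y hy => hclose y ?_
    rw [mem_closedBall, dist_eq_norm] at hz
    rw [mem_sphere, dist_eq_norm] at hy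
    calc ‖y - c‖ = ‖(y - z) + (z - c)‖ := by ring_nf
      _ ≤ ‖y - z‖ + ‖z - c‖ := norm_add_le _ _
      _ ≤ η := by linarith
  have hYdd : Differentiable ℂ (deriv Y) := by
    have h1 : DifferentiableOn ℂ (deriv Y) univ := hYdiff.differentiableOn.deriv isOpen_univ
    exact differentiableOn_univ.1 h1
  have hYd2 : ∀ z ∈ closedBall c (η / 4), ‖deriv (deriv Y) z‖ ≤ ((‖Y c‖ / x ^ 3) / (η / 2)) / (η / 4) := by
    intro z hz
    refine Complex.norm_deriv_le_of_forall_mem_sphere_norm_le (by positivity)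
      hYdd.diffContOnCl fun y hy => hYd1 y ?_
    rw [mem_closedBall, dist_eq_norm] at hz ⊢
    rw [mem_sphere, dist_eq_norm] at hy
    calc ‖y - c‖ = ‖(y - z) + (z - c)‖ := by ring_nf
      _ ≤ ‖y - z‖ + ‖z - c‖ := norm_add_le _ _
      _ ≤ η / 2 := by linarith
  have hη4 : η ^ 2 ≤ η / 4 := by nlinarith
  have hYd3 : ∀ b : ℂ, ‖b - c‖ ≤ η ^ 2 → ‖dD F b s T - dD F c s T‖ ≤ 8 * (‖Y c‖ / x ^ 3) := by
    intro b hb
    have h1 := (convex_closedBall c (η / 4)).norm_image_sub_le_of_norm_deriv_le (𝕜 := ℂ)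
      (f := deriv Y) (C := ((‖Y c‖ / x ^ 3) / (η / 2)) / (η / 4)) (fun y _ => hYdd y)
      (fun y hy => hYd2 y hy) (mem_closedBall_self (by positivity))
      (by rw [mem_closedBall, dist_eq_norm]; linarith : b ∈ closedBall c (η / 4))
    rw [hderiv] at h1
    refine h1.trans ?_
    calc ((‖Y c‖ / x ^ 3) / (η / 2)) / (η / 4) * ‖b - c‖ ≤
          ((‖Y c‖ / x ^ 3) / (η / 2)) / (η / 4) * η ^ 2 := by gcongr
      _ = _ := by field_simp; norm_num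
  -- relative closeness constant
  have hxa : 128 / ‖α‖ ≤ x := by
    have : 128 / ‖α‖ ≤ 10000 / ‖α‖ := by gcongr; norm_num
    linarith
  have hxa2 : 1000 * (q * 2 ^ q) ≤ x := by
    refine le_trans ?_ (hXa2.trans (by linarith))
    have e1 : (2 : ℝ) ^ q ≤ 4 ^ q := by gcongr; norm_num
    have e2 : q * (2 : ℝ) ^ q ≤ (q + 1) * 4 ^ q := by gcongr; linarith
    have e3 : 0 ≤ ((q : ℝ) + 1) * 4 ^ q := by positivity
    calc (1000 : ℝ) * (q * 2 ^ q) ≤ 10000 * ((q + 1) * 4 ^ q) * 1 := by linarith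
      _ ≤ 10000 * ((q + 1) * 4 ^ q) * (‖α‖ + 1) := by gcongr; linarith
      _ = _ := by ring
  have hx2 : 0 < x ^ 2 := by positivity
  have hrelY : ‖Y c‖ / x ^ 3 ≤ 1 / x ^ 2 * ‖Y c‖ := by
    rw [div_mul_eq_mul_div, one_mul]
    gcongr
    · linarith
    · norm_num
  have hrelY' : 8 * (‖Y c‖ / x ^ 3) ≤ 1 / x ^ 2 * ‖dD F c s T‖ := by
    have h1 : ‖Y c‖ ≤ 16 / ‖α‖ * ‖dD F c s T‖ := by
      rw [div_mul_eq_mul_div, le_div_iff₀ ha]
      linarith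
    calc 8 * (‖Y c‖ / x ^ 3) ≤ 8 * ((16 / ‖α‖ * ‖dD F c s T‖) / x ^ 3) := by gcongr
      _ = (128 / ‖α‖) * (‖dD F c s T‖ / x ^ 3) := by ring
      _ ≤ x * (‖dD F c s T‖ / x ^ 3) := by gcongr
      _ = _ := by field_simp
  have hδ1 : 1 / x ^ 2 ≤ 1 / 1000 := by
    rw [div_le_div_iff₀ hx2 (by norm_num)]; nlinarith
  have hδ : 1 / x ^ 2 * (q * 2 ^ q) ≤ 1 / 1000 := by
    rw [div_mul_eq_mul_div, one_mul, div_le_div_iff₀ hx2 (by norm_num)]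
    nlinarith
  -- Λ
  obtain ⟨Λ, hΛ⟩ : ∃ Λ : ℂ, Λ = (q : ℂ) * α * (Y c) ^ (q - 1) * dD F c s T := ⟨_, rfl⟩
  have hΛn : ‖Λ‖ = q * ‖α‖ * ‖Y c‖ ^ (q - 1) * ‖dD F c s T‖ := by
    rw [hΛ, norm_mul, norm_mul, norm_mul, norm_pow, Complex.norm_natCast]
  have hYq : 1 ≤ ‖Y c‖ ^ (q - 1) := one_le_pow₀ hYc1
  have hΛ1 : ‖α‖ / 2 ≤ ‖Λ‖ := by
    rw [hΛn]
    calc ‖α‖ / 2 = 1 * ‖α‖ * 1 * (1 / 2) := by ring
      _ ≤ _ := by gcongr
  have hΛ2 : ‖α‖ ^ 2 / 16 * x ^ N ≤ ‖Λ‖ := by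
    rw [hΛn]
    calc ‖α‖ ^ 2 / 16 * x ^ N ≤ ‖α‖ ^ 2 / 16 * ‖Y c‖ := by gcongr
      _ = 1 * ‖α‖ * 1 * (‖α‖ / 16 * ‖Y c‖) := by ring
      _ ≤ _ := by gcongr
  refine ⟨Λ, ?_, fun b hb => ?_⟩
  · have h1 : x ^ (2 * q + 13) ≤ x ^ N := pow_le_pow_right₀ (by linarith) (by omega)
    have h2 : η ^ 2 * x ^ (2 * q + 10) = 1 := by
      rw [← hη2, one_div_mul_cancel (by positivity)]
    have h3 : 10000 ≤ x * ‖α‖ := by
      have : 10000 / ‖α‖ ≤ x := by linarith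
      rwa [div_le_iff₀ ha] at this
    calc (1000 : ℝ) ≤ (x * ‖α‖) ^ 2 / 16 * x := by nlinarith
      _ = ‖α‖ ^ 2 / 16 * x ^ 3 * (η ^ 2 * x ^ (2 * q + 10)) := by rw [h2]; ring
      _ = ‖α‖ ^ 2 / 16 * x ^ (2 * q + 13) * η ^ 2 := by ring
      _ ≤ ‖α‖ ^ 2 / 16 * x ^ N * η ^ 2 := by gcongr
      _ ≤ ‖Λ‖ * η ^ 2 := by gcongr
  · rw [mem_ball, dist_eq_norm] at hb
    have hbη : ‖b - c‖ ≤ η := by nlinarith
    have hbB : ‖b - c‖ ≤ B := by linarith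
    obtain ⟨k1, k2, k3⟩ := hfr b hbη
    have hbs := s_mem hS (c := c) hs hbB
    have hbρ := norm_b_le hC hS hρ hc hbB
    have hlTb : lv q α F b (b + s) T = m + 1 := by rw [← k1 T (le_refl T), hlT]
    have hmT := hmg T (le_refl T)
    rw [hlT] at hmT k2
    obtain ⟨s1, s2, s3, s4⟩ := seg_facts hC hS hρ hc (κ := 1 / 2) (by norm_num) hη0 (le_refl (m + 1)) hηm
      (show Pos q N K B ρ c (m + 1) (ob F c (c + s) T) from ⟨hYl, hYu⟩) (fun h => absurd h (by omega)) hmT k2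
    rw [show (1 : ℝ) / 2 / 2 = 1 / 4 by norm_num] at s2
    have hMb : ∀ r ≤ T, Mg q α ρ (1 / 4) (lv q α F b (b + s) r) (ob F b (b + s) r) := by
      intro r hr
      rcases hr.lt_or_eq with h | h
      · exact k3 r h
      · rw [h, hlTb]; exact s2
    have hub : ¬ uu q α (ob F b (b + s) T) < 0 := fun h => hu0 (s3.1 h)
    have hstb := (s1 _ (right_mem_segment ℝ _ _)).1
    obtain ⟨t1, t2, t3, t4, t5⟩ := stL hC hS hρ hc hstb (not_lt.1 hub) hbρ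
    obtain ⟨t6, -, -, -, -, -⟩ := st_facts hC hS hρ hc hstb
    have hF1 : 1000 * ρ ≤ ‖F (ob F b (b + s) T)‖ := by
      refine le_trans ?_ t2
      have h1 := tw_mono hC hS hρ (show 0 ≤ m + 1 by omega)
      change ρ ≤ tw q ρ (m + 1) at h1
      have h2 : tw q ρ (m + 1) ^ 2 ≤ tw q ρ (m + 1) ^ N := pow_le_pow_right₀ (by linarith) (by omega)
      nlinarith
    obtain ⟨r1, r2⟩ := na0 hS (δ := 1 / x ^ 2) (b := b) (Yb := Y b) (Yc := Y c) (Yb' := dD F b s T)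
      (Yc' := dD F c s T) hδ hδ1 t6 t1 ((hclose b hbη).trans hrelY) ((hYd3 b hb.le).trans hrelY')
      (by linarith) (by
        rw [← hΛ]
        have h3 : 10000 / ‖α‖ ≤ ‖F (Y b)‖ := hXa1.trans (hρ.trans (by linarith))
        rw [div_le_iff₀ ha] at h3
        calc (1000 : ℝ) ≤ ‖α‖ / 2 * ‖F (Y b)‖ := by linarith
          _ ≤ _ := by gcongr) hΛ (by linarith)
    refine ⟨fun r hr => ?_, hMb, r1, r2⟩
    rcases Nat.le_succ_iff.1 hr with h | h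
    · exact k1 r h
    · rw [h, lv_succ_pos hu0, lv_succ_pos hub, k1 T (le_refl T)]

/-- **Cells.** -/
theorem cell (hC : Cst q N K ‖α‖ B X) (hS : Sys q α F A S K) (hρ : X ≤ ρ)
    (hc : Adm q N α K ρ c) {s : ℂ} (hs : s ∈ S) {m T : ℕ}
    (hlev : ∀ r ≤ T, lv q α F c (c + s) r ≤ m) (hT : lv q α F c (c + s) (T + 1) = m + 1)
    (hmg : ∀ r ≤ T, Mg q α ρ (1 / 2) (lv q α F c (c + s) r) (ob F c (c + s) r)) :
    ∃ Λ : ℂ, 1000 ≤ ‖Λ‖ * cr q ρ B m ∧ ∀ b ∈ ball c (cr q ρ B m),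
      (∀ r ≤ T + 1, lv q α F c (c + s) r = lv q α F b (b + s) r) ∧
      (∀ r ≤ T, Mg q α ρ (1 / 4) (lv q α F b (b + s) r) (ob F b (b + s) r)) ∧
      ob F b (b + s) (T + 1) ≠ 0 ∧
      ‖dD F b s (T + 1) / ob F b (b + s) (T + 1) - Λ‖ ≤ 1 / 50 * ‖Λ‖ := by
  cases m with
  | succ m => exact cell_succ hC hS hρ hc hs hlev hT hmg
  | zero =>
    have hcc : ‖c - c‖ ≤ B := by rw [sub_self, norm_zero]; linarith [hC.B0]
    have hcs := s_mem hS (c := c) hs hcc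
    have hu := (step0 hC hS hρ hc hcs).2.2.2.1
    have hu' : ¬ uu q α (ob F c (c + s) 0) < 0 := not_lt.2 hu.le
    have hl1 : lv q α F c (c + s) 1 = 1 := by
      have := lv_succ_pos hu'
      exact this
    have hT0 : T = 0 := by
      by_contra h
      have := hlev 1 (by omega)
      omega
    subst hT0
    obtain ⟨Λ, h1, h2⟩ := cell_zero hC hS hρ hc hs
    refine ⟨Λ, h1, fun b hb => ?_⟩
    obtain ⟨h3, h4, h5⟩ := h2 b hb
    have hub : ¬ uu q α (ob F b (b + s) 0) < 0 := not_lt.2 h3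
    refine ⟨fun r hr => ?_, fun r hr => ?_, h4, h5⟩
    · have : r = 0 ∨ r = 1 := by omega
      rcases this with h | h
      · rw [h]; rfl
      · rw [h, hl1]
        have := lv_succ_pos hub
        exact this.symm
    · have : r = 0 := by omega
      rw [this]
      exact trivial

end Pool.Agent.Helper34.EF
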