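import Pool.Agent.Helper34.EF.Rec
import Pool.Graph.R_pool_sql_team_seeded_3997aac3.Q208.XF.FIX

/-!
# Attracting cycles
-/

set_option autoImplicit false

open Filter Topology Metric Set MeasureTheory

namespace Pool.Agent.Helper34.EF

/-- the orbit of `z` under `f` converges to an attracting cycle -/
def Attr (f : ℂ → ℂ) (z : ℂ) : Prop :=
  ∃ (n : ℕ) (w : ℂ) (j : ℕ), 0 < n ∧ f^[n] w = w ∧ ‖deriv (f^[n]) w‖ < 1 ∧
    Tendsto (fun k : ℕ => f^[n * k + j] z) atTop (𝓝 w)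

variable {q N : ℕ} {α : ℂ} {F : ℂ → ℂ} {A S : Set ℂ} {K B X ρ : ℝ} {c : ℂ}

/-- a disc mapped well into itself by an iterate -/
theorem attr_of_maps (hF : Differentiable ℂ F) {b z y : ℂ} {η : ℝ} (hη : 0 < η) {n t : ℕ} (hn : 0 < n)
    (hy : ob F b z t ∈ closedBall y η)
    (hm : ∀ v ∈ closedBall y η, ob F b v n ∈ closedBall y (η / 4)) :
    Attr (fun z => F z + b) z := by
  set f : ℂ → ℂ := fun z => F z + b with hf
  have hfd : Differentiable ℂ f := hF.add_const b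
  obtain ⟨w, hw, hfix, hder, hconv⟩ := Pool.Agent.Q208.XF.t_FIX (f^[n]) y η hη (hfd.iterate n)
    (fun v hv => by
      have := hm v hv
      rwa [ob_eq_iter] at this)
  refine ⟨n, w, t, hn, hfix, hder, ?_⟩
  have h1 := hconv _ hy
  refine h1.congr fun k => ?_
  rw [Function.iterate_add_apply, Function.iterate_mul, ob_eq_iter]

/-- **Bounded levels imply convergence to an attracting cycle.** -/
theorem attr_of_bdd (hC : Cst q N K ‖α‖ B X) (hS : Sys q α F A S K) (hρ : X ≤ ρ)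
    (hc : Adm q N α K ρ c) {s : ℂ} (hs : s ∈ S)
    (hm : ∀ t, Mg q α ρ (1 / 2) (lv q α F c (c + s) t) (ob F c (c + s) t))
    {H : ℕ} (hH : ∀ t, lv q α F c (c + s) t ≤ H) : Attr (fun z => F z + c) (c + s) := by
  have hcc : ‖c - c‖ ≤ B := by rw [sub_self, norm_zero]; linarith [hC.B0]
  have hX := hC.X1 hS
  have hN := hC.N1
  obtain ⟨L, hL⟩ : ∃ L : ℕ → ℕ, L = lv q α F c (c + s) := ⟨_, rfl⟩
  -- next return
  have hnext : ∀ t, ∃ t', t ≤ t' ∧ L (t' + 1) = 0 ∧ L t ≤ L t' := by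
    intro t
    by_contra hcon
    push Not at hcon
    have key : ∀ k, L t + k ≤ L (t + k) := by
      intro k
      induction k with
      | zero => exact le_refl _
      | succ k ih =>
        rcases lv_cases q α F c (c + s) (t + k) with ⟨h2, h3⟩ | ⟨h2, h3⟩
        · rw [← hL] at h3
          have := hcon (t + k) (by omega) h3
          omega
        · rw [← hL] at h3
          rw [show t + (k + 1) = t + k + 1 by ring, h3]; omega
    have h1 := key (H + 1)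
    have h2 : L (t + (H + 1)) ≤ H := by rw [hL]; exact hH _
    omega
  -- return sets
  set R : ℕ → Set ℕ := fun ℓ => {t | L (t + 1) = 0 ∧ L t = ℓ} with hR
  have hinf : {t | L (t + 1) = 0}.Infinite := by
    rw [Set.infinite_iff_exists_gt]
    intro a
    obtain ⟨t', h1, h2, -⟩ := hnext (a + 1)
    exact ⟨t', h2, by omega⟩
  have hex : ∃ ℓ, ℓ ≤ H ∧ (R ℓ).Infinite := by
    by_contra hcon
    push Not at hcon
    apply hinf
    have h1 : {t | L (t + 1) = 0} ⊆ ⋃ ℓ ∈ Finset.range (H + 1), R ℓ := by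
      intro t ht
      rw [mem_iUnion₂]
      refine ⟨L t, ?_, ht, rfl⟩
      have : L t ≤ H := by rw [hL]; exact hH t
      simp; omega
    refine Set.Finite.subset ?_ h1
    refine Set.Finite.biUnion (Finset.finite_toSet _) fun ℓ hℓ => ?_
    have : ℓ ≤ H := by simpa [Nat.lt_succ_iff] using hℓ
    exact hcon ℓ this
  classical
  obtain ⟨ℓ, hℓ⟩ : ∃ ℓ, ℓ = Nat.findGreatest (fun ℓ => (R ℓ).Infinite) H := ⟨_, rfl⟩
  obtain ⟨ℓ0, hℓ0, hℓ0'⟩ := hex
  have hℓinf : (R ℓ).Infinite := by rw [hℓ]; exact Nat.findGreatest_spec (P := fun ℓ => (R ℓ).Infinite) hℓ0 hℓ0'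
  have hfinR : ∀ ℓ', ℓ < ℓ' → (R ℓ').Finite := by
    intro ℓ' h
    by_cases h1 : ℓ' ≤ H
    · by_contra h2
      have := Nat.le_findGreatest (P := fun ℓ => (R ℓ).Infinite) h1 h2
      omega
    · refine Set.Finite.subset Set.finite_empty fun t ht => ?_
      have h2 : L t ≤ H := by rw [hL]; exact hH t
      have h3 := ht.2
      omega
  -- eventually levels at most ℓ
  obtain ⟨t0, ht0⟩ : ∃ t0, ∀ t, t0 ≤ t → L t ≤ ℓ := by
    have hfin : (⋃ ℓ' ∈ (Finset.range (H + 1)).filter (fun x => ℓ < x), R ℓ').Finite := by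
      refine Set.Finite.biUnion (Finset.finite_toSet _) fun ℓ' hℓ' => hfinR ℓ' ?_
      simpa using (Finset.mem_filter.1 (Finset.mem_coe.1 hℓ')).2
    obtain ⟨t0, ht0⟩ := hfin.bddAbove
    refine ⟨t0 + 1, fun t ht => ?_⟩
    by_contra hcon
    rw [not_le] at hcon
    obtain ⟨t', h1, h2, h3⟩ := hnext t
    have h4 : t' ∈ ⋃ ℓ' ∈ (Finset.range (H + 1)).filter (fun x => ℓ < x), R ℓ' := by
      rw [mem_iUnion₂]
      refine ⟨L t', ?_, h2, rfl⟩
      have : L t' ≤ H := by rw [hL]; exact hH t'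
      simp; omega
    have := ht0 h4
    omega
  -- pigeonhole on the asymptotic values
  have hcs := s_mem hS (c := c) hs hcc
  set RA : ℂ → Set ℕ := fun a => {t | L (t + 1) = 0 ∧ L t = ℓ ∧
    ‖ob F c (c + s) (t + 1) - (c + a)‖ ≤ 1 / (4 * tw q ρ ℓ ^ N)} with hRA
  obtain ⟨a, ha, hainf⟩ : ∃ a ∈ A, (RA a).Infinite := by
    by_contra hcon
    push Not at hcon
    apply hℓinf
    have h1 : R ℓ ⊆ ⋃ a ∈ A, RA a := by
      intro t ht
      obtain ⟨h2, h3⟩ := ht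
      obtain ⟨-, a, ha, h4⟩ := ret_close hC hS hρ hc (by norm_num : (1 : ℝ) / 16 ≤ 1 / 2) hcc hcs (t := t)
        (fun r _ => hm r) (by rw [← hL]; exact h2)
      rw [mem_iUnion₂]
      rw [← hL, h3] at h4
      exact ⟨a, ha, h2, h3, h4⟩
    refine Set.Finite.subset ?_ h1
    exact Set.Finite.biUnion hS.Afin fun a ha => hcon a ha
  obtain ⟨t1, ht1, ht1'⟩ := hainf.exists_gt t0
  obtain ⟨t2, ht2, ht2'⟩ := hainf.exists_gt t1
  obtain ⟨p1, p2, p3⟩ := ht1
  obtain ⟨p4, p5, p6⟩ := ht2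
  -- the level ℓ is positive
  have hneg : uu q α (ob F c (c + s) t2) < 0 := by
    rcases lv_cases q α F c (c + s) t2 with h | h
    · exact h.1
    · rw [hL, h.2] at p4; omega
  have hposall : ∀ t, Pos q N K B ρ c (L t) (ob F c (c + s) t) := fun t => by
    rw [hL]
    exact pos_ob hC hS hρ hc (by norm_num : (1 : ℝ) / 16 ≤ 1 / 2) hcc hcs (fun r _ => hm r)
  obtain ⟨m, hm1⟩ : ∃ m, ℓ = m + 1 := by
    refine Nat.exists_eq_succ_of_ne_zero fun h => ?_
    have h1 := hposall t2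
    rw [p5, h] at h1
    have h2 := (step0 hC hS hρ hc h1).2.2.2.1
    linarith
  obtain ⟨hj1, hj2⟩ := tw_ge hC hS hρ (m + 1)
  obtain ⟨hjm1, hjm2⟩ := tw_ge hC hS hρ m
  obtain ⟨Y, hY⟩ : ∃ Y, Y = tw q ρ (m + 1) := ⟨_, rfl⟩
  rw [hm1, ← hY] at p3 p6
  have hY0 : 0 < Y := by rw [hY]; linarith
  have hY1 : 1000 ≤ Y := by rw [hY]; linarith
  obtain ⟨η, hη⟩ : ∃ η : ℝ, η = 8 / Y ^ N := ⟨_, rfl⟩
  have hη0 : 0 < η := by rw [hη]; positivity
  have hYN : (1000 : ℝ) ≤ Y ^ N := hY1.trans (le_self_pow₀ (by linarith) (by omega))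
  have hη1 : η ≤ 1 / 4 := by
    rw [hη, div_le_div_iff₀ (by positivity) (by norm_num)]; linarith
  have hηY : 1 / (4 * Y ^ N) = η / 32 := by rw [hη]; field_simp; norm_num
  rw [hηY] at p3 p6
  have hηm : η * tw q ρ m ^ (q + 5) ≤ 1 := by
    rw [hη, div_mul_eq_mul_div, div_le_one (by positivity)]
    calc 8 * tw q ρ m ^ (q + 5) ≤ Y * Y ^ (q + 5) := by
          have h0 : 0 ≤ tw q ρ m := by linarith
          have h1 : tw q ρ m ≤ Y := by rw [hY]; linarith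
          gcongr
          linarith
      _ = Y ^ (q + 6) := by ring
      _ ≤ Y ^ N := pow_le_pow_right₀ (by linarith) (by omega)
  obtain ⟨y, hy⟩ : ∃ y, y = ob F c (c + s) (t1 + 1) := ⟨_, rfl⟩
  obtain ⟨n, hn⟩ : ∃ n, t2 = t1 + 1 + n := ⟨t2 - (t1 + 1), by omega⟩
  have hyt : ∀ t', ob F c (c + s) (t1 + 1 + t') = ob F c y t' := fun t' => by rw [hy, ob_add]
  have hyl : ∀ t', L (t1 + 1 + t') = lv q α F c y t' := fun t' => by
    rw [hy, hL]; exact lv_add q α F c (c + s) (by rw [← hL]; exact p1) t'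
  have hay := hS.bd a (hS.AS ha)
  have hB := hC.B0
  have hyc : ‖y - c‖ ≤ K + 1 / 4 := by
    rw [← hy] at p3
    calc ‖y - c‖ = ‖(y - (c + a)) + a‖ := by ring_nf
      _ ≤ ‖y - (c + a)‖ + ‖a‖ := norm_add_le _ _
      _ ≤ K + 1 / 4 := by linarith
  refine attr_of_maps hS.diff hη0 (n := n + 1) (t := t1 + 1) (y := y) (by omega)
    (by rw [hy]; exact mem_closedBall_self hη0.le) fun v hv => ?_
  rw [mem_closedBall, dist_eq_norm] at hv ⊢
  have hmy : ∀ t', Mg q α ρ (1 / 2) (lv q α F c y t') (ob F c y t') := fun t' => by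
    rw [← hyt, ← hyl, hL]; exact hm _
  have hvc : ‖v - c‖ ≤ K + B + 1 := by
    calc ‖v - c‖ = ‖(v - y) + (y - c)‖ := by ring_nf
      _ ≤ ‖v - y‖ + ‖y - c‖ := norm_add_le _ _
      _ ≤ _ := by linarith
  obtain ⟨k1, k2, k3⟩ := compare hC hS hρ hc (κ := 1 / 2) (by norm_num) hη0 hηm hcc hcc
    (by rw [sub_self, norm_zero]; exact hη0.le) (by linarith : ‖y - c‖ ≤ K + B + 1) hvc
    (by linarith) n (fun t' _ _ => by
      rw [← hyl, ← hm1]; exact ht0 _ (by omega)) (fun t' _ _ => hmy t') n (le_refl n)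
  have hposy : Pos q N K B ρ c (lv q α F c y n) (ob F c y n) := by
    rw [← hyt, ← hyl]; exact hposall _
  have hposv := pos_ob hC hS hρ hc (by norm_num : (1 : ℝ) / 16 ≤ 1 / 2 / 2) hcc hvc (t := n) k3
  have hlvn : lv q α F c y n = m + 1 := by rw [← hyl, ← hn, p5, hm1]
  obtain ⟨g1, g2, g3, g4⟩ := seg_facts hC hS hρ hc (κ := 1 / 2) (by norm_num) hη0
    (by rw [hlvn]) hηm hposy (fun h0 => by rw [hlvn] at h0; omega) (hmy n) k2
  have hnegy : uu q α (ob F c y n) < 0 := by rw [← hyt, ← hn]; exact hneg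
  have h5 := oneS hC hS hρ hc hη0 (fun ζ hζ => ⟨(g1 ζ hζ).1, (g1 ζ hζ).2.2 hnegy⟩) g4
  have h6 : ‖ob F c y (n + 1) - y‖ ≤ η / 16 := by
    rw [← hyt]
    have e : t1 + 1 + (n + 1) = t2 + 1 := by omega
    rw [e]
    rw [← hy] at p3
    calc ‖ob F c (c + s) (t2 + 1) - y‖ = ‖(ob F c (c + s) (t2 + 1) - (c + a)) - (y - (c + a))‖ := by ring_nf
      _ ≤ ‖ob F c (c + s) (t2 + 1) - (c + a)‖ + ‖y - (c + a)‖ := norm_sub_le _ _
      _ ≤ η / 16 := by linarith
  calc ‖ob F c v (n + 1) - y‖ = ‖(F (ob F c v n) - F (ob F c y n)) + (ob F c y (n + 1) - y)‖ := by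
        show ‖F (ob F c v n) + c - y‖ = ‖(F (ob F c v n) - F (ob F c y n)) + (F (ob F c y n) + c - y)‖
        ring_nf
    _ ≤ ‖F (ob F c v n) - F (ob F c y n)‖ + ‖ob F c y (n + 1) - y‖ := norm_add_le _ _
    _ ≤ η / 4 := by linarith

/-- the half of the parameter plane where `c` is in the small region -/
theorem attr_neg (hC : Cst q N K ‖α‖ B X) (hS : Sys q α F A S K) (hρ : X ≤ ρ)
    (hc : Adm q N (-α) K ρ c) {s : ℂ} (hs : s ∈ S) : Attr (fun z => F z + c) (c + s) := by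
  have hX := hC.X1 hS
  have hK := hS.K1
  have hN := hC.N1
  have hB := hC.B0
  have hB1 := hC.B1
  have hC' : Cst q N K ‖-α‖ B X := by rw [norm_neg]; exact hC
  have hun : ∀ z, uu q (-α) z = -uu q α z := fun z => by
    unfold uu; rw [neg_mul, Complex.neg_re]
  set ε : ℝ := 1 / (4 * ρ ^ N) with hε
  have hρ0 : 0 < ρ := by linarith
  have hfacts : ∀ ζ : ℂ, ‖ζ - c‖ ≤ K + B + 1 → (∃ a ∈ A, ‖F ζ - a‖ ≤ ε) ∧ ‖deriv F ζ‖ ≤ ε := by
    intro ζ hζ
    obtain ⟨h1, h2, h3, h4, h5, h6⟩ := step0' hC' hS.q1 hS.K1 hρ hc hζ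
    rw [hun] at h3 h4 h5
    rw [abs_of_pos h4] at h3 h5
    have h7 : Real.exp (uu q α ζ / 2) ≤ ε := by
      rw [hε, le_div_iff₀ (by positivity)]
      calc Real.exp (uu q α ζ / 2) * (4 * ρ ^ N) ≤
            Real.exp (uu q α ζ / 2) * Real.exp (-uu q α ζ / 2) := by gcongr
        _ = 1 := by rw [← Real.exp_add]; ring_nf; exact Real.exp_zero
    obtain ⟨⟨a, ha, h8⟩, h9⟩ := hS.small ζ h1 (by linarith)
    exact ⟨⟨a, ha, h8.trans h7⟩, h9.trans h7⟩
  obtain ⟨⟨a, ha, hFa⟩, -⟩ := hfacts c (by rw [sub_self, norm_zero]; linarith)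
  have hall : ∀ ζ : ℂ, ‖ζ - c‖ ≤ K + B + 1 → ‖F ζ - a‖ ≤ ε * (K + B + 2) := by
    intro ζ hζ
    have h1 := (convex_closedBall c (K + B + 1)).norm_image_sub_le_of_norm_deriv_le (𝕜 := ℂ)
      (f := F) (C := ε) (fun x _ => hS.diff x)
      (fun x hx => (hfacts x (by rwa [mem_closedBall, dist_eq_norm] at hx)).2)
      (mem_closedBall_self (by linarith)) (by rwa [mem_closedBall, dist_eq_norm] : ζ ∈ closedBall c (K + B + 1))
    calc ‖F ζ - a‖ = ‖(F ζ - F c) + (F c - a)‖ := by ring_nf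
      _ ≤ ‖F ζ - F c‖ + ‖F c - a‖ := norm_add_le _ _
      _ ≤ ε * ‖ζ - c‖ + ε := add_le_add h1 hFa
      _ ≤ ε * (K + B + 1) + ε := by
        have : 0 < ε := by positivity
        gcongr
      _ = _ := by ring
  have hεs : ε * (K + B + 2) ≤ 1 / 4 := by
    have h5 := hC.c5
    have h1 : ρ ≤ ρ ^ N := le_self_pow₀ (by linarith) (by omega)
    rw [hε, one_div_mul_eq_div, div_le_iff₀ (by positivity)]
    linarith
  have hbd := hS.bd a (hS.AS ha)
  refine attr_of_maps hS.diff (y := c + a) (η := B + 1) (by linarith) (n := 1) (t := 0) one_pos ?_ ?_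
  · show c + s ∈ closedBall (c + a) (B + 1)
    rw [mem_closedBall, dist_eq_norm]
    have h2 := hS.bd s hs
    calc ‖c + s - (c + a)‖ = ‖s - a‖ := by ring_nf
      _ ≤ ‖s‖ + ‖a‖ := norm_sub_le _ _
      _ ≤ B + 1 := by linarith
  · intro v hv
    rw [mem_closedBall, dist_eq_norm] at hv ⊢
    show ‖F v + c - (c + a)‖ ≤ (B + 1) / 4
    rw [show F v + c - (c + a) = F v - a by ring]
    refine (hall v ?_).trans (hεs.trans (by linarith))
    calc ‖v - c‖ = ‖(v - (c + a)) + a‖ := by ring_nf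
      _ ≤ ‖v - (c + a)‖ + ‖a‖ := norm_add_le _ _
      _ ≤ K + B + 1 := by linarith

end Pool.Agent.Helper34.EF
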