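import Mathlib

/-!
# Inverse branches of entire functions

If the derivative of the entire function `g` is bounded below at all points mapped into a disc, then
the inverse branches of `g` on this disc exist. Proof: solve `z' = v / g'(z)`.
-/

set_option autoImplicit false

open Filter Topology Metric Set MeasureTheory
open scoped NNReal

namespace Pool.Agent.Helper34.EF

/-- the reciprocal, cut off near zero -/
noncomputable def hh (κ : ℝ) (w : ℂ) : ℂ :=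
  starRingEnd ℂ w * ((max (‖w‖ ^ 2) (κ ^ 2))⁻¹ : ℝ)

theorem hh_norm {κ : ℝ} (hκ : 0 < κ) (w : ℂ) : ‖hh κ w‖ ≤ 1 / κ := by
  unfold hh
  have hm : 0 < max (‖w‖ ^ 2) (κ ^ 2) := lt_of_lt_of_le (by positivity) (le_max_right _ _)
  rw [norm_mul, RCLike.norm_conj, Complex.norm_real, norm_inv, Real.norm_of_nonneg hm.le, ← div_eq_mul_inv,
    div_le_div_iff₀ hm hκ, one_mul]
  rcases le_total ‖w‖ κ with h | h
  · exact le_trans (by nlinarith [norm_nonneg w]) (le_max_right _ _)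
  · exact le_trans (by nlinarith [norm_nonneg w]) (le_max_left _ _)

theorem hh_mul {κ : ℝ} (hκ : 0 < κ) (w : ℂ) : ‖w * hh κ w‖ ≤ 1 := by
  unfold hh
  have hm : 0 < max (‖w‖ ^ 2) (κ ^ 2) := lt_of_lt_of_le (by positivity) (le_max_right _ _)
  rw [← mul_assoc, norm_mul, norm_mul, RCLike.norm_conj, Complex.norm_real, norm_inv,
    Real.norm_of_nonneg hm.le, ← div_eq_mul_inv, div_le_one hm, ← sq]
  exact le_max_left _ _

theorem hh_eq {κ : ℝ} (hκ : 0 < κ) {w : ℂ} (hw : κ ≤ ‖w‖) : w * hh κ w = 1 := by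
  unfold hh
  have h1 : κ ^ 2 ≤ ‖w‖ ^ 2 := by gcongr
  rw [max_eq_left h1, ← mul_assoc, Complex.mul_conj, Complex.normSq_eq_norm_sq]
  have h2 : (0 : ℝ) < ‖w‖ ^ 2 := lt_of_lt_of_le (by positivity) h1
  rw [← Complex.ofReal_mul, mul_inv_cancel₀ h2.ne', Complex.ofReal_one]

theorem hh_lip {κ : ℝ} (hκ : 0 < κ) (w w' : ℂ) : ‖hh κ w - hh κ w'‖ ≤ 3 / κ ^ 2 * ‖w - w'‖ := by
  unfold hh
  obtain ⟨m, hm⟩ : ∃ m, m = max (‖w‖ ^ 2) (κ ^ 2) := ⟨_, rfl⟩
  obtain ⟨m', hm'⟩ : ∃ m', m' = max (‖w'‖ ^ 2) (κ ^ 2) := ⟨_, rfl⟩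
  have h1 : ‖w‖ ^ 2 ≤ m := by rw [hm]; exact le_max_left _ _
  have h2 : κ ^ 2 ≤ m := by rw [hm]; exact le_max_right _ _
  have h3 : ‖w'‖ ^ 2 ≤ m' := by rw [hm']; exact le_max_left _ _
  have h4 : κ ^ 2 ≤ m' := by rw [hm']; exact le_max_right _ _
  have hκ2 : 0 < κ ^ 2 := by positivity
  have hm0 : 0 < m := by linarith
  have hm0' : 0 < m' := by linarith
  rw [← hm, ← hm']
  have e : starRingEnd ℂ w * ((m⁻¹ : ℝ) : ℂ) - starRingEnd ℂ w' * ((m'⁻¹ : ℝ) : ℂ) =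
      starRingEnd ℂ (w - w') * ((m⁻¹ : ℝ) : ℂ) + starRingEnd ℂ w' * (((m' - m) / (m * m') : ℝ) : ℂ) := by
    have h5 : (m' - m) / (m * m') = m⁻¹ - m'⁻¹ := by field_simp
    rw [h5, map_sub, Complex.ofReal_sub]
    ring
  rw [e]
  refine (norm_add_le _ _).trans ?_
  rw [norm_mul, norm_mul, RCLike.norm_conj, RCLike.norm_conj, Complex.norm_real, Complex.norm_real, norm_inv,
    Real.norm_of_nonneg hm0.le, norm_div, Real.norm_of_nonneg (by positivity : 0 ≤ m * m'), Real.norm_eq_abs]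
  have hmm : |m' - m| ≤ |‖w'‖ ^ 2 - ‖w‖ ^ 2| := by
    rw [hm, hm']
    exact abs_max_sub_max_le_abs _ _ _
  have h6 : |‖w'‖ ^ 2 - ‖w‖ ^ 2| ≤ ‖w - w'‖ * (‖w‖ + ‖w'‖) := by
    have h7 : ‖w'‖ ^ 2 - ‖w‖ ^ 2 = (‖w'‖ - ‖w‖) * (‖w'‖ + ‖w‖) := by ring
    rw [h7, abs_mul, abs_of_nonneg (by positivity : 0 ≤ ‖w'‖ + ‖w‖), add_comm ‖w'‖ ‖w‖]
    gcongr
    rw [norm_sub_rev]
    exact abs_norm_sub_norm_le _ _
  have h8 : ‖w‖ * κ ≤ m := by nlinarith [sq_nonneg (‖w‖ - κ)]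
  have h9 : ‖w'‖ * κ ≤ m' := by nlinarith [sq_nonneg (‖w'‖ - κ)]
  have h10 : ‖w - w'‖ * m⁻¹ ≤ 1 / κ ^ 2 * ‖w - w'‖ := by
    rw [mul_comm]
    gcongr
    rw [inv_eq_one_div]
    gcongr
  have h11 : ‖w'‖ * (|m' - m| / (m * m')) ≤ 2 / κ ^ 2 * ‖w - w'‖ := by
    have h12 : ‖w'‖ * |m' - m| ≤ ‖w - w'‖ * (‖w'‖ * (‖w‖ + ‖w'‖)) := by
      calc ‖w'‖ * |m' - m| ≤ ‖w'‖ * (‖w - w'‖ * (‖w‖ + ‖w'‖)) := by gcongr; exact hmm.trans h6
        _ = _ := by ring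
    have h13 : ‖w'‖ * (‖w‖ + ‖w'‖) * κ ^ 2 ≤ 2 * (m * m') := by
      have h14 : (‖w‖ * κ) * (‖w'‖ * κ) ≤ m * m' := mul_le_mul h8 h9 (by positivity) hm0.le
      have h15 : ‖w'‖ ^ 2 * κ ^ 2 ≤ m' * m := mul_le_mul h3 h2 (by positivity) hm0'.le
      nlinarith
    rw [← mul_div_assoc, div_mul_eq_mul_div, div_le_div_iff₀ (by positivity) hκ2]
    calc ‖w'‖ * |m' - m| * κ ^ 2 ≤ ‖w - w'‖ * (‖w'‖ * (‖w‖ + ‖w'‖)) * κ ^ 2 := by gcongr
      _ = ‖w - w'‖ * (‖w'‖ * (‖w‖ + ‖w'‖) * κ ^ 2) := by ring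
      _ ≤ ‖w - w'‖ * (2 * (m * m')) := by gcongr
      _ = _ := by ring
  calc _ ≤ 1 / κ ^ 2 * ‖w - w'‖ + 2 / κ ^ 2 * ‖w - w'‖ := add_le_add h10 h11
    _ = _ := by ring

/-- **Inverse branches.** -/
theorem lift {g : ℂ → ℂ} (hg : Differentiable ℂ g) {b z0 : ℂ} {R κ : ℝ} (hR : 0 < R) (hκ : 0 < κ)
    (hz0 : g z0 = b) (hlow : ∀ z, g z ∈ ball b R → κ ≤ ‖deriv g z‖) :
    ∃ G : ℂ → ℂ, DifferentiableOn ℂ G (ball b R) ∧ G b = z0 ∧ ∀ ζ ∈ ball b R, g (G ζ) = ζ := by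
  have hRκ : 0 < R / κ := by positivity
  have hg' : Differentiable ℂ (deriv g) := hg.deriv
  -- Lipschitz constant of the derivative on the ball
  obtain ⟨M, hM0, hM⟩ : ∃ M : ℝ, 0 ≤ M ∧ ∀ z ∈ closedBall z0 (R / κ), ∀ w ∈ closedBall z0 (R / κ),
      ‖deriv g z - deriv g w‖ ≤ M * ‖z - w‖ := by
    obtain ⟨M, hM⟩ := (isCompact_closedBall z0 (R / κ)).exists_bound_of_continuousOn
      (f := deriv (deriv g)) hg'.deriv.continuous.continuousOn
    refine ⟨M, (norm_nonneg _).trans (hM z0 (mem_closedBall_self hRκ.le)), fun z hz w hw => ?_⟩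
    exact (convex_closedBall z0 (R / κ)).norm_image_sub_le_of_norm_deriv_le (𝕜 := ℂ)
      (fun x _ => hg' x) hM hw hz
  obtain ⟨V, hV⟩ : ∃ V : ℂ → ℂ → ℂ, V = fun v z => v * hh κ (deriv g z) := ⟨_, rfl⟩
  have hVn : ∀ v z, ‖V v z‖ ≤ ‖v‖ / κ := by
    intro v z
    rw [hV]
    show ‖v * hh κ (deriv g z)‖ ≤ _
    rw [norm_mul, div_eq_mul_one_div]
    exact mul_le_mul_of_nonneg_left (hh_norm hκ _) (norm_nonneg _)
  set Kr : ℝ := R * (3 / κ ^ 2) * M with hKr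
  have hKr0 : 0 ≤ Kr := by positivity
  have hVl : ∀ v, ‖v‖ ≤ R → ∀ z ∈ closedBall z0 (R / κ), ∀ w ∈ closedBall z0 (R / κ),
      ‖V v z - V v w‖ ≤ Kr * ‖z - w‖ := by
    intro v hv z hz w hw
    rw [hV]
    show ‖v * hh κ (deriv g z) - v * hh κ (deriv g w)‖ ≤ _
    rw [← mul_sub, norm_mul]
    calc ‖v‖ * ‖hh κ (deriv g z) - hh κ (deriv g w)‖ ≤ R * (3 / κ ^ 2 * (M * ‖z - w‖)) := by
          gcongr
          exact (hh_lip hκ _ _).trans (by gcongr; exact hM z hz w hw)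
      _ = _ := by rw [hKr]; ring
  -- solutions
  have hsol : ∀ ζ ∈ ball b R, ∃ p : ℝ → ℂ, p 0 = z0 ∧
      (∀ t ∈ Icc (0 : ℝ) 1, HasDerivWithinAt p (V (ζ - b) (p t)) (Icc 0 1) t) := by
    intro ζ hζ
    rw [mem_ball, dist_eq_norm] at hζ
    have hP : IsPicardLindelof (fun _ : ℝ => V (ζ - b)) (⟨0, by simp⟩ : Icc (0 : ℝ) 1) z0
        (⟨R / κ, hRκ.le⟩ : ℝ≥0) 0 ⟨R / κ, hRκ.le⟩ ⟨Kr, hKr0⟩ := by
      apply IsPicardLindelof.of_time_independent
      · intro x _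
        refine (hVn _ _).trans ?_
        show ‖ζ - b‖ / κ ≤ R / κ
        gcongr
      · apply LipschitzOnWith.of_dist_le_mul
        intro x hx y hy
        rw [dist_eq_norm, dist_eq_norm]
        exact hVl _ hζ.le x hx y hy
      · show R / κ * max (1 - 0) (0 - 0) ≤ R / κ - ((0 : ℝ≥0) : ℝ)
        simp
    obtain ⟨p, hp0, hp⟩ := hP.exists_eq_forall_mem_Icc_hasDerivWithinAt₀
    exact ⟨p, hp0, hp⟩
  choose! p hp0 hp using hsol
  -- positions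
  have hpos : ∀ ζ ∈ ball b R, ∀ t ∈ Icc (0 : ℝ) 1, p ζ t ∈ closedBall z0 (R / κ) := by
    intro ζ hζ t ht
    have h1 := norm_image_sub_le_of_norm_deriv_le_segment' (f := p ζ) (C := R / κ) (hp ζ hζ)
      (fun x hx => by
        refine (hVn _ _).trans ?_
        rw [mem_ball, dist_eq_norm] at hζ
        gcongr) t ht
    rw [hp0 ζ hζ, sub_zero] at h1
    rw [mem_closedBall, dist_eq_norm]
    refine h1.trans ?_
    have := ht.2
    nlinarith
  have hcomp : ∀ ζ ∈ ball b R, ∀ t ∈ Icc (0 : ℝ) 1, HasDerivWithinAt (fun t => g (p ζ t))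
      ((ζ - b) * (deriv g (p ζ t) * hh κ (deriv g (p ζ t)))) (Icc 0 1) t := by
    intro ζ hζ t ht
    have h1 := (hg (p ζ t)).hasDerivAt.comp_hasDerivWithinAt t (hp ζ hζ t ht)
    rw [hV] at h1
    refine h1.congr_deriv ?_
    show deriv g (p ζ t) * ((ζ - b) * hh κ (deriv g (p ζ t))) = _
    ring
  have hin : ∀ ζ ∈ ball b R, ∀ t ∈ Icc (0 : ℝ) 1, g (p ζ t) ∈ ball b R := by
    intro ζ hζ t ht
    have h1 := norm_image_sub_le_of_norm_deriv_le_segment' (f := fun t => g (p ζ t)) (C := ‖ζ - b‖)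
      (hcomp ζ hζ) (fun x hx => by
        rw [norm_mul]
        calc ‖ζ - b‖ * _ ≤ ‖ζ - b‖ * 1 := by gcongr; exact hh_mul hκ _
          _ = _ := mul_one _) t ht
    simp only [hp0 ζ hζ, hz0, sub_zero] at h1
    rw [mem_ball, dist_eq_norm]
    rw [mem_ball, dist_eq_norm] at hζ
    refine lt_of_le_of_lt h1 (lt_of_le_of_lt ?_ hζ)
    have := ht.2
    nlinarith [norm_nonneg (ζ - b)]
  have hgG : ∀ ζ ∈ ball b R, g (p ζ 1) = ζ := by
    intro ζ hζ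
    have h1 : ∀ t ∈ Icc (0 : ℝ) 1, HasDerivWithinAt (fun t : ℝ => g (p ζ t) - (t : ℂ) * (ζ - b))
        0 (Icc 0 1) t := by
      intro t ht
      have h2 := hcomp ζ hζ t ht
      rw [hh_eq hκ (hlow _ (hin ζ hζ t ht)), mul_one] at h2
      have h3 : HasDerivAt (fun t : ℝ => (t : ℂ) * (ζ - b)) (ζ - b) t := by
        have h4 : HasDerivAt (fun w : ℂ => w * (ζ - b)) (ζ - b) (t : ℂ) := by
          simpa using (hasDerivAt_id (t : ℂ)).mul_const (ζ - b)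
        exact h4.comp_ofReal
      have h5 := h2.sub h3.hasDerivWithinAt
      rw [sub_self] at h5
      exact h5
    have h2 := norm_image_sub_le_of_norm_deriv_le_segment' (C := 0) h1 (fun x hx => by simp) 1
      (right_mem_Icc.2 zero_le_one)
    simp only [hp0 ζ hζ, hz0, Complex.ofReal_one, one_mul, Complex.ofReal_zero, zero_mul, sub_zero] at h2
    have h3 := norm_le_zero_iff.1 h2
    linear_combination h3
  have hGb : p b 1 = z0 := by
    have hb : b ∈ ball b R := mem_ball_self hR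
    have h2 := norm_image_sub_le_of_norm_deriv_le_segment' (C := 0) (hp b hb) (fun x hx => by
      refine (hVn _ _).trans ?_
      simp) 1 (right_mem_Icc.2 zero_le_one)
    rw [hp0 b hb, zero_mul] at h2
    exact sub_eq_zero.1 (norm_le_zero_iff.1 h2)
  -- continuity
  have hcts : ∀ ζ ∈ ball b R, ∀ ζ' ∈ ball b R, dist (p ζ 1) (p ζ' 1) ≤
      gronwallBound 0 Kr (0 + ‖ζ - ζ'‖ / κ) 1 := by
    intro ζ hζ ζ' hζ'
    have hIci : ∀ η ∈ ball b R, ∀ t ∈ Ico (0 : ℝ) 1, HasDerivWithinAt (p η) (V (η - b) (p η t)) (Ici t) t := by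
      intro η hη t ht
      have h1 := hp η hη t ⟨ht.1, ht.2.le⟩
      exact h1.mono_of_mem_nhdsWithin (Icc_mem_nhdsGE_of_mem ht)
    have h1 := dist_le_of_approx_trajectories_ODE_of_mem (v := fun _ => V (ζ - b)) (K := ⟨Kr, hKr0⟩)
      (s := fun _ => closedBall z0 (R / κ)) (f := p ζ) (g := p ζ') (a := 0) (b := 1)
      (f' := fun t => V (ζ - b) (p ζ t)) (g' := fun t => V (ζ' - b) (p ζ' t)) (εf := 0)
      (εg := ‖ζ - ζ'‖ / κ) (δ := 0)
      (fun t _ => by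
        apply LipschitzOnWith.of_dist_le_mul
        intro x hx y hy
        rw [dist_eq_norm, dist_eq_norm]
        rw [mem_ball, dist_eq_norm] at hζ
        exact hVl _ hζ.le x hx y hy)
      (fun t ht => (hp ζ hζ t ht).continuousWithinAt) (hIci ζ hζ) (fun t _ => by simp)
      (fun t ht => hpos ζ hζ t ⟨ht.1, ht.2.le⟩)
      (fun t ht => (hp ζ' hζ' t ht).continuousWithinAt) (hIci ζ' hζ')
      (fun t ht => by
        rw [dist_eq_norm, hV]
        show ‖(ζ' - b) * hh κ (deriv g (p ζ' t)) - (ζ - b) * hh κ (deriv g (p ζ' t))‖ ≤ _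
        rw [← sub_mul, norm_mul, sub_sub_sub_cancel_right, norm_sub_rev, div_eq_mul_one_div]
        exact mul_le_mul_of_nonneg_left (hh_norm hκ _) (norm_nonneg _))
      (fun t ht => hpos ζ' hζ' t ⟨ht.1, ht.2.le⟩)
      (by rw [hp0 ζ hζ, hp0 ζ' hζ', dist_self]) 1 (right_mem_Icc.2 zero_le_one)
    rw [sub_zero] at h1
    exact h1
  have hcont : ∀ ζ ∈ ball b R, ContinuousAt (fun η => p η 1) ζ := by
    intro ζ hζ
    unfold ContinuousAt
    rw [tendsto_iff_dist_tendsto_zero]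
    have h1 : Tendsto (fun η => gronwallBound 0 Kr (0 + ‖η - ζ‖ / κ) 1) (𝓝 ζ) (𝓝 0) := by
      have h2 : Continuous (fun η : ℂ => 0 + ‖η - ζ‖ / κ) := by fun_prop
      have h3 := ((gronwallBound_continuous_ε 0 Kr 1).comp h2).tendsto ζ
      simp only [Function.comp_def, sub_self, norm_zero, zero_div, add_zero, gronwallBound_ε0_δ0] at h3
      simpa using h3
    refine squeeze_zero' (Eventually.of_forall fun _ => dist_nonneg) ?_ h1
    filter_upwards [isOpen_ball.mem_nhds hζ] with η hη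
    exact hcts η hη ζ hζ
  refine ⟨fun ζ => p ζ 1, fun ζ hζ => ?_, hGb, hgG⟩
  have h1 : HasDerivAt (fun η => p η 1) (deriv g (p ζ 1))⁻¹ ζ := by
    refine HasDerivAt.of_local_left_inverse (hcont ζ hζ) (hg (p ζ 1)).hasDerivAt ?_ ?_
    · have := hlow (p ζ 1) (by rw [hgG ζ hζ]; exact hζ)
      exact norm_pos_iff.1 (by linarith)
    · filter_upwards [isOpen_ball.mem_nhds hζ] with η hη
      exact hgG η hη
  exact h1.differentiableAt.differentiableWithinAt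

end Pool.Agent.Helper34.EF
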