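import Pool.Agent.Helper34.EF.Cyc
import Pool.Agent.Helper34.EF.Lift

/-!
# Fatou and Julia sets, basins of attracting cycles
-/

set_option autoImplicit false

open Filter Topology Metric Set MeasureTheory

namespace Pool.Agent.Helper34.EF

/-- chordal distance (up to the factor two) -/
noncomputable def chord (z w : ℂ) : ℝ :=
  ‖z - w‖ / (Real.sqrt (1 + ‖z‖ ^ 2) * Real.sqrt (1 + ‖w‖ ^ 2))

/-- Fatou set: the points with a neighbourhood on which the iterates are equicontinuous for the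
chordal distance -/
def fatou (f : ℂ → ℂ) : Set ℂ :=
  {z | ∃ U : Set ℂ, IsOpen U ∧ z ∈ U ∧ ∀ u ∈ U, ∀ ε : ℝ, 0 < ε → ∃ δ : ℝ, 0 < δ ∧
    ∀ v, dist v u < δ → ∀ n : ℕ, chord (f^[n] v) (f^[n] u) < ε}

/-- Julia set -/
def julia (f : ℂ → ℂ) : Set ℂ := (fatou f)ᶜ

variable {f : ℂ → ℂ}

theorem fatou_open (f : ℂ → ℂ) : IsOpen (fatou f) := by
  rw [isOpen_iff_forall_mem_open]
  rintro z ⟨U, hU, hz, h⟩
  exact ⟨U, fun u hu => ⟨U, hU, hu, h⟩, hU, hz⟩

theorem chord_le (z w : ℂ) : chord z w ≤ dist z w := by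
  unfold chord
  rw [Complex.dist_eq]
  have h1 : 1 ≤ Real.sqrt (1 + ‖z‖ ^ 2) := Real.one_le_sqrt.2 (by nlinarith [sq_nonneg ‖z‖])
  have h2 : 1 ≤ Real.sqrt (1 + ‖w‖ ^ 2) := Real.one_le_sqrt.2 (by nlinarith [sq_nonneg ‖w‖])
  exact div_le_self (norm_nonneg _) (one_le_mul_of_one_le_of_one_le h1 h2)

theorem fatou_of_image (hf : Continuous f) {z : ℂ} (h : f z ∈ fatou f) : z ∈ fatou f := by
  obtain ⟨U, hU, hz, h⟩ := h
  refine ⟨f ⁻¹' U, hU.preimage hf, hz, ?_⟩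
  intro u hu ε hε
  obtain ⟨δ, hδ, h1⟩ := h (f u) hu ε hε
  obtain ⟨δ', hδ', h2⟩ := Metric.continuous_iff.1 hf u δ hδ
  refine ⟨min δ' ε, lt_min hδ' hε, fun v hv n => ?_⟩
  cases n with
  | zero => exact lt_of_le_of_lt (chord_le _ _) (lt_of_lt_of_le hv (min_le_right _ _))
  | succ n =>
    rw [Function.iterate_succ_apply, Function.iterate_succ_apply]
    exact h1 _ (h2 v (lt_of_lt_of_le hv (min_le_left _ _))) n

theorem julia_iter (hf : Continuous f) {z : ℂ} (hz : z ∈ julia f) (n : ℕ) : f^[n] z ∈ julia f := by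
  induction n with
  | zero => exact hz
  | succ n ih =>
    rw [Function.iterate_succ_apply']
    intro h
    exact ih (fatou_of_image hf h)

theorem chord_inv {x y w : ℂ} (hx : x ≠ w) (hy : y ≠ w) :
    chord x y ≤ (1 + ‖w‖) ^ 2 * ‖(x - w)⁻¹ - (y - w)⁻¹‖ := by
  have hx' : x - w ≠ 0 := sub_ne_zero.2 hx
  have hy' : y - w ≠ 0 := sub_ne_zero.2 hy
  have e : x - y = -((x - w) * (y - w) * ((x - w)⁻¹ - (y - w)⁻¹)) := by
    field_simp
    ring
  unfold chord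
  have hs : ∀ t : ℂ, ‖t - w‖ ≤ (1 + ‖w‖) * Real.sqrt (1 + ‖t‖ ^ 2) := by
    intro t
    have h1 : 1 ≤ Real.sqrt (1 + ‖t‖ ^ 2) := Real.one_le_sqrt.2 (by nlinarith [sq_nonneg ‖t‖])
    have h2 : ‖t‖ ≤ Real.sqrt (1 + ‖t‖ ^ 2) := Real.le_sqrt_of_sq_le (by linarith)
    calc ‖t - w‖ ≤ ‖t‖ + ‖w‖ := norm_sub_le _ _
      _ ≤ Real.sqrt (1 + ‖t‖ ^ 2) + ‖w‖ * Real.sqrt (1 + ‖t‖ ^ 2) := by
          have := mul_le_mul_of_nonneg_left h1 (norm_nonneg w)
          linarith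
      _ = _ := by ring
  have h1 : 0 < Real.sqrt (1 + ‖x‖ ^ 2) := Real.sqrt_pos.2 (by positivity)
  have h2 : 0 < Real.sqrt (1 + ‖y‖ ^ 2) := Real.sqrt_pos.2 (by positivity)
  rw [div_le_iff₀ (by positivity), e, norm_neg, norm_mul, norm_mul]
  calc ‖x - w‖ * ‖y - w‖ * ‖(x - w)⁻¹ - (y - w)⁻¹‖ ≤
        ((1 + ‖w‖) * Real.sqrt (1 + ‖x‖ ^ 2)) * ((1 + ‖w‖) * Real.sqrt (1 + ‖y‖ ^ 2)) *
          ‖(x - w)⁻¹ - (y - w)⁻¹‖ := by
        gcongr
        · exact hs x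
        · exact hs y
    _ = _ := by ring

/-- **Easy Montel theorem**: if the iterates omit a disc on an open set, it belongs to the Fatou
set. -/
theorem montel (hf : Differentiable ℂ f) {W : Set ℂ} (hW : IsOpen W) {w0 : ℂ} {r0 : ℝ}
    (hr0 : 0 < r0) (h : ∀ n, ∀ ζ ∈ W, f^[n] ζ ∉ ball w0 r0) : W ⊆ fatou f := by
  intro z hz
  refine ⟨W, hW, hz, fun u hu ε hε => ?_⟩
  obtain ⟨η, hη, hb⟩ := Metric.isOpen_iff.1 hW u hu
  set C : ℝ := (1 + ‖w0‖) ^ 2 * (3 / r0 / η) with hC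
  have hC0 : 0 < C := by positivity
  refine ⟨min η (ε / C), lt_min hη (by positivity), fun v hv n => ?_⟩
  have hv1 : v ∈ ball u η := mem_ball.2 (lt_of_lt_of_le hv (min_le_left _ _))
  have hv2 : dist v u < ε / C := lt_of_lt_of_le hv (min_le_right _ _)
  have hne : ∀ ζ ∈ W, r0 ≤ ‖f^[n] ζ - w0‖ := by
    intro ζ hζ
    have h1 := h n ζ hζ
    rw [mem_ball, dist_eq_norm, not_lt] at h1
    exact h1
  have hne' : ∀ ζ ∈ W, f^[n] ζ - w0 ≠ 0 := fun ζ hζ => norm_pos_iff.1 (lt_of_lt_of_le hr0 (hne ζ hζ))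
  set g : ℂ → ℂ := fun ζ => (f^[n] ζ - w0)⁻¹ with hg
  have hgd : DifferentiableOn ℂ g (ball u η) := by
    intro ζ hζ
    exact (((hf.iterate n) ζ).sub_const w0).inv (hne' ζ (hb hζ)) |>.differentiableWithinAt
  have hgb : ∀ ζ ∈ W, ‖g ζ‖ ≤ 1 / r0 := by
    intro ζ hζ
    rw [hg]
    show ‖(f^[n] ζ - w0)⁻¹‖ ≤ _
    rw [norm_inv, inv_eq_one_div]
    exact one_div_le_one_div_of_le hr0 (hne ζ hζ)
  have hmaps : MapsTo g (ball u η) (ball (g u) (3 / r0)) := by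
    intro ζ hζ
    rw [mem_ball, dist_eq_norm]
    have h1 := norm_sub_le (g ζ) (g u)
    have h2 := hgb ζ (hb hζ)
    have h3 := hgb u hu
    have h4 : 1 / r0 + 1 / r0 < 3 / r0 := by
      rw [← add_div, div_lt_div_iff_of_pos_right hr0]; norm_num
    linarith
  have key := Complex.dist_le_div_mul_dist_of_mapsTo_ball hgd
    (hmaps.mono_right ball_subset_closedBall) hv1
  have h1 := chord_inv (x := f^[n] v) (y := f^[n] u) (w := w0) (sub_ne_zero.1 (hne' v (hb hv1)))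
    (sub_ne_zero.1 (hne' u hu))
  rw [dist_eq_norm] at key
  calc chord (f^[n] v) (f^[n] u) ≤ (1 + ‖w0‖) ^ 2 * ‖g v - g u‖ := h1
    _ ≤ (1 + ‖w0‖) ^ 2 * (3 / r0 / η * dist v u) := by gcongr
    _ = C * dist v u := by rw [hC]; ring
    _ < C * (ε / C) := by gcongr
    _ = ε := by field_simp

/-- local attraction -/
theorem loc {g : ℂ → ℂ} {w : ℂ} (hg : DifferentiableAt ℂ g w) (hw : g w = w) (h : ‖deriv g w‖ < 1) :
    ∃ r : ℝ, 0 < r ∧ ∀ z ∈ closedBall w r, g z ∈ closedBall w r ∧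
      Tendsto (fun k : ℕ => g^[k] z) atTop (𝓝 w) := by
  obtain ⟨κ, hκ1, hκ2⟩ := exists_between h
  have hκ0 : 0 ≤ κ := (norm_nonneg _).trans hκ1.le
  have h1 := (hasDerivAt_iff_isLittleO.1 hg.hasDerivAt).def (sub_pos.2 hκ1)
  obtain ⟨r, hr, hb⟩ := Metric.eventually_nhds_iff_ball.1 h1
  have hc : ∀ z ∈ ball w r, ‖g z - w‖ ≤ κ * ‖z - w‖ := by
    intro z hz
    have h2 := hb z hz
    rw [hw] at h2
    calc ‖g z - w‖ = ‖(g z - w - (z - w) • deriv g w) + (z - w) • deriv g w‖ := by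
          rw [sub_add_cancel]
      _ ≤ ‖g z - w - (z - w) • deriv g w‖ + ‖(z - w) • deriv g w‖ := norm_add_le _ _
      _ ≤ (κ - ‖deriv g w‖) * ‖z - w‖ + ‖z - w‖ * ‖deriv g w‖ := by
          gcongr
          rw [norm_smul]
      _ = κ * ‖z - w‖ := by ring
  have hsub : closedBall w (r / 2) ⊆ ball w r := closedBall_subset_ball (by linarith)
  have hmap : ∀ z ∈ closedBall w (r / 2), g z ∈ closedBall w (r / 2) := by
    intro z hz
    have h2 := hc z (hsub hz)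
    rw [mem_closedBall, dist_eq_norm] at hz ⊢
    nlinarith [norm_nonneg (z - w)]
  refine ⟨r / 2, by positivity, fun z hz => ⟨hmap z hz, ?_⟩⟩
  have hk : ∀ k : ℕ, ‖g^[k] z - w‖ ≤ κ ^ k * ‖z - w‖ ∧ g^[k] z ∈ closedBall w (r / 2) := by
    intro k
    induction k with
    | zero => exact ⟨by simp, hz⟩
    | succ k ih =>
      rw [Function.iterate_succ_apply']
      have h2 := hc _ (hsub ih.2)
      have h3 : ‖g (g^[k] z) - w‖ ≤ κ ^ (k + 1) * ‖z - w‖ := by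
        refine h2.trans ?_
        rw [pow_succ', mul_assoc]
        exact mul_le_mul_of_nonneg_left ih.1 hκ0
      exact ⟨h3, hmap _ ih.2⟩
  rw [tendsto_iff_norm_sub_tendsto_zero]
  refine squeeze_zero (fun _ => norm_nonneg _) (fun k => (hk k).1) ?_
  have h4 := (tendsto_pow_atTop_nhds_zero_of_lt_one hκ0 hκ2).mul_const ‖z - w‖
  rwa [zero_mul] at h4

theorem attr_succ {z : ℂ} : Attr f (f z) ↔ Attr f z := by
  constructor
  · rintro ⟨n, w, j, hn, hw, hd, hj⟩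
    exact ⟨n, w, j + 1, hn, hw, hd, hj⟩
  · rintro ⟨n, w, j, hn, hw, hd, hj⟩
    refine ⟨n, w, n + j - 1, hn, hw, hd, ?_⟩
    have h1 := hj.comp (tendsto_add_atTop_nat 1)
    refine h1.congr fun k => ?_
    show f^[n * (k + 1) + j] z = f^[n * k + (n + j - 1)] (f z)
    rw [← Function.iterate_succ_apply]
    congr 1
    rw [mul_add, mul_one]
    omega

theorem attr_iter {z : ℂ} (m : ℕ) : Attr f (f^[m] z) ↔ Attr f z := by
  induction m with
  | zero => exact Iff.rfl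
  | succ m ih => rw [Function.iterate_succ_apply', attr_succ, ih]

/-- the compact set swept by a trapped disc -/
def swept (f : ℂ → ℂ) (n : ℕ) (w : ℂ) (r : ℝ) : Set ℂ :=
  ⋃ i ∈ Finset.range n, (f^[i]) '' closedBall w r

theorem swept_compact (hf : Continuous f) (n : ℕ) (w : ℂ) (r : ℝ) : IsCompact (swept f n w r) :=
  (Finset.range n).isCompact_biUnion fun i _ => (isCompact_closedBall w r).image (hf.iterate i)

theorem trap {n : ℕ} (hn : 0 < n) {w : ℂ} {r : ℝ}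
    (hmap : ∀ u ∈ closedBall w r, f^[n] u ∈ closedBall w r) {u : ℂ} (hu : u ∈ closedBall w r)
    (k : ℕ) : f^[k] u ∈ swept f n w r := by
  have h1 : f^[n * (k / n)] u ∈ closedBall w r := by
    rw [Function.iterate_mul]
    have : MapsTo (f^[n]) (closedBall w r) (closedBall w r) := hmap
    exact this.iterate (k / n) hu
  unfold swept
  rw [mem_iUnion₂]
  refine ⟨k % n, Finset.mem_range.2 (Nat.mod_lt _ hn), f^[n * (k / n)] u, h1, ?_⟩
  rw [← Function.iterate_add_apply, Nat.mod_add_div]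

theorem attr_of_ball {n : ℕ} (hn : 0 < n) {w : ℂ} (hw : f^[n] w = w) (hd : ‖deriv (f^[n]) w‖ < 1)
    {r : ℝ} (hr : ∀ z ∈ closedBall w r, f^[n] z ∈ closedBall w r ∧
      Tendsto (fun k : ℕ => (f^[n])^[k] z) atTop (𝓝 w)) {z : ℂ} {m : ℕ}
    (hz : f^[m] z ∈ closedBall w r) : Attr f z := by
  refine ⟨n, w, m, hn, hw, hd, ((hr _ hz).2).congr fun k => ?_⟩
  rw [← Function.iterate_mul, ← Function.iterate_add_apply]

theorem attr_open (hf : Differentiable ℂ f) : IsOpen {z | Attr f z} := by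
  rw [isOpen_iff_mem_nhds]
  rintro z ⟨n, w, j, hn, hw, hd, hj⟩
  obtain ⟨r, hr, h⟩ := loc ((hf.iterate n) w) hw hd
  obtain ⟨k, hk⟩ := (hj.eventually (ball_mem_nhds w hr)).exists
  have h1 : (f^[n * k + j]) ⁻¹' ball w r ∈ 𝓝 z :=
    (isOpen_ball.preimage (hf.continuous.iterate _)).mem_nhds hk
  filter_upwards [h1] with z' hz'
  exact attr_of_ball hn hw hd h (ball_subset_closedBall hz')

/-- orbits attracted by attracting cycles stay in compact subsets of the basins -/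
theorem orbit_compact (hf : Differentiable ℂ f) {z : ℂ} (h : Attr f z) :
    ∃ V, IsCompact V ∧ V ⊆ {z | Attr f z} ∧ ∀ᶠ u in 𝓝 z, ∀ k, f^[k] u ∈ V := by
  obtain ⟨n, w, j, hn, hw, hd, hj⟩ := h
  obtain ⟨r, hr, h⟩ := loc ((hf.iterate n) w) hw hd
  obtain ⟨k, hk⟩ := (hj.eventually (ball_mem_nhds w hr)).exists
  have h1 : (f^[n * k + j]) ⁻¹' ball w r ∈ 𝓝 z :=
    (isOpen_ball.preimage (hf.continuous.iterate _)).mem_nhds hk
  obtain ⟨δ, hδ, hb⟩ := Metric.nhds_basis_closedBall.mem_iff.1 h1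
  obtain ⟨m, hm⟩ : ∃ m, m = n * k + j := ⟨_, rfl⟩
  rw [← hm] at hb
  have hmap : ∀ u ∈ closedBall w r, f^[n] u ∈ closedBall w r := fun u hu => (h u hu).1
  refine ⟨swept f n w r ∪ ⋃ i ∈ Finset.range m, (f^[i]) '' closedBall z δ,
    (swept_compact hf.continuous n w r).union ((Finset.range m).isCompact_biUnion fun i _ =>
      (isCompact_closedBall z δ).image (hf.continuous.iterate i)), ?_, ?_⟩
  · rintro x (hx | hx)
    · unfold swept at hx
      rw [mem_iUnion₂] at hx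
      obtain ⟨i, -, y, hy, rfl⟩ := hx
      show Attr f (f^[i] y)
      rw [attr_iter]
      exact attr_of_ball (m := 0) hn hw hd h hy
    · rw [mem_iUnion₂] at hx
      obtain ⟨i, -, y, hy, rfl⟩ := hx
      show Attr f (f^[i] y)
      rw [attr_iter]
      exact attr_of_ball hn hw hd h (ball_subset_closedBall (hb hy))
  · filter_upwards [closedBall_mem_nhds z hδ] with u hu i
    by_cases hi : i < m
    · right
      rw [mem_iUnion₂]
      exact ⟨i, Finset.mem_range.2 hi, u, hu, rfl⟩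
    · left
      have e : f^[i] u = f^[i - m] (f^[m] u) := by
        rw [← Function.iterate_add_apply, Nat.sub_add_cancel (not_lt.1 hi)]
      rw [e]
      exact trap hn hmap (ball_subset_closedBall (hb hu)) _

theorem attr_fatou (hf : Differentiable ℂ f) {z : ℂ} (h : Attr f z) : z ∈ fatou f := by
  obtain ⟨V, hV, -, hev⟩ := orbit_compact hf h
  obtain ⟨δ, hδ, hb⟩ := Metric.eventually_nhds_iff_ball.1 hev
  obtain ⟨M, hM⟩ := hV.isBounded.exists_norm_le
  refine montel hf isOpen_ball (w0 := ((|M| + 2 : ℝ) : ℂ)) (r0 := 1) one_pos (fun n ζ hζ hmem => ?_)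
    (mem_ball_self hδ)
  have h1 := hM _ (hb ζ hζ n)
  rw [mem_ball, dist_eq_norm, norm_sub_rev] at hmem
  have h2 := norm_sub_norm_le ((|M| + 2 : ℝ) : ℂ) (f^[n] ζ)
  rw [Complex.norm_real, Real.norm_of_nonneg (by positivity)] at h2
  have := le_abs_self M
  linarith

end Pool.Agent.Helper34.EF
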