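import Pool.Agent.Helper34.EF.Null
import Pool.Agent.Helper34.EF.Dist
import Pool.Graph.R_seed8.Helper242.RK.Log

/-!
# Julia sets of hyperbolic maps of the families have area zero
-/

set_option autoImplicit false

open Filter Topology Metric Set MeasureTheory

namespace Pool.Agent.Helper34.EF

variable {q : ℕ} {α : ℂ} {F : ℂ → ℂ} {A S : Set ℂ} {K : ℝ}

/-- a function whose logarithmic derivative is bounded where it is large stays large -/
theorem stay {F : ℂ → ℂ} (hF : Differentiable ℂ F) {a w : ℂ} {B T : ℝ} (hB : 0 ≤ B) (hT : 0 < T)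
    (h : ∀ ζ ∈ segment ℝ a w, T ≤ ‖F ζ‖ → ‖deriv F ζ‖ ≤ B * ‖F ζ‖)
    (ha : T * Real.exp (B * ‖w - a‖) < ‖F a‖) : T < ‖F w‖ := by
  by_contra hcon
  rw [not_lt] at hcon
  set ψ : ℝ → ℂ := fun t => F (a + (t : ℂ) * (w - a)) with hψ
  have hcont : Continuous ψ := by
    refine hF.continuous.comp ?_
    fun_prop
  set Z : Set ℝ := Icc 0 1 ∩ {t | ‖ψ t‖ ≤ T} with hZ
  have hZc : IsCompact Z := isCompact_Icc.inter_right (isClosed_le hcont.norm continuous_const)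
  have h1Z : (1 : ℝ) ∈ Z := by
    refine ⟨⟨zero_le_one, le_refl _⟩, ?_⟩
    show ‖F (a + ((1 : ℝ) : ℂ) * (w - a))‖ ≤ T
    rw [Complex.ofReal_one, one_mul, add_sub_cancel]
    exact hcon
  obtain ⟨t, htZ, hmin⟩ := hZc.exists_isLeast ⟨1, h1Z⟩
  have hψ0 : ψ 0 = F a := by simp [hψ]
  have hexp : 1 ≤ Real.exp (B * ‖w - a‖) := Real.one_le_exp (by positivity)
  have ht0 : 0 < t := by
    rcases htZ.1.1.eq_or_lt with h0 | h0
    · exfalso
      have h2 : ‖ψ t‖ ≤ T := htZ.2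
      rw [← h0, hψ0] at h2
      nlinarith
    · exact h0
  have hbelow : ∀ s, 0 ≤ s → s < t → T < ‖ψ s‖ := by
    intro s h2 h3
    by_contra h4
    rw [not_lt] at h4
    exact absurd (hmin ⟨⟨h2, h3.le.trans htZ.1.2⟩, h4⟩) (not_le.2 h3)
  have hTt : T ≤ ‖ψ t‖ := by
    have h2 : Tendsto (fun s => ‖ψ s‖) (𝓝[<] t) (𝓝 ‖ψ t‖) :=
      (hcont.norm.tendsto t).mono_left nhdsWithin_le_nhds
    refine ge_of_tendsto h2 ?_
    filter_upwards [Ioo_mem_nhdsLT ht0] with s hs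
    exact (hbelow s hs.1.le hs.2).le
  have hder : ∀ s : ℝ, HasDerivAt (fun s : ℝ => F (a + ((t - s : ℝ) : ℂ) * (w - a)))
      (deriv F (a + ((t - s : ℝ) : ℂ) * (w - a)) * (-(w - a))) s := by
    intro s
    have h2 : HasDerivAt (fun s : ℝ => a + ((t - s : ℝ) : ℂ) * (w - a)) (-(w - a)) s := by
      have h3 : HasDerivAt (fun s : ℝ => ((t - s : ℝ) : ℂ)) (-1 : ℂ) s := by
        have h4 : HasDerivAt (fun s : ℝ => t - s) (-1) s := by
          simpa using (hasDerivAt_id s).const_sub t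
        have := h4.ofReal_comp
        simpa using this
      have h5 := (h3.mul_const (w - a)).const_add a
      simpa using h5
    exact (hF _).hasDerivAt.comp_of_eq s h2 rfl
  have hg := norm_le_gronwallBound_of_norm_deriv_right_le
    (f := fun s : ℝ => F (a + ((t - s : ℝ) : ℂ) * (w - a))) (δ := T) (K := B * ‖w - a‖) (ε := 0)
    (a := 0) (b := t) (fun s _ => (hder s).continuousAt.continuousWithinAt)
    (fun s _ => (hder s).hasDerivWithinAt) (by
      have h2 : ‖ψ t‖ ≤ T := htZ.2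
      simpa [hψ] using h2) (fun s hs => by
      rw [norm_mul, norm_neg, add_zero]
      have h2 : T ≤ ‖F (a + ((t - s : ℝ) : ℂ) * (w - a))‖ := by
        rcases hs.1.eq_or_lt with h0 | h0
        · rw [← h0, sub_zero]; exact hTt
        · exact (hbelow (t - s) (by linarith [hs.2]) (by linarith)).le
      have h3 : a + ((t - s : ℝ) : ℂ) * (w - a) ∈ segment ℝ a w := by
        rw [segment_eq_image']
        refine ⟨t - s, ⟨by linarith [hs.2], by linarith [hs.1, htZ.1.2]⟩, ?_⟩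
        show a + (t - s) • (w - a) = _
        rw [Complex.real_smul]
      have h4 := h _ h3 h2
      calc _ ≤ B * ‖F (a + ((t - s : ℝ) : ℂ) * (w - a))‖ * ‖w - a‖ := by gcongr
        _ = _ := by ring) t (right_mem_Icc.2 ht0.le)
  rw [gronwallBound_ε0] at hg
  simp only [sub_self, Complex.ofReal_zero, zero_mul, add_zero, sub_zero] at hg
  have h5 : Real.exp (B * ‖w - a‖ * t) ≤ Real.exp (B * ‖w - a‖) := by
    apply Real.exp_le_exp.2
    have := htZ.1.2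
    have h6 : 0 ≤ B * ‖w - a‖ := by positivity
    nlinarith
  nlinarith

/-- around far points with far images the basins have definite density -/
theorem frac_far (hS : Sys q α F A S K) (c : ℂ)
    (hattr : ∀ s ∈ S, Attr (fun z => F z + c) (c + s)) :
    ∃ X : ℝ, ∀ a : ℂ, X ≤ ‖a‖ → X ≤ ‖F a + c‖ → ∃ r : ℝ, 0 < r ∧ r ≤ 1000 / (q * ‖α‖) ∧
      ENNReal.ofReal (1 / (1500 * K) * r ^ 2) ≤ volume (ball a r ∩ {w | Attr (fun z => F z + c) w}) := by
  have hq1 := hS.q1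
  have hqr : (1 : ℝ) ≤ q := by exact_mod_cast hq1
  have hα : 0 < ‖α‖ := norm_pos_iff.2 hS.α0
  have hK := hS.K1
  obtain ⟨f, hf⟩ : ∃ f : ℂ → ℂ, f = fun z => F z + c := ⟨_, rfl⟩
  rw [← hf] at hattr ⊢
  have hfd : Differentiable ℂ f := by rw [hf]; exact hS.diff.add_const c
  have hfz : ∀ z, f z = F z + c := fun z => by rw [hf]
  have hfder : ∀ z, deriv f z = deriv F z := fun z => by rw [hf, deriv_add_const]
  obtain ⟨a0, ha0⟩ := hS.Ane
  obtain ⟨θ, hθ⟩ := hS.deep a0 ha0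
  obtain ⟨η0, hη0, hball⟩ := Metric.isOpen_iff.1 (attr_open hfd) (c + a0) (hattr a0 (hS.AS ha0))
  obtain ⟨σ, hσ⟩ : ∃ σ : ℝ, σ = 1000 / (q * ‖α‖) := ⟨_, rfl⟩
  have hσ0 : 0 < σ := by rw [hσ]; positivity
  obtain ⟨T, hT⟩ : ∃ T : ℝ, T = 200 * (‖c‖ + 1) + K + 2 * K / η0 + 1 := ⟨_, rfl⟩
  have hc0 : 0 ≤ ‖c‖ := norm_nonneg c
  have hKη : 0 < 2 * K / η0 := by positivity
  have hT0 : 0 < T := by rw [hT]; positivity
  obtain ⟨X, hX⟩ : ∃ X : ℝ, X = 1 + 2 * K + 100 * σ + 8 * q * 2 ^ q * σ + (T * Real.exp (2 ^ q * 1000) + ‖c‖ + 1) :=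
    ⟨_, rfl⟩
  have hp1 : 0 < T * Real.exp (2 ^ q * 1000) := by positivity
  have hp2 : 0 ≤ 8 * (q : ℝ) * 2 ^ q * σ := by positivity
  refine ⟨X, fun a ha hfa => ?_⟩
  have ha1 : 1 ≤ ‖a‖ := by linarith
  have ha0' : 0 < ‖a‖ := by linarith
  have haq : 1 ≤ ‖a‖ ^ (q - 1) := one_le_pow₀ ha1
  have haq0 : 0 < ‖a‖ ^ (q - 1) := by linarith
  obtain ⟨r, hr⟩ : ∃ r : ℝ, r = σ / ‖a‖ ^ (q - 1) := ⟨_, rfl⟩
  have hr0 : 0 < r := by rw [hr]; positivity
  have hrσ : r ≤ σ := by rw [hr]; exact div_le_self hσ0.le haq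
  refine ⟨r, hr0, by rw [← hσ]; exact hrσ, ?_⟩
  -- points of the disc
  have hw : ∀ w ∈ ball a r, K ≤ ‖w‖ ∧ ‖w‖ ≤ 2 * ‖a‖ := by
    intro w hw
    rw [mem_ball, dist_eq_norm] at hw
    have h1 := norm_sub_norm_le a w
    have h2 := norm_sub_norm_le w a
    rw [norm_sub_rev] at h1
    constructor <;> linarith
  have hFa : T * Real.exp (2 ^ q * 1000) < ‖F a‖ := by
    have h1 := norm_add_le (F a) c
    linarith
  have hbig : ∀ w ∈ ball a r, T < ‖F w‖ := by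
    intro w hwb
    refine stay hS.diff (a := a) (B := 2 * (q * ‖α‖ * (2 * ‖a‖) ^ (q - 1))) (by positivity) hT0 ?_ ?_
    · intro ζ hζ h1
      have hζb : ζ ∈ ball a r := (convex_ball a r).segment_subset (mem_ball_self hr0) hwb hζ
      obtain ⟨h2, h3⟩ := hw ζ hζb
      have h4 := hS.far ζ h2 (by linarith)
      have e : ‖q * α * ζ ^ (q - 1) * F ζ‖ = q * ‖α‖ * ‖ζ‖ ^ (q - 1) * ‖F ζ‖ := by
        rw [norm_mul, norm_mul, norm_mul, norm_pow, Complex.norm_natCast]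
      rw [e] at h4
      have h5 := norm_sub_norm_le (deriv F ζ) (q * α * ζ ^ (q - 1) * F ζ)
      rw [e] at h5
      have h6 : q * ‖α‖ * ‖ζ‖ ^ (q - 1) * ‖F ζ‖ ≤ q * ‖α‖ * (2 * ‖a‖) ^ (q - 1) * ‖F ζ‖ := by gcongr
      have h7 : 0 ≤ q * ‖α‖ * (2 * ‖a‖) ^ (q - 1) * ‖F ζ‖ := by positivity
      linarith
    · refine lt_of_le_of_lt ?_ hFa
      apply mul_le_mul_of_nonneg_left _ hT0.le
      apply Real.exp_le_exp.2
      rw [mem_ball, dist_eq_norm] at hwb
      have e1 : (2 : ℝ) ^ q = 2 * 2 ^ (q - 1) := by rw [← pow_succ']; congr 1; omega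
      calc 2 * (q * ‖α‖ * (2 * ‖a‖) ^ (q - 1)) * ‖w - a‖ ≤ 2 * (q * ‖α‖ * (2 * ‖a‖) ^ (q - 1)) * r := by
            gcongr
        _ = 2 ^ q * 1000 := by
            rw [hr, hσ, mul_pow, e1]
            field_simp
  have hfw : ∀ w ∈ ball a r, T - ‖c‖ < ‖f w‖ ∧ 199 / 200 * ‖F w‖ ≤ ‖f w‖ ∧ 200 * ‖c‖ ≤ ‖F w‖ := by
    intro w hwb
    have h1 := hbig w hwb
    have h2 : ‖F w‖ - ‖c‖ ≤ ‖f w‖ := by
      rw [hfz]
      have := norm_sub_norm_le (F w) (-c)
      rwa [norm_neg, sub_neg_eq_add] at this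
    have h3 : 200 * ‖c‖ ≤ ‖F w‖ := by linarith
    exact ⟨by linarith, by linarith, h3⟩
  have hfne : ∀ w ∈ ball a r, f w ≠ 0 := by
    intro w hwb h0
    obtain ⟨h1, -, -⟩ := hfw w hwb
    rw [h0, norm_zero] at h1
    linarith
  obtain ⟨L, hLd, hLe⟩ := Pool.Agent.Helper242.RK.exists_log (convex_ball a r) isOpen_ball
    ⟨a, mem_ball_self hr0⟩ hfd.differentiableOn hfne
  have hLder : ∀ w ∈ ball a r, HasDerivAt L (deriv L w) w := fun w hwb =>
    ((hLd w hwb).differentiableAt (isOpen_ball.mem_nhds hwb)).hasDerivAt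
  have hrel : ∀ w ∈ ball a r, f w * deriv L w = deriv F w := by
    intro w hwb
    have h1 := (hLder w hwb).cexp
    have h2 : (fun x => Complex.exp (L x)) =ᶠ[𝓝 w] f := by
      filter_upwards [isOpen_ball.mem_nhds hwb] with x hx
      exact hLe x hx
    have h3 := h1.congr_of_eventuallyEq h2.symm
    rw [hLe w hwb] at h3
    rw [← hfder]
    exact h3.deriv.symm
  obtain ⟨Λ', hΛ'⟩ : ∃ Λ' : ℂ, Λ' = q * α * a ^ (q - 1) := ⟨_, rfl⟩
  have hΛn : ‖Λ'‖ = q * ‖α‖ * ‖a‖ ^ (q - 1) := by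
    rw [hΛ', norm_mul, norm_mul, norm_pow, Complex.norm_natCast]
  have hΛ0 : 0 < ‖Λ'‖ := by rw [hΛn]; positivity
  have hn : ∀ w ∈ ball a r, ‖deriv L w - Λ'‖ ≤ 1 / 2 * ‖Λ'‖ := by
    intro w hwb
    obtain ⟨h1, h2, h3⟩ := hfw w hwb
    obtain ⟨h4, h5⟩ := hw w hwb
    have h6 := hbig w hwb
    have hf0 : 0 < ‖f w‖ := norm_pos_iff.2 (hfne w hwb)
    obtain ⟨M, hM⟩ : ∃ M : ℂ, M = q * α * w ^ (q - 1) := ⟨_, rfl⟩
    have h7 := hS.far w h4 (by linarith)
    rw [← hM, norm_mul] at h7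
    have h8 : ‖deriv L w - M‖ ≤ 1 / 100 * ‖M‖ := by
      have e1 : f w * (deriv L w - M) = (deriv F w - M * F w) - M * c := by
        rw [mul_sub, hrel w hwb, hfz w]; ring
      have h9 : ‖f w‖ * ‖deriv L w - M‖ ≤ ‖M‖ * (1 / 1000 * ‖F w‖ + ‖c‖) := by
        rw [← norm_mul, e1]
        refine (norm_sub_le _ _).trans ?_
        rw [norm_mul]
        linarith
      have h10 : 1 / 1000 * ‖F w‖ + ‖c‖ ≤ 1 / 100 * ‖f w‖ := by linarith
      have h11 : ‖f w‖ * ‖deriv L w - M‖ ≤ ‖f w‖ * (1 / 100 * ‖M‖) := by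
        calc _ ≤ ‖M‖ * (1 / 1000 * ‖F w‖ + ‖c‖) := h9
          _ ≤ ‖M‖ * (1 / 100 * ‖f w‖) := by gcongr
          _ = _ := by ring
      exact le_of_mul_le_mul_left h11 hf0
    have h9 : ‖M - Λ'‖ ≤ 1 / 8 * ‖Λ'‖ := by
      have e1 : M - Λ' = q * α * (w ^ (q - 1) - a ^ (q - 1)) := by rw [hM, hΛ']; ring
      rw [e1, norm_mul, norm_mul, Complex.norm_natCast, hΛn]
      have h10 : ‖w ^ (q - 1) - a ^ (q - 1)‖ ≤ 1 / 8 * ‖a‖ ^ (q - 1) := by
        rcases Nat.lt_or_ge q 2 with hq2 | hq2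
        · have : q - 1 = 0 := by omega
          rw [this, pow_zero, pow_zero, sub_self, norm_zero]
          norm_num
        · obtain ⟨k, rfl⟩ : ∃ k, q = k + 2 := ⟨q - 2, by omega⟩
          have h11 := pow_sub_le (k + 1) (z := a) (w := w) (R := 2 * ‖a‖) (by linarith) h5
          rw [Nat.add_sub_cancel] at h11
          rw [show k + 2 - 1 = k + 1 by omega]
          refine h11.trans ?_
          rw [mem_ball, dist_eq_norm] at hwb
          have h12 : 8 * ((k + 2 : ℕ) : ℝ) * 2 ^ (k + 2) * σ ≤ ‖a‖ := by linarith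
          have h13 : ((k + 1 : ℕ) : ℝ) ≤ ((k + 2 : ℕ) : ℝ) := by push_cast; linarith
          calc ((k + 1 : ℕ) : ℝ) * (2 * ‖a‖) ^ k * ‖w - a‖ ≤ ((k + 2 : ℕ) : ℝ) * (2 * ‖a‖) ^ k * σ := by
                gcongr
                exact hwb.le.trans hrσ
            _ = 1 / 32 * (8 * ((k + 2 : ℕ) : ℝ) * 2 ^ (k + 2) * σ) * ‖a‖ ^ k := by
                rw [mul_pow, pow_add]; ring
            _ ≤ 1 / 32 * ‖a‖ * ‖a‖ ^ k := by gcongr
            _ ≤ 1 / 8 * ‖a‖ ^ (k + 1) := by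
                rw [pow_succ]
                have : 0 ≤ ‖a‖ ^ k * ‖a‖ := by positivity
                linarith
      calc q * ‖α‖ * ‖w ^ (q - 1) - a ^ (q - 1)‖ ≤ q * ‖α‖ * (1 / 8 * ‖a‖ ^ (q - 1)) := by gcongr
        _ = _ := by ring
    have h10 := norm_sub_norm_le M Λ'
    have h11 := norm_sub_le_norm_sub_add_norm_sub (deriv L w) M Λ'
    linarith
  have hlow := near_low (c := a) (r := r) (θ := θ) (η := 1 / K) (Λ := Λ') (H := L) (H' := deriv L) hr0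
    (by positivity) (by rw [div_le_one (by linarith)]; exact hK) (by
      rw [hΛn, hr, hσ]
      apply le_of_eq
      field_simp) hLder hn
  have e2 : 1 / K * r ^ 2 / 1500 = 1 / (1500 * K) * r ^ 2 := by field_simp
  rw [e2] at hlow
  refine hlow.trans (measure_mono ?_)
  rintro x ⟨hx1, k, y, hy, him⟩
  have hxb : x ∈ ball a r := closedBall_subset_ball (by linarith) hx1
  refine ⟨hxb, ?_⟩
  obtain ⟨h1, h2, h3⟩ := hfw x hxb
  have hfx : f x = ‖f x‖ * Complex.exp ((θ + y : ℝ) * Complex.I) := by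
    have e3 : f x = Complex.exp (L x) := (hLe x hxb).symm
    have e4 : L x = ((L x).re : ℂ) + (((θ + y : ℝ) : ℂ) * Complex.I) + k * (2 * Real.pi * Complex.I) := by
      conv_lhs => rw [← Complex.re_add_im (L x), him]
      push_cast
      ring
    have e5 : ‖f x‖ = Real.exp (L x).re := by rw [e3, Complex.norm_exp]
    rw [e5, e3]
    conv_lhs => rw [e4]
    rw [Complex.exp_periodic.int_mul k, Complex.exp_add, Complex.ofReal_exp]
  obtain ⟨h4, h5⟩ := hθ (f x) y hy (by linarith) hfx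
  have h6 : 1 ≤ ‖f x‖ := by linarith
  have h7 : ‖f x‖ ≤ ‖f x‖ ^ q := le_self_pow₀ h6 (by omega)
  have h8 : Real.exp (uu q α (f x) / 2) < η0 := by
    have h9 : uu q α (f x) / 2 ≤ -(‖f x‖ / (2 * K)) := by
      have h10 : ‖f x‖ / K ≤ ‖f x‖ ^ q / K := by gcongr
      have h11 : ‖f x‖ / (2 * K) = ‖f x‖ / K / 2 := by field_simp
      rw [h11]
      linarith
    have h10 : 1 / η0 ≤ ‖f x‖ / (2 * K) := by
      rw [div_le_div_iff₀ hη0 (by positivity)]
      have h11 : 2 * K / η0 ≤ ‖f x‖ := by linarith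
      rw [div_le_iff₀ hη0] at h11
      linarith
    have h11 : 1 / η0 < Real.exp (‖f x‖ / (2 * K)) := by
      have := Real.add_one_le_exp (‖f x‖ / (2 * K))
      linarith
    calc Real.exp (uu q α (f x) / 2) ≤ Real.exp (-(‖f x‖ / (2 * K))) := Real.exp_le_exp.2 h9
      _ = 1 / Real.exp (‖f x‖ / (2 * K)) := by rw [Real.exp_neg, one_div]
      _ < 1 / (1 / η0) := one_div_lt_one_div_of_lt (by positivity) h11
      _ = η0 := one_div_one_div η0
  have h9 : f (f x) ∈ ball (c + a0) η0 := by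
    rw [mem_ball, dist_eq_norm, hfz (f x)]
    have : F (f x) + c - (c + a0) = F (f x) - a0 := by ring
    rw [this]
    exact lt_of_le_of_lt h5 h8
  have h10 : Attr f (f (f x)) := hball h9
  exact attr_succ.1 (attr_succ.1 h10)

/-- **Hyperbolic maps of the family have Julia sets of area zero.** -/
theorem julia_null (hS : Sys q α F A S K)
    (hlow : ∀ ε : ℝ, 0 < ε → ∃ κ : ℝ, 0 < κ ∧ ∀ z, (∀ s ∈ S, ε ≤ ‖F z - s‖) → κ ≤ ‖deriv F z‖)
    (c : ℂ) (hattr : ∀ s ∈ S, Attr (fun z => F z + c) (c + s)) :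
    volume (julia (fun z => F z + c)) = 0 := by
  obtain ⟨X, hX⟩ := frac_far hS c hattr
  have hqr : (1 : ℝ) ≤ q := by exact_mod_cast hS.q1
  have hα : 0 < ‖α‖ := norm_pos_iff.2 hS.α0
  have hK := hS.K1
  obtain ⟨f, hf⟩ : ∃ f : ℂ → ℂ, f = fun z => F z + c := ⟨_, rfl⟩
  have hfd : Differentiable ℂ f := by rw [hf]; exact hS.diff.add_const c
  have hfz : ∀ z, f z = F z + c := fun z => by rw [hf]
  have hX' : ∀ a : ℂ, X ≤ ‖a‖ → X ≤ ‖f a‖ → ∃ r : ℝ, 0 < r ∧ r ≤ 1000 / (q * ‖α‖) ∧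
      ENNReal.ofReal (1 / (1500 * K) * r ^ 2) ≤ volume (ball a r ∩ {w | Attr f w}) := by
    intro a h1 h2
    rw [hfz] at h2
    rw [hf]
    exact hX a h1 h2
  rw [← hf] at hattr ⊢
  have hH : Hyp f ((fun s => c + s) '' S) := by
    refine ⟨hfd, hS.Sfin.image _, (hS.Ane.mono hS.AS).image _, fun ε hε => ?_, ?_⟩
    · obtain ⟨κ, hκ, h1⟩ := hlow ε hε
      refine ⟨κ, hκ, fun z hz => ?_⟩
      rw [hf, deriv_add_const]
      refine h1 z fun s hs => ?_
      have h2 := hz (c + s) (mem_image_of_mem _ hs)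
      rw [hfz] at h2
      have : F z + c - (c + s) = F z - s := by ring
      rwa [this] at h2
    · rintro _ ⟨s, hs, rfl⟩
      exact hattr s hs
  obtain ⟨Λ, w0, r0, hT⟩ := exists_trap hH
  -- distance from the basins
  obtain ⟨δ, hδ, hth⟩ := hT.cpt.exists_thickening_subset_open (attr_open hfd) hT.sub
  have hdist : ∀ a, ¬ Attr f a → ∀ x ∈ Λ, δ ≤ ‖a - x‖ := by
    intro a ha x hx
    by_contra hcon
    rw [not_le, ← dist_eq_norm] at hcon
    exact ha (hth (mem_thickening_iff.2 ⟨x, hx, hcon⟩))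
  have hJ : ∀ a ∈ julia f, ¬ Attr f a := fun a ha h1 => ha (attr_fatou hfd h1)
  obtain ⟨M, hM⟩ := hT.cpt.isBounded.exists_norm_le
  obtain ⟨Y, hY⟩ : ∃ Y : ℝ, Y = max X (M + 3 * (1000 / (q * ‖α‖))) := ⟨_, rfl⟩
  -- the bounded part
  obtain ⟨ε, hε, hcpt⟩ : ∃ ε : ℝ, 0 < ε ∧ ∀ a ∈ julia f ∩ closedBall 0 Y,
      ENNReal.ofReal ε ≤ volume (ball a (δ / 3) ∩ {w | Attr f w}) := by
    have hcomp : IsCompact (julia f ∩ closedBall 0 Y) :=
      (isCompact_closedBall (0 : ℂ) Y).inter_left (fatou_open f).isClosed_compl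
    refine hcomp.induction_on (p := fun s => ∃ ε : ℝ, 0 < ε ∧ ∀ a ∈ s,
      ENNReal.ofReal ε ≤ volume (ball a (δ / 3) ∩ {w | Attr f w})) ?_ ?_ ?_ ?_
    · exact ⟨1, one_pos, fun a ha => absurd ha (notMem_empty a)⟩
    · rintro s t hst ⟨ε, hε, h1⟩
      exact ⟨ε, hε, fun a ha => h1 a (hst ha)⟩
    · rintro s t ⟨ε, hε, h1⟩ ⟨ε', hε', h2⟩
      refine ⟨min ε ε', lt_min hε hε', ?_⟩
      rintro a (ha | ha)
      · exact (ENNReal.ofReal_le_ofReal (min_le_left _ _)).trans (h1 a ha)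
      · exact (ENNReal.ofReal_le_ofReal (min_le_right _ _)).trans (h2 a ha)
    · intro a ha
      -- a point of the basins near `a`
      have h1 : (ball a (δ / 6) ∩ {w | Attr f w}).Nonempty := by
        by_contra hcon
        rw [not_nonempty_iff_eq_empty] at hcon
        refine ha.1 (montel hfd isOpen_ball (w0 := w0) hT.pos (fun n ζ hζ hmem => ?_)
          (mem_ball_self (by positivity : 0 < δ / 6)))
        have h2 : Attr f (f^[n] ζ) := hT.sub (hT.swp _ hmem 0)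
        have h3 : ζ ∈ ball a (δ / 6) ∩ {w | Attr f w} := ⟨hζ, (attr_iter n).1 h2⟩
        rw [hcon] at h3
        exact h3
      have h2 : 0 < volume (ball a (δ / 6) ∩ {w | Attr f w}) :=
        (isOpen_ball.inter (attr_open hfd)).measure_pos volume h1
      have h3 : volume (ball a (δ / 6) ∩ {w | Attr f w}) ≠ ⊤ :=
        measure_ne_top_of_subset inter_subset_left measure_ball_lt_top.ne
      refine ⟨ball a (δ / 6) ∩ (julia f ∩ closedBall 0 Y), ?_,
        (volume (ball a (δ / 6) ∩ {w | Attr f w})).toReal, ENNReal.toReal_pos h2.ne' h3, ?_⟩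
      · rw [inter_comm (ball a (δ / 6))]
        exact inter_mem_nhdsWithin _ (ball_mem_nhds a (by positivity : (0 : ℝ) < δ / 6))
      · rintro b ⟨hb, -⟩
        rw [ENNReal.ofReal_toReal h3]
        refine measure_mono (inter_subset_inter_left _ ?_)
        intro x hx
        rw [mem_ball] at hx hb ⊢
        rw [dist_comm] at hb
        linarith [dist_triangle x a b]
  obtain ⟨ε', hε'⟩ : ∃ ε' : ℝ, ε' = min (ε / (δ / 3) ^ 2) (1 / (1500 * K)) := ⟨_, rfl⟩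
  have hε'0 : 0 < ε' := by rw [hε']; exact lt_min (by positivity) (by positivity)
  refine null hH hT hε'0 fun z hz m => ?_
  have hzn : ∀ n, f^[n] z ∈ julia f := fun n => julia_iter hfd.continuous hz n
  have hnear : ∀ n, ‖f^[n] z‖ ≤ Y → ∃ r : ℝ, 0 < r ∧ (∀ x ∈ Λ, 3 * r ≤ ‖f^[n] z - x‖) ∧
      ENNReal.ofReal (ε' * r ^ 2) ≤ volume (ball (f^[n] z) r ∩ {w | Attr f w}) := by
    intro n hn
    refine ⟨δ / 3, by positivity, fun x hx => ?_, ?_⟩
    · have := hdist _ (hJ _ (hzn n)) x hx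
      linarith
    · refine le_trans (ENNReal.ofReal_le_ofReal ?_) (hcpt _ ⟨hzn n, by rwa [mem_closedBall_zero_iff]⟩)
      have h1 : ε' ≤ ε / (δ / 3) ^ 2 := by rw [hε']; exact min_le_left _ _
      calc ε' * (δ / 3) ^ 2 ≤ ε / (δ / 3) ^ 2 * (δ / 3) ^ 2 := by gcongr
        _ = ε := by field_simp
  rcases le_or_gt ‖f^[m] z‖ Y with h1 | h1
  · exact ⟨m, le_refl _, hnear m h1⟩
  rcases le_or_gt ‖f^[m + 1] z‖ Y with h2 | h2
  · exact ⟨m + 1, by omega, hnear (m + 1) h2⟩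
  rw [Function.iterate_succ_apply'] at h2
  have hYX : X ≤ Y := by rw [hY]; exact le_max_left _ _
  have hYM : M + 3 * (1000 / (q * ‖α‖)) ≤ Y := by rw [hY]; exact le_max_right _ _
  obtain ⟨r, hr0, hr1, hr2⟩ := hX' (f^[m] z) (hYX.trans h1.le) (hYX.trans h2.le)
  refine ⟨m, le_refl _, r, hr0, fun x hx => ?_, ?_⟩
  · have h3 := hM x hx
    have h4 := norm_sub_norm_le (f^[m] z) x
    linarith
  · refine le_trans (ENNReal.ofReal_le_ofReal ?_) hr2
    have h3 : ε' ≤ 1 / (1500 * K) := by rw [hε']; exact min_le_right _ _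
    gcongr

end Pool.Agent.Helper34.EF
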