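import Pool.Agent.Helper34.EF.Cell2

/-!
# Measure estimates in cells, covering, density
-/

set_option autoImplicit false

open Filter Topology Metric Set MeasureTheory

namespace Pool.Agent.Helper34.EF

variable {q N : ℕ} {α : ℂ} {F : ℂ → ℂ} {A S : Set ℂ} {K B X ρ : ℝ} {c : ℂ}

theorem cr_pos (hC : Cst q N K ‖α‖ B X) (hS : Sys q α F A S K) (hρ : X ≤ ρ) (m : ℕ) :
    0 < cr q ρ B m := by
  have hX := hC.X1 hS
  cases m with
  | zero => exact lt_of_lt_of_le one_pos hC.B0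
  | succ m =>
    have := (tw_ge hC hS hρ m).1
    have h0 : 0 < tw q ρ m := by linarith
    show 0 < 1 / tw q ρ m ^ (2 * q + 10)
    positivity

/-- logarithm of the position as a function of the parameter in a cell -/
theorem cell_log (hS : Sys q α F A S K)
    {s : ℂ} {T : ℕ} {r : ℝ} (hr : 0 < r) {Λ : ℂ}
    (h : ∀ b ∈ ball c r, ob F b (b + s) (T + 1) ≠ 0 ∧
      ‖dD F b s (T + 1) / ob F b (b + s) (T + 1) - Λ‖ ≤ 1 / 50 * ‖Λ‖) :
    ∃ H : ℂ → ℂ, (∀ b ∈ ball c r, Complex.exp (H b) = ob F b (b + s) (T + 1)) ∧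
      ∀ b ∈ ball c r, HasDerivAt H (dD F b s (T + 1) / ob F b (b + s) (T + 1)) b := by
  have hd : ∀ b, HasDerivAt (fun b => ob F b (b + s) (T + 1)) (dD F b s (T + 1)) b := fun b =>
    hasDeriv_ob hS.diff s b (T + 1)
  obtain ⟨L, hL, hLe⟩ := Pool.Agent.Helper242.RK.exists_log (convex_ball c r) isOpen_ball
    ⟨c, mem_ball_self hr⟩ (f := fun b => ob F b (b + s) (T + 1))
    (fun b _ => (hd b).differentiableAt.differentiableWithinAt) (fun b hb => (h b hb).1)
  refine ⟨L, hLe, fun b hb => ?_⟩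
  have h1 : HasDerivAt L (deriv L b) b := ((hL b hb).differentiableAt (isOpen_ball.mem_nhds hb)).hasDerivAt
  have h2 := h1.cexp
  have h3 : HasDerivAt (fun b => ob F b (b + s) (T + 1)) (Complex.exp (L b) * deriv L b) b := by
    refine h2.congr_of_eventuallyEq ?_
    filter_upwards [isOpen_ball.mem_nhds hb] with x hx
    exact (hLe x hx).symm
  have h4 := (hd b).unique h3
  rw [hLe b hb] at h4
  have h5 : deriv L b = dD F b s (T + 1) / ob F b (b + s) (T + 1) := by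
    rw [eq_div_iff (h b hb).1, h4]; ring
  rw [← h5]; exact h1

theorem uu_exp (q : ℕ) (α w L : ℂ) (hL : Complex.exp L = α) :
    uu q α (Complex.exp w) = ‖α‖ * ‖Complex.exp w‖ ^ q * Real.cos ((q * w + L).im) := by
  unfold uu
  rw [← hL, ← Complex.exp_nat_mul, ← Complex.exp_add, Complex.exp_re, Complex.norm_exp, Complex.norm_exp,
    ← Real.exp_nat_mul, ← Real.exp_add]
  congr 1
  · congr 1
    simp only [Complex.add_re, Complex.mul_re, Complex.natCast_re, Complex.natCast_im]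
    ring
  · congr 1
    rw [add_comm]

/-- **the set where the margin fails in a cell** -/
theorem cell_bad (hC : Cst q N K ‖α‖ B X) (hS : Sys q α F A S K) (hρ : X ≤ ρ)
    (hc : Adm q N α K ρ c) {s : ℂ} (hs : s ∈ S) {m T : ℕ}
    (hlev : ∀ r ≤ T, lv q α F c (c + s) r ≤ m) (hT : lv q α F c (c + s) (T + 1) = m + 1)
    (hmg : ∀ r ≤ T, Mg q α ρ (1 / 2) (lv q α F c (c + s) r) (ob F c (c + s) r)) :
    volume (ball c (cr q ρ B m) ∩ {b | ¬ Mg q α ρ 1 (m + 1) (ob F b (b + s) (T + 1))}) ≤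
      ENNReal.ofReal (40 / (‖α‖ * tw q ρ m) * cr q ρ B m ^ 2) := by
  have hX := hC.X1 hS
  have ha := hC.a0
  have hq := hS.q1
  obtain ⟨Λ, hΛ, h⟩ := cell hC hS hρ hc hs hlev hT hmg
  have hr := cr_pos hC hS hρ (B := B) m
  set r := cr q ρ B m with hr'
  obtain ⟨H, hH, hHd⟩ := cell_log hS hr (fun b hb => ⟨(h b hb).2.2.1, (h b hb).2.2.2⟩)
  obtain ⟨L, hL⟩ : ∃ L, Complex.exp L = α := ⟨Complex.log α, Complex.exp_log hS.α0⟩
  have hj := (tw_ge hC hS hρ m).1
  have hx0 : 0 < tw q ρ m := by linarith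
  have hΛ0 : 0 < ‖Λ‖ := by
    by_contra h0
    have : ‖Λ‖ * r ≤ 0 := mul_nonpos_of_nonpos_of_nonneg (not_lt.1 h0) hr.le
    linarith
  have hq0 : (0 : ℝ) < q := by exact_mod_cast hq
  have hqc : (q : ℂ) ≠ 0 := by exact_mod_cast (by omega : q ≠ 0)
  have key := near_up (c := c) (r := r) (δ := 1 / (‖α‖ * tw q ρ m)) (Λ := q * Λ)
    (G := fun b => q * H b + L) (G' := fun b => q * (dD F b s (T + 1) / ob F b (b + s) (T + 1)))
    hr (mul_ne_zero hqc (norm_pos_iff.1 hΛ0)) (by positivity)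
    (fun b hb => ((hHd b hb).const_mul (q : ℂ)).add_const L)
    (fun b hb => by
      rw [← mul_sub, norm_mul, norm_mul]
      have := (h b hb).2.2.2
      have h1 : 0 ≤ ‖(q : ℂ)‖ := norm_nonneg _
      nlinarith [mul_nonneg h1 hΛ0.le])
  refine (measure_mono ?_).trans (key.trans ?_)
  · rintro b ⟨hb, hb2⟩
    refine ⟨hb, ?_⟩
    have hb3 : ¬ (1 * ‖ob F b (b + s) (T + 1)‖ ^ q ≤ tw q ρ m * |uu q α (ob F b (b + s) (T + 1))|) := hb2
    rw [not_le, one_mul, ← hH b hb, uu_exp q α (H b) L hL, abs_mul, abs_mul, abs_of_pos ha,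
      abs_of_nonneg (by positivity : 0 ≤ ‖Complex.exp (H b)‖ ^ q)] at hb3
    have hpos : 0 < ‖Complex.exp (H b)‖ ^ q := by
      rw [Complex.norm_exp]; positivity
    show |Real.cos ((q * H b + L).im)| < 1 / (‖α‖ * tw q ρ m)
    rw [lt_div_iff₀ (by positivity)]
    have h1 : ‖Complex.exp (H b)‖ ^ q * (|Real.cos ((q * H b + L).im)| * (‖α‖ * tw q ρ m)) <
        ‖Complex.exp (H b)‖ ^ q * 1 := by
      calc _ = tw q ρ m * (‖α‖ * ‖Complex.exp (H b)‖ ^ q * |Real.cos ((q * H b + L).im)|) := by ring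
        _ < _ := by rw [mul_one]; exact hb3
    exact lt_of_mul_lt_mul_left h1 hpos.le
  · apply ENNReal.ofReal_le_ofReal
    have h1 : 3 / (‖(q : ℂ) * Λ‖ * r) ≤ 1 / 100 := by
      have h2 : 1000 ≤ ‖(q : ℂ) * Λ‖ * r := by
        rw [norm_mul, Complex.norm_natCast]
        have : (1 : ℝ) ≤ q := by exact_mod_cast hq
        nlinarith [mul_pos hΛ0 hr]
      rw [div_le_div_iff₀ (by linarith) (by norm_num)]
      linarith
    calc 36 * (1 / (‖α‖ * tw q ρ m)) * (r ^ 2 * (1 + 3 / (‖(q : ℂ) * Λ‖ * r)))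
        ≤ 36 * (1 / (‖α‖ * tw q ρ m)) * (r ^ 2 * (1 + 1 / 100)) := by gcongr
      _ = 36.36 * (1 / (‖α‖ * tw q ρ m) * r ^ 2) := by ring
      _ ≤ 40 * (1 / (‖α‖ * tw q ρ m) * r ^ 2) := by gcongr; norm_num
      _ = _ := by ring

/-- **the set where the position is deep in a given small sector** -/
theorem cell_deep (hC : Cst q N K ‖α‖ B X) (hS : Sys q α F A S K) (hρ : X ≤ ρ)
    (hc : Adm q N α K ρ c) {s : ℂ} (hs : s ∈ S) {m T : ℕ}
    (hlev : ∀ r ≤ T, lv q α F c (c + s) r ≤ m) (hT : lv q α F c (c + s) (T + 1) = m + 1)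
    (hmg : ∀ r ≤ T, Mg q α ρ (1 / 2) (lv q α F c (c + s) r) (ob F c (c + s) r)) {a : ℂ} (ha : a ∈ A) :
    ENNReal.ofReal (cr q ρ B m ^ 2 / (1500 * K)) ≤ volume (closedBall c (cr q ρ B m / 2) ∩
      {b | K ≤ ‖ob F b (b + s) (T + 1)‖ → uu q α (ob F b (b + s) (T + 1)) ≤ -(‖ob F b (b + s) (T + 1)‖ ^ q / K) ∧
        ‖F (ob F b (b + s) (T + 1)) - a‖ ≤ Real.exp (uu q α (ob F b (b + s) (T + 1)) / 2)}) := by
  have hX := hC.X1 hS
  have hK := hS.K1
  obtain ⟨Λ, hΛ, h⟩ := cell hC hS hρ hc hs hlev hT hmg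
  have hr := cr_pos hC hS hρ (B := B) m
  set r := cr q ρ B m with hr'
  obtain ⟨H, hH, hHd⟩ := cell_log hS hr (fun b hb => ⟨(h b hb).2.2.1, (h b hb).2.2.2⟩)
  obtain ⟨θ, hθ⟩ := hS.deep a ha
  have hΛ0 : 0 ≤ ‖Λ‖ := norm_nonneg _
  have key := near_low (c := c) (r := r) (θ := θ) (η := 1 / K) (Λ := Λ) (H := H)
    (H' := fun b => dD F b s (T + 1) / ob F b (b + s) (T + 1)) hr (by positivity)
    (by rw [div_le_one (by linarith)]; exact hK) hΛ hHd
    (fun b hb => (h b hb).2.2.2.trans (by linarith))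
  have e : 1 / K * r ^ 2 / 1500 = r ^ 2 / (1500 * K) := by field_simp
  rw [e] at key
  refine key.trans (measure_mono ?_)
  rintro b ⟨hb, k, y, hy, hk⟩
  refine ⟨hb, fun hKb => ?_⟩
  have hb' : b ∈ ball c r := closedBall_subset_ball (by linarith) hb
  refine hθ _ y hy hKb ?_
  rw [← hH b hb', Complex.norm_exp]
  have h1 : H b = (H b).re + (H b).im * Complex.I := (Complex.re_add_im _).symm
  conv_lhs => rw [h1]
  rw [Complex.exp_add, hk, ← Complex.ofReal_exp]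
  congr 1
  have h2 : ((θ + y + k * (2 * Real.pi) : ℝ) : ℂ) * Complex.I =
      ((θ + y : ℝ) : ℂ) * Complex.I + k * (2 * Real.pi * Complex.I) := by push_cast; ring
  rw [h2, Complex.exp_add, Complex.exp_int_mul_two_pi_mul_I, mul_one]

/-- covering by a grid: a set which is thin near each of its points -/
theorem grid {E : Set ℂ} {ρ r σ : ℝ} (hr : 0 < r) (hrρ : r ≤ ρ) (hσ : 0 ≤ σ)
    (hE : E ⊆ closedBall 0 ρ)
    (h : ∀ x ∈ E, volume (E ∩ ball x r) ≤ ENNReal.ofReal (σ * r ^ 2)) :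
    volume E ≤ ENNReal.ofReal (100 * σ * ρ ^ 2) := by
  have hρ0 : 0 ≤ ρ := hr.le.trans hrρ
  obtain ⟨n, hn⟩ : ∃ n : ℕ, n = ⌈2 * ρ / r⌉₊ := ⟨_, rfl⟩
  have hn1 : 2 * ρ / r ≤ n := by rw [hn]; exact Nat.le_ceil _
  have hn2 : (n : ℝ) < 2 * ρ / r + 1 := by
    rw [hn]; exact Nat.ceil_lt_add_one (by positivity)
  set I : Finset (ℤ × ℤ) := (Finset.Icc (-(n : ℤ)) n) ×ˢ (Finset.Icc (-(n : ℤ)) n) with hI
  set Q : ℤ × ℤ → Set ℂ := fun p => {z | ⌊2 * z.re / r⌋ = p.1 ∧ ⌊2 * z.im / r⌋ = p.2} with hQ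
  have hfl : ∀ t : ℝ, |t| ≤ ρ → ⌊2 * t / r⌋ ∈ Finset.Icc (-(n : ℤ)) n := by
    intro t ht
    obtain ⟨h1, h2⟩ := abs_le.1 ht
    rw [Finset.mem_Icc]
    constructor
    · rw [Int.le_floor]
      push_cast
      have : -(2 * ρ / r) ≤ 2 * t / r := by
        rw [← neg_div]; gcongr; linarith
      linarith
    · have h3 : (⌊2 * t / r⌋ : ℝ) ≤ n := by
        refine (Int.floor_le _).trans (le_trans ?_ hn1)
        gcongr
      exact_mod_cast h3
  have hcov : E ⊆ ⋃ p ∈ I, (E ∩ Q p) := by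
    intro z hz
    rw [mem_iUnion₂]
    have h1 := hE hz
    rw [mem_closedBall_zero_iff] at h1
    refine ⟨(⌊2 * z.re / r⌋, ⌊2 * z.im / r⌋), ?_, hz, rfl, rfl⟩
    rw [hI, Finset.mem_product]
    exact ⟨hfl _ ((Complex.abs_re_le_norm z).trans h1), hfl _ ((Complex.abs_im_le_norm z).trans h1)⟩
  have hone : ∀ p ∈ I, volume (E ∩ Q p) ≤ ENNReal.ofReal (σ * r ^ 2) := by
    intro p _
    rcases (E ∩ Q p).eq_empty_or_nonempty with h1 | ⟨x, hx, hxQ⟩
    · rw [h1, measure_empty]; exact zero_le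
    · refine (measure_mono ?_).trans (h x hx)
      rintro z ⟨hz, hzQ⟩
      refine ⟨hz, ?_⟩
      have hfloor : ∀ s t : ℝ, ⌊2 * s / r⌋ = ⌊2 * t / r⌋ → |s - t| ≤ r / 2 := by
        intro s t hst
        have h2 := Int.abs_sub_lt_one_of_floor_eq_floor hst
        rw [div_sub_div_same, abs_div, abs_of_pos hr, div_lt_one hr, ← mul_sub, abs_mul,
          abs_of_pos (by norm_num : (0 : ℝ) < 2)] at h2
        linarith
      have h3 := hfloor z.re x.re (by rw [hzQ.1, hxQ.1])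
      have h4 := hfloor z.im x.im (by rw [hzQ.2, hxQ.2])
      rw [mem_ball, dist_eq_norm]
      have h5 : ‖z - x‖ ^ 2 ≤ (r / 2) ^ 2 + (r / 2) ^ 2 := by
        rw [← Complex.normSq_eq_norm_sq, Complex.normSq_apply, Complex.sub_re, Complex.sub_im]
        have := sq_le_sq' (abs_le.1 h3).1 (abs_le.1 h3).2
        have := sq_le_sq' (abs_le.1 h4).1 (abs_le.1 h4).2
        nlinarith
      have h6 : ‖z - x‖ ^ 2 < r ^ 2 := by nlinarith
      exact lt_of_pow_lt_pow_left₀ 2 hr.le h6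
  calc volume E ≤ volume (⋃ p ∈ I, (E ∩ Q p)) := measure_mono hcov
    _ ≤ ∑ p ∈ I, volume (E ∩ Q p) := measure_biUnion_finset_le _ _
    _ ≤ ∑ p ∈ I, ENNReal.ofReal (σ * r ^ 2) := Finset.sum_le_sum hone
    _ = I.card * ENNReal.ofReal (σ * r ^ 2) := by rw [Finset.sum_const, nsmul_eq_mul]
    _ ≤ ENNReal.ofReal (100 * σ * ρ ^ 2) := by
      rw [← ENNReal.ofReal_natCast, ← ENNReal.ofReal_mul (Nat.cast_nonneg _)]
      apply ENNReal.ofReal_le_ofReal
      have hcard : (I.card : ℝ) = (2 * n + 1) ^ 2 := by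
        rw [hI, Finset.card_product, Int.card_Icc]
        have : ((n : ℤ) + 1 - -(n : ℤ)).toNat = 2 * n + 1 := by omega
        rw [this]
        push_cast; ring
      rw [hcard]
      have h1 : (1 : ℝ) ≤ ρ / r := by rw [one_le_div hr]; exact hrρ
      have h2 : 2 * (n : ℝ) + 1 ≤ 7 * (ρ / r) := by
        have : 2 * ρ / r = 2 * (ρ / r) := by ring
        rw [this] at hn2
        linarith
      have h3 : 0 < ρ / r := by linarith
      calc (2 * (n : ℝ) + 1) ^ 2 * (σ * r ^ 2) ≤ (7 * (ρ / r)) ^ 2 * (σ * r ^ 2) := by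
            have : 0 ≤ 2 * (n : ℝ) + 1 := by positivity
            gcongr
        _ = 49 * σ * ρ ^ 2 := by field_simp; ring
        _ ≤ 100 * σ * ρ ^ 2 := by gcongr; norm_num

/-- a set which is not dense at arbitrarily small scales at each of its points is null -/
theorem null_of_porous {E : Set ℂ} {δ : ℝ} (hδ : 0 < δ)
    (h : ∀ x ∈ E, ∀ ε : ℝ, 0 < ε → ∃ r : ℝ, 0 < r ∧ r < ε ∧
      ∃ G : Set ℂ, Disjoint G E ∧ MeasurableSet G ∧ ENNReal.ofReal (δ * r ^ 2) ≤ volume (closedBall x r ∩ G)) :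
    volume E = 0 := by
  have h1 := Besicovitch.ae_tendsto_measure_inter_div (volume : Measure ℂ) E
  have h2 : E ⊆ {x | ¬ Tendsto (fun r => volume (E ∩ closedBall x r) / volume (closedBall x r)) (𝓝[>] 0) (𝓝 1)} := by
    intro x hx hten
    set κ : ℝ := min (δ / 8) (1 / 2) with hκ
    have hκ0 : 0 < κ := by rw [hκ]; positivity
    have hκ1 : κ ≤ δ / 8 := min_le_left _ _
    have hκ2 : κ ≤ 1 / 2 := min_le_right _ _
    have hlt : ENNReal.ofReal (1 - κ) < 1 := by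
      rw [ENNReal.ofReal_lt_one]; linarith
    have hev := (tendsto_order.1 hten).1 _ hlt
    obtain ⟨ρ, hρ, hρ'⟩ := mem_nhdsGT_iff_exists_Ioo_subset.1 hev
    obtain ⟨r, hr, hrρ, G, hG, hGm, hGv⟩ := h x hx ρ hρ
    have hdr := hρ' ⟨hr, hrρ⟩
    change ENNReal.ofReal (1 - κ) < volume (E ∩ closedBall x r) / volume (closedBall x r) at hdr
    have hv : volume (closedBall x r) = ENNReal.ofReal (Real.pi * r ^ 2) := by
      rw [Complex.volume_closedBall, ENNReal.ofReal_mul Real.pi_pos.le, ENNReal.ofReal_pow hr.le, mul_comm,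
        ← NNReal.coe_real_pi, ENNReal.ofReal_coe_nnreal]
    have hpi := Real.pi_pos
    have hv0 : volume (closedBall x r) ≠ 0 := by
      rw [hv]
      simp only [ne_eq, ENNReal.ofReal_eq_zero, not_le]
      positivity
    have hvt : volume (closedBall x r) ≠ ⊤ := by rw [hv]; exact ENNReal.ofReal_ne_top
    have h6 := (ENNReal.lt_div_iff_mul_lt (Or.inl hv0) (Or.inl hvt)).1 hdr
    -- sum
    have h7 : volume (E ∩ closedBall x r) + volume (closedBall x r ∩ G) ≤ volume (closedBall x r) := by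
      have h8 := measure_inter_add_sdiff (μ := (volume : Measure ℂ)) (closedBall x r) hGm
      rw [← h8, add_comm]
      gcongr
      rintro y ⟨hy, hy2⟩
      exact ⟨hy2, fun hyG => Set.disjoint_left.1 hG hyG hy⟩
    rw [hv, ← ENNReal.ofReal_mul (by linarith)] at h6
    have h9 : ENNReal.ofReal ((1 - κ) * (Real.pi * r ^ 2)) + ENNReal.ofReal (δ * r ^ 2) <
        ENNReal.ofReal (Real.pi * r ^ 2) := by
      rw [← hv]
      refine lt_of_lt_of_le ?_ h7
      exact ENNReal.add_lt_add_of_lt_of_le ENNReal.ofReal_ne_top h6 hGv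
    rw [← ENNReal.ofReal_add (by
      have : 0 < Real.pi * r ^ 2 := by positivity
      nlinarith) (by positivity)] at h9
    have h10 := (ENNReal.ofReal_lt_ofReal_iff (by positivity)).1 h9
    have h11 : κ * (Real.pi * r ^ 2) ≤ δ * r ^ 2 := by
      have : Real.pi ≤ 4 := Real.pi_lt_four.le
      calc κ * (Real.pi * r ^ 2) ≤ δ / 8 * (4 * r ^ 2) := by gcongr
        _ ≤ δ * r ^ 2 := by nlinarith [mul_pos hδ (pow_pos hr 2)]
    linarith
  rw [ae_iff] at h1
  have h3 := le_antisymm (((measure_mono (fun x hx => ⟨h2 hx, hx⟩ : E ⊆ {x | ¬ Tendsto (fun r => volume (E ∩ closedBall x r) / volume (closedBall x r)) (𝓝[>] 0) (𝓝 1)} ∩ E)).trans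
    (Measure.le_restrict_apply E _)).trans h1.le) (zero_le (a := volume E))
  exact h3

end Pool.Agent.Helper34.EF
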