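import Pool.Agent.Helper34.EF.Fat
import Pool.Graph.R_pool_sql_team_seeded_3997aac3.Q222.XF.KOE

/-!
# The area of the Julia set: density argument
-/

set_option autoImplicit false

open Filter Topology Metric Set MeasureTheory

namespace Pool.Agent.Helper34.EF

/-- the hypotheses on the map `f`, with finite set `S` of singular values -/
structure Hyp (f : ℂ → ℂ) (S : Set ℂ) : Prop where
  diff : Differentiable ℂ f
  fin : S.Finite
  ne : S.Nonempty
  low : ∀ ε : ℝ, 0 < ε → ∃ κ : ℝ, 0 < κ ∧ ∀ z, (∀ s ∈ S, ε ≤ ‖f z - s‖) → κ ≤ ‖deriv f z‖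
  attr : ∀ s ∈ S, Attr f s

/-- a compact subset of the basins -/
structure Trap (f : ℂ → ℂ) (S Λ : Set ℂ) (w0 : ℂ) (r0 : ℝ) : Prop where
  cpt : IsCompact Λ
  sub : Λ ⊆ {z | Attr f z}
  orb : ∀ s ∈ S, ∀ k, f^[k] s ∈ Λ
  pos : 0 < r0
  swp : ∀ ζ ∈ ball w0 r0, ∀ k, f^[k] ζ ∈ Λ

variable {f : ℂ → ℂ} {S Λ : Set ℂ} {w0 : ℂ} {r0 : ℝ}

theorem exists_trap (h : Hyp f S) : ∃ (Λ : Set ℂ) (w0 : ℂ) (r0 : ℝ), Trap f S Λ w0 r0 := by
  have h1 : ∀ s ∈ S, ∃ V, IsCompact V ∧ V ⊆ {z | Attr f z} ∧ ∀ᶠ u in 𝓝 s, ∀ k, f^[k] u ∈ V :=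
    fun s hs => orbit_compact h.diff (h.attr s hs)
  choose! V hV1 hV2 hV3 using h1
  obtain ⟨s0, hs0⟩ := h.ne
  obtain ⟨r0, hr0, hb⟩ := Metric.eventually_nhds_iff_ball.1 (hV3 s0 hs0)
  refine ⟨⋃ s ∈ S, V s, s0, r0, h.fin.isCompact_biUnion hV1, iUnion₂_subset hV2, ?_, hr0, ?_⟩
  · intro s hs k
    exact mem_biUnion hs ((hV3 s hs).self_of_nhds k)
  · intro ζ hζ k
    exact mem_biUnion hs0 (hb ζ hζ k)

theorem inv_low (h : Hyp f S) (hT : Trap f S Λ w0 r0) (n : ℕ) : ∀ η : ℝ, 0 < η →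
    ∃ κ : ℝ, 0 < κ ∧ ∀ z, (∀ x ∈ Λ, η ≤ ‖f^[n] z - x‖) → κ ≤ ‖deriv (f^[n]) z‖ := by
  induction n with
  | zero =>
    intro η _
    refine ⟨1, one_pos, fun z _ => ?_⟩
    rw [Function.iterate_zero, deriv_id, norm_one]
  | succ n ih =>
    intro η hη
    obtain ⟨κ1, hκ1, h1⟩ := ih η hη
    -- closeness to a singular value
    have h2 : ∃ ε : ℝ, 0 < ε ∧ ∀ s ∈ S, ∀ w, ‖w - s‖ < ε → ‖f^[n] w - f^[n] s‖ < η := by
      have h3 : ∀ s ∈ S, ∃ ε : ℝ, 0 < ε ∧ ∀ w, ‖w - s‖ < ε → ‖f^[n] w - f^[n] s‖ < η := by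
        intro s _
        obtain ⟨ε, hε, h4⟩ := Metric.continuous_iff.1 (h.diff.continuous.iterate n) s η hη
        refine ⟨ε, hε, fun w hw => ?_⟩
        rw [← dist_eq_norm] at hw ⊢
        exact h4 w hw
      choose! e he1 he2 using h3
      obtain ⟨s1, hs1, hmin⟩ := h.fin.exists_minimalFor e S h.ne
      refine ⟨e s1, he1 s1 hs1, fun s hs w hw => he2 s hs w (lt_of_lt_of_le hw ?_)⟩
      by_contra hcon
      push Not at hcon
      exact absurd (hmin hs hcon.le) (not_le.2 hcon)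
    obtain ⟨ε, hε, h3⟩ := h2
    obtain ⟨κ2, hκ2, h4⟩ := h.low ε hε
    refine ⟨κ1 * κ2, by positivity, fun z hz => ?_⟩
    have hd : deriv (f^[n + 1]) z = deriv (f^[n]) (f z) * deriv f z := by
      rw [Function.iterate_succ]
      exact deriv_comp z ((h.diff.iterate n) (f z)) (h.diff z)
    rw [hd, norm_mul]
    refine mul_le_mul (h1 (f z) (fun x hx => ?_)) (h4 z fun s hs => ?_) hκ2.le (norm_nonneg _)
    · have := hz x hx
      rwa [Function.iterate_succ_apply] at this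
    · by_contra hcon
      push Not at hcon
      have h5 := h3 s hs (f z) hcon
      have h6 := hz _ (hT.orb s hs n)
      rw [Function.iterate_succ_apply] at h6
      linarith

/-- inverse branches of the iterates -/
theorem branch (h : Hyp f S) (hT : Trap f S Λ w0 r0) {z : ℂ} {n : ℕ} {r : ℝ} (hr : 0 < r)
    (hs : ∀ x ∈ Λ, 3 * r ≤ ‖f^[n] z - x‖) :
    ∃ G : ℂ → ℂ, DifferentiableOn ℂ G (ball (f^[n] z) (2 * r)) ∧ InjOn G (ball (f^[n] z) (2 * r)) ∧
      G (f^[n] z) = z ∧ ∀ ζ ∈ ball (f^[n] z) (2 * r), f^[n] (G ζ) = ζ := by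
  obtain ⟨κ, hκ, h1⟩ := inv_low h hT n r hr
  obtain ⟨G, hG1, hG2, hG3⟩ := lift (h.diff.iterate n) (b := f^[n] z) (z0 := z) (R := 2 * r) (κ := κ)
    (by positivity) hκ rfl (fun y hy => h1 y fun x hx => by
      have h2 := hs x hx
      rw [mem_ball, dist_eq_norm] at hy
      have h3 := norm_sub_le (f^[n] z - f^[n] y) (x - f^[n] y)
      have h4 : f^[n] z - f^[n] y - (x - f^[n] y) = f^[n] z - x := by ring
      rw [h4, norm_sub_rev _ (f^[n] y), norm_sub_rev x] at h3
      linarith)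
  refine ⟨G, hG1, fun x hx y hy hxy => ?_, hG2, hG3⟩
  rw [← hG3 x hx, ← hG3 y hy, hxy]

/-- a disc in the image of a univalent function -/
theorem quarter {G : ℂ → ℂ} {a : ℂ} {δ : ℝ} (hδ : 0 < δ) (hd : DifferentiableOn ℂ G (ball a δ))
    (hi : InjOn G (ball a δ)) :
    ball (G a) (‖deriv G a‖ * δ / 4000) ⊆ G '' closedBall a (δ / 1000) := by
  obtain ⟨hne, hK⟩ := Pool.Agent.Q222.XF.t_KOE G a δ hδ hd hi
  have he : Real.exp 4 ≤ 55 := by
    have h1 := Real.exp_one_lt_d9
    have h2 : Real.exp 4 = Real.exp 1 ^ 4 := by rw [← Real.exp_nat_mul]; norm_num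
    rw [h2]
    calc Real.exp 1 ^ 4 ≤ 2.7182818286 ^ 4 := by gcongr
      _ ≤ 55 := by norm_num
  have hhalf : ball a (δ / 2) ⊆ ball a δ := ball_subset_ball (by linarith)
  have hd' : DifferentiableOn ℂ (deriv G) (ball a δ) := hd.deriv isOpen_ball
  have hD0 : 0 < ‖deriv G a‖ := norm_pos_iff.2 hne
  -- second derivative
  have h2 : ∀ z ∈ ball a (δ / 2), ‖deriv (deriv G) z‖ ≤ 440 / δ * ‖deriv G a‖ := by
    intro z hz
    have h3 : ball z (δ / 2) ⊆ ball a δ := by
      intro w hw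
      rw [mem_ball] at hw hz ⊢
      linarith [dist_triangle w z a]
    have h4 := (Pool.Agent.H792R2.SS.t_KB G z (δ / 2) (by linarith) (hd.mono h3) (hi.mono h3)).2
    have h5 := (hK z hz).2
    have h6 : ‖deriv G z‖ ≤ 55 * ‖deriv G a‖ := h5.trans (by gcongr)
    have h7 : δ / 2 * ‖deriv (deriv G) z‖ ≤ 220 * ‖deriv G a‖ := by linarith
    rw [div_mul_eq_mul_div, le_div_iff₀ hδ]
    linarith
  have h3 : ∀ z ∈ ball a (δ / 900), ‖deriv G z - deriv G a‖ ≤ 1 / 2 * ‖deriv G a‖ := by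
    intro z hz
    have hsub : ball a (δ / 900) ⊆ ball a (δ / 2) := ball_subset_ball (by linarith)
    have h4 := (convex_ball a (δ / 2)).norm_image_sub_le_of_norm_deriv_le (𝕜 := ℂ) (f := deriv G)
      (fun x hx => (hd' x (hhalf hx)).differentiableAt (isOpen_ball.mem_nhds (hhalf hx))) h2
      (mem_ball_self (by positivity)) (hsub hz)
    rw [mem_ball, dist_eq_norm] at hz
    refine h4.trans ?_
    calc 440 / δ * ‖deriv G a‖ * ‖z - a‖ ≤ 440 / δ * ‖deriv G a‖ * (δ / 900) := by gcongr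
      _ = 440 / 900 * ‖deriv G a‖ := by field_simp
      _ ≤ _ := mul_le_mul_of_nonneg_right (by norm_num) hD0.le
  have hlip : ∀ x ∈ ball a (δ / 900), ‖(G x - deriv G a * x) - (G a - deriv G a * a)‖ ≤
      1 / 2 * ‖deriv G a‖ * ‖x - a‖ := by
    intro x hx
    refine (convex_ball a (δ / 900)).norm_image_sub_le_of_norm_hasDerivWithin_le
      (f := fun z => G z - deriv G a * z) (f' := fun z => deriv G z - deriv G a) (fun z hz => ?_)
      (fun z hz => h3 z hz) (mem_ball_self (by positivity)) hx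
    have h5 : HasDerivAt (fun z => deriv G a * z) (deriv G a) z := by
      simpa using (hasDerivAt_id z).const_mul (deriv G a)
    have hz' : z ∈ ball a δ := ball_subset_ball (by linarith) hz
    exact (((hd z hz').differentiableAt (isOpen_ball.mem_nhds hz')).hasDerivAt.sub h5).hasDerivWithinAt
  have hlow : ∀ x ∈ ball a (δ / 900), 1 / 2 * ‖deriv G a‖ * ‖x - a‖ ≤ ‖G x - G a‖ := by
    intro x hx
    have h4 := hlip x hx
    have h5 : ‖deriv G a * (x - a)‖ ≤ ‖G x - G a‖ + ‖(G x - deriv G a * x) - (G a - deriv G a * a)‖ := by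
      have : deriv G a * (x - a) = (G x - G a) - ((G x - deriv G a * x) - (G a - deriv G a * a)) := by ring
      rw [this]; exact norm_sub_le _ _
    rw [norm_mul] at h5
    nlinarith
  have hsub : closedBall a (δ / 1000) ⊆ ball a (δ / 900) := closedBall_subset_ball (by linarith)
  have hsub2 : closedBall a (δ / 1000) ⊆ ball a δ := closedBall_subset_ball (by linarith)
  have hdc : DiffContOnCl ℂ G (ball a (δ / 1000)) := by
    refine DifferentiableOn.diffContOnCl ?_
    rw [closure_ball a (by positivity)]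
    exact hd.mono hsub2
  have himg := hdc.ball_subset_image_closedBall (by positivity) (ε := ‖deriv G a‖ * δ / 2000) (fun z hz => by
    have h2 := hlow z (hsub (sphere_subset_closedBall hz))
    rw [mem_sphere, dist_eq_norm] at hz
    rw [hz] at h2
    linarith) (by
      have hcb : a ∈ ball a (δ / 900) := mem_ball_self (by positivity)
      apply Filter.Eventually.frequently (f := 𝓝[≠] a) _ |>.filter_mono nhdsWithin_le_nhds
      filter_upwards [self_mem_nhdsWithin, mem_nhdsWithin_of_mem_nhds (isOpen_ball.mem_nhds hcb)] with x hx hx'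
      intro heq
      have h2 := hlow x hx'
      rw [heq, sub_self, norm_zero] at h2
      have h3 : 0 < ‖x - a‖ := norm_pos_iff.2 (sub_ne_zero.2 hx)
      have : 0 < 1 / 2 * ‖deriv G a‖ * ‖x - a‖ := by positivity
      linarith)
  refine Subset.trans (ball_subset_ball (le_of_eq ?_)) himg
  ring

/-- the inverse branches shrink -/
theorem shrink (h : Hyp f S) (hT : Trap f S Λ w0 r0) {z : ℂ} (hz : z ∈ julia f) {δ : ℝ} (hδ : 0 < δ) :
    ∃ m : ℕ, ∀ n, m ≤ n → ∀ r : ℝ, 0 < r → (∀ x ∈ Λ, 3 * r ≤ ‖f^[n] z - x‖) → ∀ G : ℂ → ℂ,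
      DifferentiableOn ℂ G (ball (f^[n] z) (2 * r)) → InjOn G (ball (f^[n] z) (2 * r)) →
      G (f^[n] z) = z → (∀ ζ ∈ ball (f^[n] z) (2 * r), f^[n] (G ζ) = ζ) →
      ‖deriv G (f^[n] z)‖ * r ≤ δ := by
  have h1 : ¬ ∀ n, ∀ ζ ∈ ball z (δ / 2000), f^[n] ζ ∉ ball w0 r0 := by
    intro hcon
    exact hz (montel h.diff isOpen_ball hT.pos hcon (mem_ball_self (by positivity)))
  push Not at h1
  obtain ⟨m, ζ, hζ, hm⟩ := h1
  refine ⟨m, fun n hn r hr hs G hG1 hG2 hG3 hG4 => ?_⟩
  by_contra hcon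
  push Not at hcon
  have h2 := quarter (by positivity : (0 : ℝ) < 2 * r) hG1 hG2
  rw [hG3] at h2
  have h3 : ζ ∈ ball z (‖deriv G (f^[n] z)‖ * (2 * r) / 4000) := by
    refine ball_subset_ball ?_ hζ
    linarith
  obtain ⟨ξ, hξ, hGξ⟩ := h2 h3
  have hξ2 : ξ ∈ ball (f^[n] z) (2 * r) := closedBall_subset_ball (by linarith) hξ
  have h4 := hG4 ξ hξ2
  rw [hGξ] at h4
  have h5 : f^[n] ζ ∈ Λ := by
    have e : f^[n] ζ = f^[n - m] (f^[m] ζ) := by
      rw [← Function.iterate_add_apply, Nat.sub_add_cancel hn]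
    rw [e]
    exact hT.swp _ hm _
  have h6 := hs _ h5
  rw [h4] at h6
  rw [mem_closedBall, dist_eq_norm, norm_sub_rev] at hξ
  linarith

theorem det_restrict (c : ℂ) :
    |((ContinuousLinearMap.toSpanSingleton ℂ c).restrictScalars ℝ).det| = ‖c‖ ^ 2 := by
  simp [ContinuousLinearMap.det, LinearMap.det_restrictScalars, Algebra.norm_complex_eq,
    Complex.normSq_eq_norm_sq]

/-- area of the image of a set under an injective holomorphic map -/
theorem area_image {ψ ψ' : ℂ → ℂ} {W : Set ℂ} (hW : MeasurableSet W)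
    (hd : ∀ w ∈ W, HasDerivAt ψ (ψ' w) w) (hi : InjOn ψ W) (k : ℝ) (hk0 : 0 ≤ k)
    (hk : ∀ w ∈ W, k ≤ ‖ψ' w‖) :
    ENNReal.ofReal (k ^ 2) * volume W ≤ volume (ψ '' W) := by
  have h := lintegral_abs_det_fderiv_eq_addHaar_image (μ := (volume : Measure ℂ)) (s := W)
    (f := ψ) (f' := fun w =>
      ((ContinuousLinearMap.toSpanSingleton ℂ (ψ' w) : ℂ →L[ℂ] ℂ).restrictScalars ℝ))
    hW (fun w hw => ((hd w hw).hasFDerivAt.restrictScalars ℝ).hasFDerivWithinAt) hi
  rw [← h]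
  rw [← setLIntegral_const]
  refine setLIntegral_mono' hW fun w hw => ?_
  apply ENNReal.ofReal_le_ofReal
  rw [det_restrict]
  exact pow_le_pow_left₀ hk0 (hk w hw) 2

/-- **The Julia set has area zero**, if the orbits of its points come back to places where the
basins have definite density. -/
theorem null (h : Hyp f S) (hT : Trap f S Λ w0 r0) {ε : ℝ} (hε : 0 < ε)
    (hfrac : ∀ z ∈ julia f, ∀ m : ℕ, ∃ n, m ≤ n ∧ ∃ r : ℝ, 0 < r ∧ (∀ x ∈ Λ, 3 * r ≤ ‖f^[n] z - x‖) ∧
      ENNReal.ofReal (ε * r ^ 2) ≤ volume (ball (f^[n] z) r ∩ {w | Attr f w})) :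
    volume (julia f) = 0 := by
  by_contra hne
  set B : Set ℂ := {w | Attr f w} with hB
  have hBo : IsOpen B := attr_open h.diff
  have hJc : IsClosed (julia f) := (fatou_open f).isClosed_compl
  have hmeas : MeasurableSet (julia f) := hJc.measurableSet
  have hJB : Disjoint (julia f) B := by
    rw [Set.disjoint_left]
    exact fun z hz hzB => hz (attr_fatou h.diff hzB)
  -- a density point
  obtain ⟨z, hz, hdens⟩ : ∃ z ∈ julia f, Tendsto (fun r => volume (julia f ∩ closedBall z r) /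
      volume (closedBall z r)) (𝓝[>] 0) (𝓝 1) := by
    have h1 := Besicovitch.ae_tendsto_measure_inter_div (volume : Measure ℂ) (julia f)
    rw [ae_restrict_iff' hmeas] at h1
    by_contra hcon
    push Not at hcon
    apply hne
    rw [measure_eq_zero_iff_ae_notMem]
    filter_upwards [h1] with z hz hzB
    exact hcon z hzB (hz hzB)
  set e := Real.exp 4 with he
  have he0 : 0 < e := Real.exp_pos 4
  set η : ℝ := ε / (e ^ 4 * Real.pi) with hη
  have hη0 : 0 < η := div_pos hε (by positivity)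
  have hlt : ENNReal.ofReal (1 - η) < 1 := by
    rw [ENNReal.ofReal_lt_one]
    linarith
  have hev : ∀ᶠ r in 𝓝[>] (0 : ℝ), ENNReal.ofReal (1 - η) <
      volume (julia f ∩ closedBall z r) / volume (closedBall z r) := (tendsto_order.1 hdens).1 _ hlt
  obtain ⟨ρ, hρ, hρ'⟩ := mem_nhdsGT_iff_exists_Ioo_subset.1 hev
  have hρ0 : 0 < ρ := hρ
  -- the iterate
  obtain ⟨m, hm⟩ := shrink h hT hz (δ := ρ / (2 * e)) (by positivity)
  obtain ⟨n, hn, s, hs, hsep, hvol⟩ := hfrac z hz m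
  obtain ⟨G, hGd, hGi, hGa, hG⟩ := branch h hT hs hsep
  have hsmall := hm n hn s hs hsep G hGd hGi hGa hG
  set a := f^[n] z with ha
  obtain ⟨hDne, hK⟩ := Pool.Agent.Q222.XF.t_KOE G a (2 * s) (by positivity) hGd hGi
  have e1 : 2 * s / 2 = s := by ring
  rw [e1] at hK
  set D := ‖deriv G a‖ with hD
  have hD0 : 0 < D := norm_pos_iff.2 hDne
  set r := e * (D * s) with hr
  have hr0 : 0 < r := by positivity
  have hrρ : r < ρ := by
    have h1 : e * (D * s) ≤ e * (ρ / (2 * e)) := by gcongr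
    have h2 : e * (ρ / (2 * e)) = ρ / 2 := by field_simp
    rw [h2] at h1
    rw [hr]
    linarith
  have hdr := hρ' ⟨hr0, hrρ⟩
  change ENNReal.ofReal (1 - η) < volume (julia f ∩ closedBall z r) / volume (closedBall z r) at hdr
  have hv : volume (closedBall z r) = ENNReal.ofReal (Real.pi * r ^ 2) := by
    rw [Complex.volume_closedBall, ENNReal.ofReal_mul Real.pi_pos.le, ENNReal.ofReal_pow hr0.le, mul_comm,
      ← NNReal.coe_real_pi, ENNReal.ofReal_coe_nnreal]
  -- the image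
  have hsub0 : ball a s ⊆ ball a (2 * s) := ball_subset_ball (by linarith)
  have hsub : ball a s ∩ B ⊆ ball a (2 * s) := inter_subset_left.trans hsub0
  have h1 : ENNReal.ofReal ((e⁻¹ * D) ^ 2) * volume (ball a s ∩ B) ≤ volume (G '' (ball a s ∩ B)) := by
    refine area_image (ψ' := deriv G) (measurableSet_ball.inter hBo.measurableSet) (fun w hw => ?_)
      (hGi.mono hsub) _ (by positivity) (fun w hw => ?_)
    · exact ((hGd w (hsub hw)).differentiableAt (isOpen_ball.mem_nhds (hsub hw))).hasDerivAt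
    · have h2 := (hK w hw.1).1
      rwa [Real.exp_neg, ← he] at h2
  have h2 : G '' (ball a s ∩ B) ⊆ B ∩ closedBall z r := by
    rintro _ ⟨w, hw, rfl⟩
    constructor
    · have h3 := hG w (hsub hw)
      have h4 : Attr f (f^[n] (G w)) := by rw [h3]; exact hw.2
      exact (attr_iter n).1 h4
    · rw [mem_closedBall, dist_eq_norm]
      have h3 : ‖G w - G a‖ ≤ e * D * ‖w - a‖ := by
        refine (convex_ball a s).norm_image_sub_le_of_norm_deriv_le (𝕜 := ℂ) ?_ ?_
          (mem_ball_self hs) hw.1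
        · intro x hx
          exact (hGd x (hsub0 hx)).differentiableAt (isOpen_ball.mem_nhds (hsub0 hx))
        · intro x hx
          exact (hK x hx).2
      rw [hGa] at h3
      have h4 : ‖w - a‖ ≤ s := by
        have := hw.1
        rw [mem_ball, dist_eq_norm] at this
        exact this.le
      calc ‖G w - z‖ ≤ e * D * ‖w - a‖ := h3
        _ ≤ e * D * s := by gcongr
        _ = r := by rw [hr]; ring
  have h3 : ENNReal.ofReal ((e⁻¹ * D) ^ 2 * (ε * s ^ 2)) ≤ volume (B ∩ closedBall z r) := by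
    rw [ENNReal.ofReal_mul (by positivity)]
    exact (mul_le_mul_right hvol _).trans (h1.trans (measure_mono h2))
  have h4 : (e⁻¹ * D) ^ 2 * (ε * s ^ 2) = η * (Real.pi * r ^ 2) := by
    rw [hη, hr]
    field_simp
  rw [h4] at h3
  have hv0 : volume (closedBall z r) ≠ 0 := by
    rw [hv]
    simp only [ne_eq, ENNReal.ofReal_eq_zero, not_le]
    positivity
  have hvt : volume (closedBall z r) ≠ ⊤ := by
    rw [hv]
    exact ENNReal.ofReal_ne_top
  have h6 : ENNReal.ofReal ((1 - η) * (Real.pi * r ^ 2)) < volume (julia f ∩ closedBall z r) := by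
    have h7 := (ENNReal.lt_div_iff_mul_lt (Or.inl hv0) (Or.inl hvt)).1 hdr
    rwa [hv, ← ENNReal.ofReal_mul' (by positivity)] at h7
  have h5 : volume (julia f ∩ closedBall z r) + volume (B ∩ closedBall z r) ≤ volume (closedBall z r) := by
    rw [← measure_union (hJB.mono inter_subset_left inter_subset_left)
      (hBo.measurableSet.inter measurableSet_closedBall)]
    exact measure_mono (union_subset inter_subset_right inter_subset_right)
  have hxt : volume (julia f ∩ closedBall z r) ≠ ⊤ :=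
    ((measure_mono inter_subset_right).trans_lt (lt_top_iff_ne_top.2 hvt)).ne
  have hyt : volume (B ∩ closedBall z r) ≠ ⊤ :=
    ((measure_mono inter_subset_right).trans_lt (lt_top_iff_ne_top.2 hvt)).ne
  have h8 : (1 - η) * (Real.pi * r ^ 2) < (volume (julia f ∩ closedBall z r)).toReal := by
    by_contra hcon
    have h7 := ENNReal.ofReal_le_ofReal (not_lt.1 hcon)
    rw [ENNReal.ofReal_toReal hxt] at h7
    exact absurd h6 (not_lt.2 h7)
  have h9 : η * (Real.pi * r ^ 2) ≤ (volume (B ∩ closedBall z r)).toReal :=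
    (ENNReal.ofReal_le_iff_le_toReal hyt).1 h3
  have h10 := ENNReal.toReal_mono hvt h5
  rw [ENNReal.toReal_add hxt hyt, hv, ENNReal.toReal_ofReal (by positivity)] at h10
  linarith

end Pool.Agent.Helper34.EF
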