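import Pool.Agent.Helper34.EF.Step

/-!
# Comparison of orbits
-/

set_option autoImplicit false

open Filter Topology Metric Set MeasureTheory

namespace Pool.Agent.Helper34.EF

/-- the orbit of `z` under `F + b` -/
noncomputable def ob (F : ℂ → ℂ) (b z : ℂ) : ℕ → ℂ
  | 0 => z
  | t + 1 => F (ob F b z t) + b

/-- the level at time `t`: number of steps since the last visit of the small region -/
noncomputable def lv (q : ℕ) (α : ℂ) (F : ℂ → ℂ) (b z : ℂ) : ℕ → ℕ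
  | 0 => 0
  | t + 1 => if uu q α (ob F b z t) < 0 then 0 else lv q α F b z t + 1

/-- closeness at level `j` -/
def Cl (q : ℕ) (ρ η : ℝ) : ℕ → ℂ → ℂ → Prop
  | 0, z, w => ‖w - z‖ ≤ 2 * η
  | j + 1, z, w => ‖w - z‖ ≤ η * tw q ρ j ^ (q + 2) * ‖z‖

variable {q N : ℕ} {α : ℂ} {F : ℂ → ℂ} {A S : Set ℂ} {K B X ρ : ℝ} {c : ℂ}

theorem ob_eq_iter (F : ℂ → ℂ) (b z : ℂ) (t : ℕ) : ob F b z t = (fun z => F z + b)^[t] z := by
  induction t with
  | zero => rfl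
  | succ t ih => rw [Function.iterate_succ_apply', ← ih]; rfl

theorem ob_add (F : ℂ → ℂ) (b z : ℂ) (s t : ℕ) : ob F b z (s + t) = ob F b (ob F b z s) t := by
  rw [ob_eq_iter, ob_eq_iter, ob_eq_iter, add_comm, Function.iterate_add_apply]

theorem lv_add (q : ℕ) (α : ℂ) (F : ℂ → ℂ) (b z : ℂ) {s : ℕ} (h : lv q α F b z s = 0) (t : ℕ) :
    lv q α F b z (s + t) = lv q α F b (ob F b z s) t := by
  induction t with
  | zero => exact h
  | succ t ih =>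
    rw [← add_assoc]
    show (if uu q α (ob F b z (s + t)) < 0 then 0 else lv q α F b z (s + t) + 1) =
      (if uu q α (ob F b (ob F b z s) t) < 0 then 0 else lv q α F b (ob F b z s) t + 1)
    rw [ih, ob_add]

theorem lv_succ_pos {b z : ℂ} {t : ℕ} (h : ¬ uu q α (ob F b z t) < 0) :
    lv q α F b z (t + 1) = lv q α F b z t + 1 := if_neg h

theorem lv_succ_neg {b z : ℂ} {t : ℕ} (h : uu q α (ob F b z t) < 0) :
    lv q α F b z (t + 1) = 0 := if_pos h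

theorem tw_mono (hC : Cst q N K ‖α‖ B X) (hS : Sys q α F A S K) (hρ : X ≤ ρ) {i j : ℕ} (h : i ≤ j) :
    tw q ρ i ≤ tw q ρ j := by
  induction h with
  | refl => exact le_refl _
  | step h ih =>
    refine ih.trans ?_
    obtain ⟨h1, h2⟩ := tw_ge hC hS hρ (q := q) (j := ‹ℕ›)
    have := hC.X1 hS
    linarith

theorem norm_b_le (hC : Cst q N K ‖α‖ B X) (hS : Sys q α F A S K) (hρ : X ≤ ρ)
    (hc : Adm q N α K ρ c) {b : ℂ} (hb : ‖b - c‖ ≤ B) : ‖b‖ ≤ ρ := by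
  have h1 := hC.c5
  have h2 := hS.K1
  have h3 := hc.u
  have h4 := norm_sub_norm_le b c
  have h5 := hC.B0
  linarith

/-- positions along an orbit with margins -/
theorem pos_ob (hC : Cst q N K ‖α‖ B X) (hS : Sys q α F A S K) (hρ : X ≤ ρ)
    (hc : Adm q N α K ρ c) {κ : ℝ} (hκ : 1 / 16 ≤ κ) {b z : ℂ} (hb : ‖b - c‖ ≤ B)
    (hz : ‖z - c‖ ≤ K + B + 1) {t : ℕ}
    (hm : ∀ s < t, Mg q α ρ κ (lv q α F b z s) (ob F b z s)) :
    Pos q N K B ρ c (lv q α F b z t) (ob F b z t) := by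
  induction t with
  | zero => exact hz
  | succ t ih =>
    have h1 := ih (fun s hs => hm s (by omega))
    have h2 := st_of_pos hC hS hρ hκ h1 (hm t (by omega))
    have hb' := norm_b_le hC hS hρ hc hb
    by_cases h0 : uu q α (ob F b z t) < 0
    · rw [lv_succ_neg h0]
      obtain ⟨⟨a, ha, h3⟩, h4⟩ := stS hC hS hρ hc h2 h0
      show ‖F (ob F b z t) + b - c‖ ≤ K + B + 1
      have h5 := hS.bd a (hS.AS ha)
      have h6 : (1 : ℝ) / (4 * tw q ρ (lv q α F b z t) ^ N) ≤ 1 := by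
        have h7 := (tw_ge hC hS hρ (lv q α F b z t)).1
        have h8 := hC.X1 hS
        have h9 : (1 : ℝ) ≤ tw q ρ (lv q α F b z t) ^ N := one_le_pow₀ (by linarith)
        rw [div_le_one (by positivity)]
        linarith
      calc ‖F (ob F b z t) + b - c‖ = ‖(F (ob F b z t) - a) + a + (b - c)‖ := by ring_nf
        _ ≤ ‖F (ob F b z t) - a‖ + ‖a‖ + ‖b - c‖ := norm_add₃_le
        _ ≤ K + B + 1 := by linarith
    · rw [lv_succ_pos h0]
      exact (stL hC hS hρ hc h2 (not_lt.1 h0) hb').2.2.1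

/-- facts on the segment between two close points -/
theorem seg_facts (hC : Cst q N K ‖α‖ B X) (hS : Sys q α F A S K) (hρ : X ≤ ρ)
    (hc : Adm q N α K ρ c) {κ η : ℝ} (hκ : 1 / 8 ≤ κ) (hη : 0 < η) {m j : ℕ} (hj : j ≤ m + 1)
    (hm : η * tw q ρ m ^ (q + 5) ≤ 1) {z w : ℂ} (hz : Pos q N K B ρ c j z)
    (hw : j = 0 → ‖w - c‖ ≤ K + B + 1) (hmg : Mg q α ρ κ j z) (hcl : Cl q ρ η j z w) :
    (∀ ζ ∈ segment ℝ z w, St q N α K B ρ c j ζ ∧ (uu q α ζ < 0 ↔ uu q α z < 0)) ∧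
      Mg q α ρ (κ / 2) j w ∧ (uu q α w < 0 ↔ uu q α z < 0) ∧ ‖w - z‖ ≤ η * tw q ρ j ^ 2 := by
  have hX := hC.X1 hS
  cases j with
  | zero =>
    have hw' := hw rfl
    have hz' : ‖z - c‖ ≤ K + B + 1 := hz
    have hcl' : ‖w - z‖ ≤ 2 * η := hcl
    have hseg : ∀ ζ ∈ segment ℝ z w, St q N α K B ρ c 0 ζ := by
      intro ζ hζ
      have h1 : segment ℝ z w ⊆ closedBall c (K + B + 1) :=
        (convex_closedBall c _).segment_subset (by rwa [mem_closedBall, dist_eq_norm])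
          (by rwa [mem_closedBall, dist_eq_norm])
      have h2 := h1 hζ
      rw [mem_closedBall, dist_eq_norm] at h2
      exact h2
    have hsign : ∀ ζ : ℂ, ‖ζ - c‖ ≤ K + B + 1 → ¬ uu q α ζ < 0 := fun ζ h =>
      not_lt.2 (step0 hC hS hρ hc h).2.2.2.1.le
    refine ⟨fun ζ hζ => ⟨hseg ζ hζ, ?_⟩, trivial, ?_, ?_⟩
    · exact iff_of_false (hsign ζ (hseg ζ hζ)) (hsign z hz')
    · exact iff_of_false (hsign w hw') (hsign z hz')
    · refine hcl'.trans ?_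
      show 2 * η ≤ η * ρ ^ 2
      have : 2 ≤ ρ ^ 2 := by nlinarith
      nlinarith
  | succ i =>
    have hcl' : ‖w - z‖ ≤ η * tw q ρ i ^ (q + 2) * ‖z‖ := hcl
    obtain ⟨hi1, hi2⟩ := tw_ge hC hS hρ i
    have hx1 : 1 ≤ tw q ρ i := by linarith
    have hδ : η * tw q ρ i ^ (q + 2) * tw q ρ i ^ 2 ≤ 1 := by
      refine le_trans ?_ hm
      calc η * tw q ρ i ^ (q + 2) * tw q ρ i ^ 2 = η * tw q ρ i ^ (q + 4) := by ring
        _ ≤ η * tw q ρ i ^ (q + 5) := by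
          apply mul_le_mul_of_nonneg_left _ hη.le
          exact pow_le_pow_right₀ hx1 (by omega)
        _ ≤ η * tw q ρ m ^ (q + 5) := by
          have := tw_mono hC hS hρ (show i ≤ m by omega)
          gcongr
    have hkey : ∀ ζ ∈ segment ℝ z w, ‖ζ - z‖ ≤ η * tw q ρ i ^ (q + 2) * ‖z‖ := by
      intro ζ hζ
      refine le_trans ?_ hcl'
      obtain ⟨a, b, ha, hb, hab, rfl⟩ := hζ
      have e : a • z + b • w - z = b • (w - z) := by
        have : a = 1 - b := by linarith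
        rw [this, sub_smul, smul_sub, one_smul]; ring
      rw [e, norm_smul, Real.norm_of_nonneg hb]
      nlinarith [norm_nonneg (w - z)]
    refine ⟨fun ζ hζ => ?_, ?_, ?_, ?_⟩
    · obtain ⟨h1, h2, h3, h4⟩ := near hC hS hρ hκ hz hmg (hkey ζ hζ) hδ
      exact ⟨h1, h3⟩
    · exact (near hC hS hρ hκ hz hmg (hkey w (right_mem_segment ℝ z w)) hδ).2.1
    · exact (near hC hS hρ hκ hz hmg (hkey w (right_mem_segment ℝ z w)) hδ).2.2.1
    · refine hcl'.trans ?_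
      have h1 : tw q ρ i ^ (q + 2) ≤ tw q ρ (i + 1) :=
        tw_pow hC hS (hρ.trans hi1) (by have := hC.N1; omega)
      have h2 : ‖z‖ ≤ tw q ρ (i + 1) := hz.2
      calc η * tw q ρ i ^ (q + 2) * ‖z‖ ≤ η * tw q ρ (i + 1) * tw q ρ (i + 1) := by
            have : 0 ≤ tw q ρ (i + 1) := by linarith
            gcongr
        _ = _ := by ring

/-- one step in the large region -/
theorem oneL (hC : Cst q N K ‖α‖ B X) (hS : Sys q α F A S K) (hρ : X ≤ ρ)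
    (hc : Adm q N α K ρ c) {η : ℝ} (hη : 0 < η) {j : ℕ} {z w b1 b2 : ℂ}
    (hseg : ∀ ζ ∈ segment ℝ z w, St q N α K B ρ c j ζ ∧ 0 ≤ uu q α ζ)
    (hzw : ‖w - z‖ ≤ η * tw q ρ j ^ 2) (hj : η * tw q ρ j ^ (q + 5) ≤ 1)
    (hb1 : ‖b1‖ ≤ ρ) (hb : ‖b2 - b1‖ ≤ η) :
    ‖(F w + b2) - (F z + b1)‖ ≤ η * tw q ρ j ^ (q + 2) * ‖F z + b1‖ := by
  have hX := hC.X1 hS
  obtain ⟨hj1, hj2⟩ := tw_ge hC hS hρ j
  set y := tw q ρ j with hy
  have hy1 : 1000 ≤ y := by linarith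
  have hq := hS.q1
  have ha := hC.a0
  set D := 2 * (q * ‖α‖ * (2 * y) ^ (q - 1)) with hD
  have hD0 : 0 ≤ D := by positivity
  have h1 : ∀ ζ ∈ segment ℝ z w, ‖deriv F ζ‖ ≤ D * ‖F ζ‖ := by
    intro ζ hζ
    obtain ⟨h2, h3⟩ := hseg ζ hζ
    obtain ⟨h4, -, -, -, -⟩ := stL hC hS hρ hc h2 h3 hb1
    obtain ⟨h5, h6, -, -, -, -⟩ := st_facts hC hS hρ hc h2
    refine (far_deriv hS h5 h4).1.trans ?_
    rw [hD]
    gcongr
  -- the constant
  have hcon : 8 * (q * ‖α‖ * 2 ^ q) + 8 ≤ y := by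
    have hc3 := hC.c3
    have e1 : (2 : ℝ) ^ q ≤ 4 ^ q := by gcongr; norm_num
    have e5 : (1 : ℝ) ≤ 4 ^ q := one_le_pow₀ (by norm_num)
    have e0 : (0 : ℝ) ≤ q := Nat.cast_nonneg q
    have e2 : q * ‖α‖ * 2 ^ q + 1 ≤ (q + 1) * 4 ^ q * (‖α‖ + 1) := by
      have e3 : q * ‖α‖ * 2 ^ q ≤ q * ‖α‖ * 4 ^ q := by gcongr
      nlinarith [mul_nonneg e0 (by positivity : (0:ℝ) ≤ 4 ^ q), mul_nonneg ha.le (by positivity : (0:ℝ) ≤ 4 ^ q)]
    have e6 : 0 ≤ ((q : ℝ) + 1) * 4 ^ q * (‖α‖ + 1) := by positivity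
    have e7 : (1 : ℝ) ≤ 1 / ‖α‖ + 1 := by
      have : 0 < 1 / ‖α‖ := by positivity
      linarith
    calc 8 * (q * ‖α‖ * 2 ^ q) + 8 ≤ 10000 * ((q + 1) * 4 ^ q * (‖α‖ + 1)) * 1 := by linarith
      _ ≤ 10000 * ((q + 1) * 4 ^ q * (‖α‖ + 1)) * (1 / ‖α‖ + 1) := by gcongr
      _ = 10000 * (q + 1) * 4 ^ q * (‖α‖ + 1) * (1 / ‖α‖ + 1) := by ring
      _ ≤ y := hc3.trans (hρ.trans hj1)
  have h2 : D * ‖w - z‖ ≤ (q * ‖α‖ * 2 ^ q) * y ^ (q + 1) * η := by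
    calc D * ‖w - z‖ ≤ D * (η * y ^ 2) := by gcongr
      _ = (q * ‖α‖ * (2 * 2 ^ (q - 1))) * (y ^ (q - 1) * y ^ 2) * η := by rw [hD, mul_pow]; ring
      _ = _ := by
        rw [← pow_succ', ← pow_add, show q - 1 + 1 = q by omega, show q - 1 + 2 = q + 1 by omega]
  have hyq : 1 ≤ y ^ (q + 1) := one_le_pow₀ (by linarith)
  have hyq0 : 0 < y ^ (q + 1) := by positivity
  have e1 : y ^ (q + 2) = y * y ^ (q + 1) := by ring
  have e2 : y ^ (q + 5) = y ^ 3 * y ^ (q + 2) := by ring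
  have hηy : η * y ^ (q + 2) ≤ 1 / 1000 := by
    rw [e2] at hj
    have h3 : (1000 : ℝ) ≤ y ^ 3 := by nlinarith [sq_nonneg y]
    have h4 : 0 < η * y ^ (q + 2) := by positivity
    have h5 : 1000 * (η * y ^ (q + 2)) ≤ 1 := by
      calc 1000 * (η * y ^ (q + 2)) ≤ y ^ 3 * (η * y ^ (q + 2)) := by gcongr
        _ = η * (y ^ 3 * y ^ (q + 2)) := by ring
        _ ≤ 1 := hj
    linarith
  have h3 : (q * ‖α‖ * 2 ^ q) * y ^ (q + 1) * η ≤ 1 / 8 * (η * y ^ (q + 2)) := by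
    rw [e1]
    have : (q * ‖α‖ * 2 ^ q) ≤ y / 8 := by linarith
    calc (q * ‖α‖ * 2 ^ q) * y ^ (q + 1) * η ≤ (y / 8) * y ^ (q + 1) * η := by gcongr
      _ = _ := by ring
  have h4 := ld hS.diff hD0 h1 (by linarith)
  obtain ⟨h5, h6, h7, h8, h9⟩ := stL hC hS hρ hc (hseg z (left_mem_segment ℝ z w)).1
    (hseg z (left_mem_segment ℝ z w)).2 hb1
  have hn : 1 ≤ ‖F z + b1‖ := by
    have : 4 ≤ ‖F z‖ := by
      refine le_trans ?_ h6
      have : (1 : ℝ) ≤ y ^ N := one_le_pow₀ (by linarith)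
      linarith
    linarith
  have h10 : ‖(F w + b2) - (F z + b1)‖ ≤ ‖F w - F z‖ + ‖b2 - b1‖ := by
    calc _ = ‖(F w - F z) + (b2 - b1)‖ := by ring_nf
      _ ≤ _ := norm_add_le _ _
  have h11 : ‖F w - F z‖ ≤ 1 / 2 * (η * y ^ (q + 2)) * ‖F z + b1‖ := by
    have h12 : 2 * (D * ‖w - z‖) ≤ 1 / 4 * (η * y ^ (q + 2)) := by linarith
    calc ‖F w - F z‖ ≤ 2 * (D * ‖w - z‖) * ‖F z‖ := h4
      _ ≤ (1 / 4 * (η * y ^ (q + 2))) * (2 * ‖F z + b1‖) := by gcongr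
      _ = _ := by ring
  have h12 : η ≤ 1 / 2 * (η * y ^ (q + 2)) * ‖F z + b1‖ := by
    have h13 : 2 ≤ y ^ (q + 2) := by rw [e1]; nlinarith
    calc η = η * 1 * 1 := by ring
      _ ≤ η * (y ^ (q + 2) / 2) * ‖F z + b1‖ := by gcongr; linarith
      _ = _ := by ring
  calc _ ≤ ‖F w - F z‖ + ‖b2 - b1‖ := h10
    _ ≤ 1 / 2 * (η * y ^ (q + 2)) * ‖F z + b1‖ + 1 / 2 * (η * y ^ (q + 2)) * ‖F z + b1‖ := by linarith
    _ = _ := by ring

/-- one step in the small region -/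
theorem oneS (hC : Cst q N K ‖α‖ B X) (hS : Sys q α F A S K) (hρ : X ≤ ρ)
    (hc : Adm q N α K ρ c) {η : ℝ} (hη : 0 < η) {j : ℕ} {z w : ℂ}
    (hseg : ∀ ζ ∈ segment ℝ z w, St q N α K B ρ c j ζ ∧ uu q α ζ < 0)
    (hzw : ‖w - z‖ ≤ η * tw q ρ j ^ 2) : ‖F w - F z‖ ≤ η / 8 := by
  have hX := hC.X1 hS
  obtain ⟨hj1, hj2⟩ := tw_ge hC hS hρ j
  have hN := hC.N1
  set y := tw q ρ j with hy
  have hy1 : 1000 ≤ y := by linarith
  have h1 := (convex_segment (𝕜 := ℝ) z w).norm_image_sub_le_of_norm_deriv_le (𝕜 := ℂ)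
      (f := F) (C := 1 / (4 * y ^ N)) (fun x _ => hS.diff x)
      (fun x hx => (stS hC hS hρ hc (hseg x hx).1 (hseg x hx).2).2)
      (left_mem_segment ℝ z w) (right_mem_segment ℝ z w)
  refine h1.trans ?_
  have h2 : y ^ 3 ≤ y ^ N := pow_le_pow_right₀ (by linarith) (by omega)
  calc 1 / (4 * y ^ N) * ‖w - z‖ ≤ 1 / (4 * y ^ 3) * (η * y ^ 2) := by gcongr
    _ = η / (4 * y) := by field_simp
    _ ≤ η / 8 := by gcongr; linarith

/-- **Comparison lemma.** -/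
theorem compare (hC : Cst q N K ‖α‖ B X) (hS : Sys q α F A S K) (hρ : X ≤ ρ)
    (hc : Adm q N α K ρ c) {κ η : ℝ} (hκ : 1 / 8 ≤ κ) (hη : 0 < η) {m : ℕ}
    (hm : η * tw q ρ m ^ (q + 5) ≤ 1) {b1 b2 z w : ℂ} (hb1 : ‖b1 - c‖ ≤ B) (hb2 : ‖b2 - c‖ ≤ B)
    (hb : ‖b2 - b1‖ ≤ η) (hz : ‖z - c‖ ≤ K + B + 1) (hw : ‖w - c‖ ≤ K + B + 1)
    (hzw : ‖w - z‖ ≤ 2 * η) (T : ℕ)
    (hlev : ∀ t ≤ T, (∀ s ≤ t, lv q α F b1 z s = lv q α F b2 w s) → lv q α F b1 z t ≤ m + 1)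
    (hmg : ∀ t < T, (∀ s ≤ t, lv q α F b1 z s = lv q α F b2 w s) →
      Mg q α ρ κ (lv q α F b1 z t) (ob F b1 z t)) :
    ∀ t ≤ T, (∀ s ≤ t, lv q α F b1 z s = lv q α F b2 w s) ∧
      Cl q ρ η (lv q α F b1 z t) (ob F b1 z t) (ob F b2 w t) ∧
      (∀ s < t, Mg q α ρ (κ / 2) (lv q α F b2 w s) (ob F b2 w s)) := by
  intro t
  induction t with
  | zero =>
    intro _
    refine ⟨fun s hs => ?_, hzw, fun s hs => absurd hs (by omega)⟩
    have : s = 0 := by omega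
    rw [this]; rfl
  | succ t ih =>
    intro ht
    obtain ⟨h1, h2, h3⟩ := ih (by omega)
    have hb1' := norm_b_le hC hS hρ hc hb1
    have hb2' := norm_b_le hC hS hρ hc hb2
    have hmz : ∀ s < t + 1, Mg q α ρ κ (lv q α F b1 z s) (ob F b1 z s) := fun s hs =>
      hmg s (by omega) (fun r hr => h1 r (by omega))
    have hposz := pos_ob hC hS hρ hc (t := t) (by linarith : 1 / 16 ≤ κ) hb1 hz (fun s hs => hmz s (by omega))
    have hposw := pos_ob hC hS hρ hc (t := t) (by linarith : 1 / 16 ≤ κ / 2) hb2 hw h3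
    have hj := hlev t (by omega) h1
    have ew := h1 t (le_refl t)
    obtain ⟨g1, g2, g3, g4⟩ := seg_facts hC hS hρ hc hκ hη hj hm hposz
      (fun h0 => by
        rw [← ew, h0] at hposw
        exact hposw) (hmz t (by omega)) h2
    have g2' : Mg q α ρ (κ / 2) (lv q α F b2 w t) (ob F b2 w t) := by rw [← ew]; exact g2
    have hM : ∀ s < t + 1, Mg q α ρ (κ / 2) (lv q α F b2 w s) (ob F b2 w s) := by
      intro s hs
      rcases Nat.lt_succ_iff_lt_or_eq.1 hs with h | h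
      · exact h3 s h
      · rw [h]; exact g2'
    by_cases h0 : uu q α (ob F b1 z t) < 0
    · have h0' := g3.2 h0
      have heq : ∀ s ≤ t + 1, lv q α F b1 z s = lv q α F b2 w s := by
        intro s hs
        rcases Nat.le_succ_iff.1 hs with h | h
        · exact h1 s h
        · rw [h, lv_succ_neg h0, lv_succ_neg h0']
      refine ⟨heq, ?_, hM⟩
      rw [lv_succ_neg h0]
      show ‖F (ob F b2 w t) + b2 - (F (ob F b1 z t) + b1)‖ ≤ 2 * η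
      have h5 := oneS hC hS hρ hc hη (fun ζ hζ => ⟨(g1 ζ hζ).1, (g1 ζ hζ).2.2 h0⟩) g4
      calc _ = ‖(F (ob F b2 w t) - F (ob F b1 z t)) + (b2 - b1)‖ := by ring_nf
        _ ≤ ‖F (ob F b2 w t) - F (ob F b1 z t)‖ + ‖b2 - b1‖ := norm_add_le _ _
        _ ≤ 2 * η := by linarith
    · have h0' : ¬ uu q α (ob F b2 w t) < 0 := fun h => h0 (g3.1 h)
      have heq : ∀ s ≤ t + 1, lv q α F b1 z s = lv q α F b2 w s := by
        intro s hs
        rcases Nat.le_succ_iff.1 hs with h | h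
        · exact h1 s h
        · rw [h, lv_succ_pos h0, lv_succ_pos h0', ew]
      refine ⟨heq, ?_, hM⟩
      have hj2 := hlev (t + 1) ht heq
      rw [lv_succ_pos h0] at hj2 ⊢
      show ‖F (ob F b2 w t) + b2 - (F (ob F b1 z t) + b1)‖ ≤
        η * tw q ρ (lv q α F b1 z t) ^ (q + 2) * ‖F (ob F b1 z t) + b1‖
      refine oneL hC hS hρ hc hη (fun ζ hζ => ⟨(g1 ζ hζ).1, not_lt.1 fun h => h0 ((g1 ζ hζ).2.1 h)⟩) g4
        ?_ hb1' hb
      refine le_trans ?_ hm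
      have h7 := tw_mono hC hS hρ (show lv q α F b1 z t ≤ m by omega)
      have h8 := (tw_ge hC hS hρ (lv q α F b1 z t)).1
      have h9 := hC.X1 hS
      have : 0 ≤ tw q ρ (lv q α F b1 z t) := by linarith
      gcongr

end Pool.Agent.Helper34.EF
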