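import Pool.Agent.Helper34.EF.Meas
import Pool.Agent.Helper34.EF.Cyc

/-!
# The parameters in the region where `c` is in the large region
-/

set_option autoImplicit false

open Filter Topology Metric Set MeasureTheory

namespace Pool.Agent.Helper34.EF

variable {q N : ℕ} {α : ℂ} {F : ℂ → ℂ} {A S : Set ℂ} {K B X ρ : ℝ} {c : ℂ}

/-- margins at the record times of level at most `ℓ` -/
def RGl (q : ℕ) (α : ℂ) (F : ℂ → ℂ) (S : Set ℂ) (ρ : ℝ) (c : ℂ) (ℓ : ℕ) : Prop :=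
  ∀ s ∈ S, ∀ t, (∀ r < t, lv q α F c (c + s) r < lv q α F c (c + s) t) →
    lv q α F c (c + s) t ≤ ℓ → Mg q α ρ 1 (lv q α F c (c + s) t) (ob F c (c + s) t)

/-- the parameters where a margin fails first at level `m + 1` and for `s` -/
def Nms (q N : ℕ) (α : ℂ) (F : ℂ → ℂ) (S : Set ℂ) (K ρ : ℝ) (m : ℕ) (s : ℂ) : Set ℂ :=
  {c | Adm q N α K ρ c ∧ RGl q α F S ρ c m ∧ ∃ t, (∀ r < t, lv q α F c (c + s) r < lv q α F c (c + s) t) ∧
    lv q α F c (c + s) t = m + 1 ∧ ¬ Mg q α ρ 1 (lv q α F c (c + s) t) (ob F c (c + s) t)}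

theorem first_time {b z : ℂ} {m t : ℕ} (h : m + 1 ≤ lv q α F b z t) :
    ∃ T, T + 1 ≤ t ∧ (∀ r ≤ T, lv q α F b z r ≤ m) ∧ lv q α F b z (T + 1) = m + 1 := by
  classical
  have hex : ∃ t, m + 1 ≤ lv q α F b z t := ⟨t, h⟩
  obtain ⟨n, hn⟩ : ∃ n, n = Nat.find hex := ⟨_, rfl⟩
  have h1 : m + 1 ≤ lv q α F b z n := by rw [hn]; exact Nat.find_spec hex
  have h2 : ∀ r < n, lv q α F b z r ≤ m := by
    intro r hr
    rw [hn] at hr
    have := Nat.find_min hex hr
    omega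
  have h3 : n ≤ t := by rw [hn]; exact Nat.find_min' hex h
  cases n with
  | zero =>
    have : lv q α F b z 0 = 0 := rfl
    omega
  | succ T =>
    refine ⟨T, h3, fun r hr => h2 r (by omega), ?_⟩
    have h4 := h2 T (by omega)
    rcases lv_cases q α F b z T with h | h <;> omega

theorem cr_le (hC : Cst q N K ‖α‖ B X) (hS : Sys q α F A S K) (hρ : X ≤ ρ) (m : ℕ) :
    cr q ρ B m ≤ ρ := by
  have hX := hC.X1 hS
  cases m with
  | zero =>
    have := hC.c5
    have := hS.K1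
    have := hC.B0
    show B ≤ ρ
    linarith
  | succ m =>
    have := (tw_ge hC hS hρ m).1
    have h1 : (1 : ℝ) ≤ tw q ρ m ^ (2 * q + 10) := one_le_pow₀ (by linarith)
    have : cr q ρ B (m + 1) ≤ 1 := by
      show 1 / tw q ρ m ^ (2 * q + 10) ≤ 1
      rw [div_le_one (by positivity)]; exact h1
    linarith

theorem N_meas (hC : Cst q N K ‖α‖ B X) (hS : Sys q α F A S K) (hρ : X ≤ ρ) {m : ℕ} {s : ℂ}
    (hs : s ∈ S) :
    volume (Nms q N α F S K ρ m s) ≤ ENNReal.ofReal (4000 / (‖α‖ * tw q ρ m) * ρ ^ 2) := by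
  have hX := hC.X1 hS
  have ha := hC.a0
  have hj := (tw_ge hC hS hρ m).1
  have hx0 : 0 < tw q ρ m := by linarith
  have h := grid (E := Nms q N α F S K ρ m s) (cr_pos hC hS hρ (B := B) m) (cr_le hC hS hρ m)
    (σ := 40 / (‖α‖ * tw q ρ m)) (by positivity) ?_ ?_
  · refine h.trans (ENNReal.ofReal_le_ofReal (le_of_eq ?_))
    ring
  · rintro c ⟨hc, -⟩
    rw [mem_closedBall_zero_iff]
    have := hc.u
    linarith
  · rintro c ⟨hc, hR, t, ht1, ht2, ht3⟩
    have hall := allmg hC hS hρ hc hR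
    obtain ⟨T, hT1, hT2, hT3⟩ := first_time (m := m) (t := t) (by rw [ht2])
    have hmg : ∀ r ≤ T, Mg q α ρ (1 / 2) (lv q α F c (c + s) r) (ob F c (c + s) r) := fun r hr =>
      hall r s hs (fun r' hr' => hT2 r' (by omega))
    refine le_trans (measure_mono ?_) (cell_bad hC hS hρ hc hs hT2 hT3 hmg)
    rintro b ⟨⟨hb1, hb2, t', ht1', ht2', ht3'⟩, hb⟩
    refine ⟨hb, ?_⟩
    obtain ⟨Λ, -, hcell⟩ := cell hC hS hρ hc hs hT2 hT3 hmg
    obtain ⟨hlv, -, -, -⟩ := hcell b hb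
    have hTt : t' = T + 1 := by
      rcases Nat.lt_trichotomy t' (T + 1) with h | h | h
      · have h1 := hlv t' h.le
        have h2 := hT2 t' (by omega)
        omega
      · exact h
      · have h1 := ht1' (T + 1) h
        rw [← hlv (T + 1) (le_refl _), hT3] at h1
        omega
    rw [hTt] at ht3'
    rw [← hlv (T + 1) (le_refl _), hT3] at ht3'
    exact ht3'

/-- **The border set has small area.** -/
theorem border (hC : Cst q N K ‖α‖ B X) (hS : Sys q α F A S K) (hρ : X ≤ ρ) :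
    volume {c | Adm q N α K ρ c ∧ ¬ ∀ ℓ, RGl q α F S ρ c ℓ} ≤
      ENNReal.ofReal (hS.Sfin.toFinset.card * (8000 / ‖α‖ * ρ)) := by
  classical
  have hX := hC.X1 hS
  have ha := hC.a0
  have hsub : {c | Adm q N α K ρ c ∧ ¬ ∀ ℓ, RGl q α F S ρ c ℓ} ⊆
      ⋃ s ∈ hS.Sfin.toFinset, ⋃ m : ℕ, Nms q N α F S K ρ m s := by
    rintro c ⟨hc, hno⟩
    push Not at hno
    obtain ⟨ℓ, hℓ⟩ : ∃ ℓ, ℓ = Nat.find hno := ⟨_, rfl⟩
    have h1 : ¬ RGl q α F S ρ c ℓ := by rw [hℓ]; exact Nat.find_spec hno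
    have h2 : ∀ ℓ' < ℓ, RGl q α F S ρ c ℓ' := by
      intro ℓ' h
      rw [hℓ] at h
      exact not_not.1 (Nat.find_min hno h)
    unfold RGl at h1
    push Not at h1
    obtain ⟨s, hs, t, ht1, ht2, ht3⟩ := h1
    have h3 : lv q α F c (c + s) t = ℓ := by
      by_contra h
      exact ht3 (h2 (lv q α F c (c + s) t) (by omega) s hs t ht1 (le_refl _))
    cases ℓ with
    | zero =>
      rw [h3] at ht3
      exact absurd trivial ht3
    | succ m =>
      rw [mem_iUnion₂]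
      refine ⟨s, by simpa using hs, ?_⟩
      rw [mem_iUnion]
      exact ⟨m, hc, h2 m (by omega), t, ht1, h3, ht3⟩
  have htwo : ∀ m, 2 ^ m * ρ ≤ tw q ρ m := by
    intro m
    induction m with
    | zero => simp [tw]
    | succ m ih =>
      have := (tw_ge hC hS hρ m).2
      calc 2 ^ (m + 1) * ρ = 2 * (2 ^ m * ρ) := by ring
        _ ≤ 2 * tw q ρ m := by linarith
        _ ≤ _ := this
  have hρ0 : 0 < ρ := by linarith
  have hone : ∀ s ∈ hS.Sfin.toFinset, volume (⋃ m : ℕ, Nms q N α F S K ρ m s) ≤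
      ENNReal.ofReal (8000 / ‖α‖ * ρ) := by
    intro s hs
    have hs' : s ∈ S := by simpa using hs
    calc volume (⋃ m : ℕ, Nms q N α F S K ρ m s) ≤ ∑' m : ℕ, volume (Nms q N α F S K ρ m s) :=
          measure_iUnion_le _
      _ ≤ ∑' m : ℕ, ENNReal.ofReal (4000 / ‖α‖ * ρ * (1 / 2) ^ m) := by
        refine ENNReal.tsum_le_tsum fun m => (N_meas hC hS hρ hs').trans (ENNReal.ofReal_le_ofReal ?_)
        have h1 := htwo m
        have h2 : 0 < (2 : ℝ) ^ m := by positivity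
        calc 4000 / (‖α‖ * tw q ρ m) * ρ ^ 2 ≤ 4000 / (‖α‖ * (2 ^ m * ρ)) * ρ ^ 2 := by gcongr
          _ = _ := by
            rw [one_div, inv_pow]
            field_simp
      _ = ENNReal.ofReal (∑' m : ℕ, 4000 / ‖α‖ * ρ * (1 / 2) ^ m) := by
        rw [ENNReal.ofReal_tsum_of_nonneg (fun m => by positivity)]
        exact (summable_geometric_of_lt_one (by norm_num) (by norm_num)).mul_left _
      _ = _ := by
        rw [tsum_mul_left, tsum_geometric_of_lt_one (by norm_num) (by norm_num)]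
        congr 1; ring
  refine (measure_mono hsub).trans ((measure_biUnion_finset_le _ _).trans
    ((Finset.sum_le_sum hone).trans ?_))
  rw [Finset.sum_const, nsmul_eq_mul, ← ENNReal.ofReal_natCast, ← ENNReal.ofReal_mul (Nat.cast_nonneg _)]

theorem meas_deep (hS : Sys q α F A S K) (s a : ℂ) (T : ℕ) :
    MeasurableSet {b : ℂ | K ≤ ‖ob F b (b + s) (T + 1)‖ → uu q α (ob F b (b + s) (T + 1)) ≤ -(‖ob F b (b + s) (T + 1)‖ ^ q / K) ∧
        ‖F (ob F b (b + s) (T + 1)) - a‖ ≤ Real.exp (uu q α (ob F b (b + s) (T + 1)) / 2)} := by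
  have hZ : Continuous fun b : ℂ => ob F b (b + s) (T + 1) :=
    continuous_iff_continuousAt.2 fun b => (hasDeriv_ob hS.diff s b (T + 1)).continuousAt
  have hF := hS.diff.continuous
  have hu : Continuous fun b : ℂ => uu q α (ob F b (b + s) (T + 1)) := by
    unfold uu
    exact Complex.continuous_re.comp (continuous_const.mul (hZ.pow q))
  refine MeasurableSet.imp (measurableSet_le measurable_const hZ.norm.measurable) (MeasurableSet.inter ?_ ?_)
  · exact (isClosed_le hu ((hZ.norm.pow q).div_const K).neg).measurableSet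
  · exact (isClosed_le ((hF.comp hZ).sub continuous_const).norm
      (Real.continuous_exp.comp (hu.div_const 2))).measurableSet

/-- facts for a deep position -/
theorem deep_facts (hC : Cst q N K ‖α‖ B X) (hS : Sys q α F A S K) (hρ : X ≤ ρ)
    (hc : Adm q N α K ρ c) {m : ℕ} {z a : ℂ} (hz : Pos q N K B ρ c (m + 1) z)
    (hd : uu q α z ≤ -(‖z‖ ^ q / K)) (hF : ‖F z - a‖ ≤ Real.exp (uu q α z / 2)) :
    Mg q α ρ (1 / 4) (m + 1) z ∧ uu q α z < 0 ∧ ‖F z - a‖ ≤ 1 / (4 * tw q ρ (m + 1) ^ N) := by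
  have hX := hC.X1 hS
  have hK := hS.K1
  obtain ⟨hj1, hj2⟩ := tw_ge hC hS hρ m
  have hKX : K ≤ tw q ρ m := by linarith [hC.c5, hC.B0]
  have hzpos : 0 < ‖z‖ := by
    refine lt_of_lt_of_le ?_ hz.1
    have : 0 < tw q ρ m := by linarith
    positivity
  have hzq : 0 < ‖z‖ ^ q / K := by positivity
  have hneg : uu q α z < 0 := by linarith
  have hM : Mg q α ρ (1 / 4) (m + 1) z := by
    show 1 / 4 * ‖z‖ ^ q ≤ tw q ρ m * |uu q α z|
    rw [abs_of_neg hneg]
    have h1 : ‖z‖ ^ q ≤ K * -uu q α z := by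
      have : ‖z‖ ^ q / K ≤ -uu q α z := by linarith
      rwa [div_le_iff₀' (by linarith)] at this
    have h2 : K * -uu q α z ≤ tw q ρ m * -uu q α z := by
      have : 0 ≤ -uu q α z := by linarith
      gcongr
    have h3 : 0 < ‖z‖ ^ q := by positivity
    linarith
  refine ⟨hM, hneg, hF.trans ?_⟩
  have hst := st_of_pos hC hS hρ (by norm_num : (1 : ℝ) / 16 ≤ 1 / 4) hz hM
  obtain ⟨-, -, -, -, h5, -⟩ := st_facts hC hS hρ hc hst
  rw [abs_of_neg hneg] at h5
  have hy : 0 < tw q ρ (m + 1) := by linarith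
  rw [le_div_iff₀ (by positivity)]
  calc Real.exp (uu q α z / 2) * (4 * tw q ρ (m + 1) ^ N) ≤
        Real.exp (uu q α z / 2) * Real.exp (-uu q α z / 2) := by gcongr
    _ = 1 := by rw [← Real.exp_add]; ring_nf; exact Real.exp_zero

/-- **The loop lemma**: an asymptotic value which returns to itself has bounded levels. -/
theorem loop (hC : Cst q N K ‖α‖ B X) (hS : Sys q α F A S K) (hρ : X ≤ ρ)
    (hc : Adm q N α K ρ c) {b a : ℂ} (hb : ‖b - c‖ ≤ B) (ha : a ∈ A) {m T : ℕ}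
    (hlev : ∀ r ≤ T, lv q α F b (b + a) r ≤ m) (hT : lv q α F b (b + a) (T + 1) = m + 1)
    (hmg : ∀ r ≤ T, Mg q α ρ (1 / 4) (lv q α F b (b + a) r) (ob F b (b + a) r))
    (hd : uu q α (ob F b (b + a) (T + 1)) ≤ -(‖ob F b (b + a) (T + 1)‖ ^ q / K))
    (hF : ‖F (ob F b (b + a) (T + 1)) - a‖ ≤ Real.exp (uu q α (ob F b (b + a) (T + 1)) / 2)) :
    ∀ t, lv q α F b (b + a) t ≤ m + 1 := by
  have hX := hC.X1 hS
  have hN := hC.N1
  have hB := hC.B0
  have hba := s_mem hS (c := c) (hS.AS ha) hb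
  have hpos := pos_ob hC hS hρ hc (by norm_num : (1 : ℝ) / 16 ≤ 1 / 4) hb hba (t := T + 1)
    (fun r hr => hmg r (by omega))
  rw [hT] at hpos
  obtain ⟨hM, hneg, hclose⟩ := deep_facts hC hS hρ hc hpos hd hF
  obtain ⟨hjm1, hjm2⟩ := tw_ge hC hS hρ m
  obtain ⟨hj1, hj2⟩ := tw_ge hC hS hρ (m + 1)
  obtain ⟨Y, hY⟩ : ∃ Y, Y = tw q ρ (m + 1) := ⟨_, rfl⟩
  rw [← hY] at hclose
  have hY0 : 0 < Y := by rw [hY]; linarith
  have hY1 : 1000 ≤ Y := by rw [hY]; linarith
  obtain ⟨η, hη⟩ : ∃ η : ℝ, η = 8 / Y ^ N := ⟨_, rfl⟩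
  have hη0 : 0 < η := by rw [hη]; positivity
  have hYN : (1000 : ℝ) ≤ Y ^ N := hY1.trans (le_self_pow₀ (by linarith) (by omega))
  have hη1 : η ≤ 1 / 4 := by
    rw [hη, div_le_div_iff₀ (by positivity) (by norm_num)]; linarith
  have hηY : 1 / (4 * Y ^ N) = η / 32 := by rw [hη]; field_simp; norm_num
  rw [hηY] at hclose
  have hηm : η * tw q ρ m ^ (q + 5) ≤ 1 := by
    rw [hη, div_mul_eq_mul_div, div_le_one (by positivity)]
    calc 8 * tw q ρ m ^ (q + 5) ≤ Y * Y ^ (q + 5) := by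
          have h0 : 0 ≤ tw q ρ m := by linarith
          have h1 : tw q ρ m ≤ Y := by rw [hY]; linarith
          gcongr
          linarith
      _ = Y ^ (q + 6) := by ring
      _ ≤ Y ^ N := pow_le_pow_right₀ (by linarith) (by omega)
  have hlev' : ∀ r ≤ T + 1, lv q α F b (b + a) r ≤ m + 1 := by
    intro r hr
    rcases Nat.le_succ_iff.1 hr with h | h
    · exact (hlev r h).trans (by omega)
    · rw [h, hT]
  have hmg' : ∀ r ≤ T + 1, Mg q α ρ (1 / 4) (lv q α F b (b + a) r) (ob F b (b + a) r) := by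
    intro r hr
    rcases Nat.le_succ_iff.1 hr with h | h
    · exact hmg r h
    · rw [h, hT]; exact hM
  -- one block
  have hblock : ∀ v : ℂ, ‖v - (b + a)‖ ≤ η → (∀ t ≤ T + 1, lv q α F b v t ≤ m + 1) ∧
      lv q α F b v (T + 2) = 0 ∧ ‖ob F b v (T + 2) - (b + a)‖ ≤ η := by
    intro v hv
    have hvc : ‖v - c‖ ≤ K + B + 1 := by
      have h1 := hS.bd a (hS.AS ha)
      calc ‖v - c‖ = ‖(v - (b + a)) + (b - c) + a‖ := by ring_nf
        _ ≤ ‖v - (b + a)‖ + ‖b - c‖ + ‖a‖ := norm_add₃_le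
        _ ≤ K + B + 1 := by linarith
    obtain ⟨k1, k2, k3⟩ := compare hC hS hρ hc (κ := 1 / 4) (by norm_num) hη0 hηm hb hb
      (by rw [sub_self, norm_zero]; exact hη0.le) hba hvc (by linarith) (T + 1)
      (fun t ht _ => hlev' t ht) (fun t ht _ => hmg' t ht.le) (T + 1) (le_refl _)
    rw [hT] at k2
    obtain ⟨g1, g2, g3, g4⟩ := seg_facts hC hS hρ hc (κ := 1 / 4) (by norm_num) hη0
      (le_refl (m + 1)) hηm hpos (fun h0 => absurd h0 (by omega)) hM k2
    have h5 := oneS hC hS hρ hc hη0 (fun ζ hζ => ⟨(g1 ζ hζ).1, (g1 ζ hζ).2.2 hneg⟩) g4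
    refine ⟨fun t ht => by rw [← k1 t ht]; exact hlev' t ht, lv_succ_neg (g3.2 hneg), ?_⟩
    show ‖F (ob F b v (T + 1)) + b - (b + a)‖ ≤ η
    calc ‖F (ob F b v (T + 1)) + b - (b + a)‖ =
          ‖(F (ob F b v (T + 1)) - F (ob F b (b + a) (T + 1))) + (F (ob F b (b + a) (T + 1)) - a)‖ := by ring_nf
      _ ≤ ‖F (ob F b v (T + 1)) - F (ob F b (b + a) (T + 1))‖ + ‖F (ob F b (b + a) (T + 1)) - a‖ := norm_add_le _ _
      _ ≤ η := by linarith
  have hind : ∀ k : ℕ, lv q α F b (b + a) (k * (T + 2)) = 0 ∧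
      ‖ob F b (b + a) (k * (T + 2)) - (b + a)‖ ≤ η := by
    intro k
    induction k with
    | zero =>
      rw [zero_mul]
      refine ⟨rfl, ?_⟩
      show ‖b + a - (b + a)‖ ≤ η
      rw [sub_self, norm_zero]; exact hη0.le
    | succ k ih =>
      obtain ⟨h1, h2⟩ := ih
      obtain ⟨h3, h4, h5⟩ := hblock _ h2
      have e : (k + 1) * (T + 2) = k * (T + 2) + (T + 2) := by ring
      rw [e, lv_add q α F b (b + a) h1, ob_add]
      exact ⟨h4, h5⟩
  intro t
  have e : t = t / (T + 2) * (T + 2) + t % (T + 2) := by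
    rw [mul_comm]; exact (Nat.div_add_mod t (T + 2)).symm
  obtain ⟨h1, h2⟩ := hind (t / (T + 2))
  obtain ⟨h3, -, -⟩ := hblock _ h2
  rw [e, lv_add q α F b (b + a) h1]
  exact h3 _ (by have := Nat.mod_lt t (show 0 < T + 2 by omega); omega)

theorem cr_tendsto (hC : Cst q N K ‖α‖ B X) (hS : Sys q α F A S K) (hρ : X ≤ ρ) {ε : ℝ} (hε : 0 < ε)
    (n : ℕ) : ∃ m, n ≤ m ∧ cr q ρ B (m + 1) < ε := by
  have hX := hC.X1 hS
  have htwo : ∀ m : ℕ, (m : ℝ) ≤ tw q ρ m := by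
    intro m
    induction m with
    | zero => have := (tw_ge hC hS hρ 0).1; simp only [Nat.cast_zero]; linarith
    | succ m ih =>
      have h1 := (tw_ge hC hS hρ m).2
      have h2 := (tw_ge hC hS hρ m).1
      push_cast; linarith
  obtain ⟨k, hk⟩ := exists_nat_gt (1 / ε)
  refine ⟨max n k, le_max_left _ _, ?_⟩
  show 1 / tw q ρ (max n k) ^ (2 * q + 10) < ε
  have h1 : (k : ℝ) ≤ tw q ρ (max n k) := by
    refine le_trans ?_ (htwo _)
    exact_mod_cast le_max_right n k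
  have h2 := (tw_ge hC hS hρ (max n k)).1
  have h3 : tw q ρ (max n k) ≤ tw q ρ (max n k) ^ (2 * q + 10) := le_self_pow₀ (by linarith) (by omega)
  have h4 : 0 < tw q ρ (max n k) ^ (2 * q + 10) := by
    have : 0 < tw q ρ (max n k) := by linarith
    positivity
  rw [div_lt_iff₀ h4]
  rw [div_lt_iff₀ hε] at hk
  nlinarith

/-- asymptotic values: unbounded levels only on a null set -/
theorem null_A (hC : Cst q N K ‖α‖ B X) (hS : Sys q α F A S K) (hρ : X ≤ ρ) {a : ℂ} (ha : a ∈ A) :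
    volume {c | Adm q N α K ρ c ∧ (∀ ℓ, RGl q α F S ρ c ℓ) ∧ ∀ H, ∃ t, H < lv q α F c (c + a) t} = 0 := by
  have hK := hS.K1
  refine null_of_porous (δ := 1 / (375 * K)) (by positivity) ?_
  rintro c ⟨hc, hR, hub⟩ ε hε
  obtain ⟨m, -, hm⟩ := cr_tendsto hC hS hρ hε (q := q) (B := B) 0
  obtain ⟨t, ht⟩ := hub (m + 1)
  obtain ⟨T, hT1, hT2, hT3⟩ := first_time (show m + 1 + 1 ≤ lv q α F c (c + a) t by omega)
  have hall := allmg hC hS hρ hc (hR (m + 1))
  have hs := hS.AS ha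
  have hmg : ∀ r ≤ T, Mg q α ρ (1 / 2) (lv q α F c (c + a) r) (ob F c (c + a) r) := fun r hr =>
    hall r a hs (fun r' hr' => hT2 r' (by omega))
  have hr := cr_pos hC hS hρ (B := B) (m + 1)
  have hdeep := cell_deep hC hS hρ hc hs hT2 hT3 hmg ha
  obtain ⟨Λ, -, hcell⟩ := cell hC hS hρ hc hs hT2 hT3 hmg
  refine ⟨cr q ρ B (m + 1) / 2, by positivity, by linarith, closedBall c (cr q ρ B (m + 1) / 2) ∩ _, ?_,
    measurableSet_closedBall.inter (meas_deep hS a a T), ?_⟩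
  · rw [Set.disjoint_left]
    rintro b ⟨hb1, hb2⟩ ⟨-, -, hbub⟩
    have hb' : b ∈ ball c (cr q ρ B (m + 1)) := closedBall_subset_ball (by linarith) hb1
    obtain ⟨hlv, hmgb, -, -⟩ := hcell b hb'
    have hbB : ‖b - c‖ ≤ B := by
      rw [mem_ball, dist_eq_norm] at hb'
      have h1 : cr q ρ B (m + 1) ≤ 1 := by
        show 1 / tw q ρ m ^ (2 * q + 10) ≤ 1
        have h2 := (tw_ge hC hS hρ m).1
        have h3 := hC.X1 hS
        have h4 : (1 : ℝ) ≤ tw q ρ m ^ (2 * q + 10) := one_le_pow₀ (by linarith)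
        rw [div_le_one (by positivity)]; exact h4
      linarith [hC.B0]
    have hTb : lv q α F b (b + a) (T + 1) = m + 1 + 1 := by rw [← hlv _ (le_refl _), hT3]
    have hpos := pos_ob hC hS hρ hc (by norm_num : (1 : ℝ) / 16 ≤ 1 / 4) hbB (s_mem hS hs hbB) (t := T + 1)
      (fun r hr => hmgb r (by omega))
    rw [hTb] at hpos
    have hKb : K ≤ ‖ob F b (b + a) (T + 1)‖ := by
      refine le_trans ?_ hpos.1
      have h2 := (tw_ge hC hS hρ (m + 1)).1
      have h3 := hC.X1 hS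
      have h4 : tw q ρ (m + 1) ≤ tw q ρ (m + 1) ^ N := le_self_pow₀ (by linarith) (by have := hC.N1; omega)
      linarith [hC.c5, hC.B0]
    obtain ⟨hd1, hd2⟩ := hb2 hKb
    have hbd := loop hC hS hρ hc hbB ha (m := m + 1) (T := T) (fun r hr => by
      rw [← hlv r (by omega)]; exact hT2 r hr) hTb hmgb hd1 hd2
    obtain ⟨t', ht'⟩ := hbub (m + 1 + 1)
    have := hbd t'
    omega
  · rw [← inter_assoc, inter_self]
    refine le_trans (le_of_eq ?_) hdeep
    congr 1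
    field_simp
    norm_num

/-- singular values: unbounded levels only on a null set, if the asymptotic ones have bounded levels -/
theorem null_S (hC : Cst q N K ‖α‖ B X) (hS : Sys q α F A S K) (hρ : X ≤ ρ) {s : ℂ} (hs : s ∈ S) :
    volume {c | Adm q N α K ρ c ∧ (∀ ℓ, RGl q α F S ρ c ℓ) ∧
      (∀ a ∈ A, ∃ H, ∀ t, lv q α F c (c + a) t ≤ H) ∧ ∀ H, ∃ t, H < lv q α F c (c + s) t} = 0 := by
  have hK := hS.K1
  have hN := hC.N1
  have hX := hC.X1 hS
  refine null_of_porous (δ := 1 / (375 * K)) (by positivity) ?_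
  rintro c ⟨hc, hR, hA, hub⟩ ε hε
  obtain ⟨a, ha⟩ := hS.Ane
  obtain ⟨H, hH⟩ := hA a ha
  obtain ⟨m, hmH, hm⟩ := cr_tendsto hC hS hρ hε (q := q) (B := B) H
  obtain ⟨t, ht⟩ := hub (m + 1)
  obtain ⟨T, hT1, hT2, hT3⟩ := first_time (show m + 1 + 1 ≤ lv q α F c (c + s) t by omega)
  have hall := allmg hC hS hρ hc (hR (m + 1))
  have hmg : ∀ r ≤ T, Mg q α ρ (1 / 2) (lv q α F c (c + s) r) (ob F c (c + s) r) := fun r hr =>
    hall r s hs (fun r' hr' => hT2 r' (by omega))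
  have hmga : ∀ r, Mg q α ρ (1 / 2) (lv q α F c (c + a) r) (ob F c (c + a) r) := fun r =>
    hall r a (hS.AS ha) (fun r' hr' => (hH r').trans (by omega))
  have hr := cr_pos hC hS hρ (B := B) (m + 1)
  have hdeep := cell_deep hC hS hρ hc hs hT2 hT3 hmg ha
  obtain ⟨Λ, -, hcell⟩ := cell hC hS hρ hc hs hT2 hT3 hmg
  refine ⟨cr q ρ B (m + 1) / 2, by positivity, by linarith, closedBall c (cr q ρ B (m + 1) / 2) ∩ _, ?_,
    measurableSet_closedBall.inter (meas_deep hS s a T), ?_⟩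
  · rw [Set.disjoint_left]
    rintro b ⟨hb1, hb2⟩ ⟨-, -, -, hbub⟩
    have hb' : b ∈ ball c (cr q ρ B (m + 1)) := closedBall_subset_ball (by linarith) hb1
    obtain ⟨hlv, hmgb, -, -⟩ := hcell b hb'
    have h2 := (tw_ge hC hS hρ m).1
    have hx0 : 0 < tw q ρ m := by linarith
    have h4 : (1 : ℝ) ≤ tw q ρ m ^ (q + 5) := one_le_pow₀ (by linarith)
    obtain ⟨η, hη⟩ : ∃ η : ℝ, η = 1 / tw q ρ m ^ (q + 5) := ⟨_, rfl⟩
    have hη0 : 0 < η := by rw [hη]; positivity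
    have hη1 : η ≤ 1 := by rw [hη, div_le_one (by positivity)]; exact h4
    have hηm : η * tw q ρ m ^ (q + 5) ≤ 1 := by rw [hη, one_div_mul_cancel (by positivity)]
    have hbη : ‖b - c‖ ≤ η := by
      rw [mem_ball, dist_eq_norm] at hb'
      have h1 : cr q ρ B (m + 1) ≤ η := by
        show 1 / tw q ρ m ^ (2 * q + 10) ≤ η
        rw [hη]
        have : tw q ρ m ^ (q + 5) ≤ tw q ρ m ^ (2 * q + 10) := pow_le_pow_right₀ (by linarith) (by omega)
        gcongr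
      linarith
    have hbB : ‖b - c‖ ≤ B := by linarith [hC.B0]
    have hTb : lv q α F b (b + s) (T + 1) = m + 1 + 1 := by rw [← hlv _ (le_refl _), hT3]
    have hpos := pos_ob hC hS hρ hc (by norm_num : (1 : ℝ) / 16 ≤ 1 / 4) hbB (s_mem hS hs hbB) (t := T + 1)
      (fun r hr => hmgb r (by omega))
    rw [hTb] at hpos
    have hKb : K ≤ ‖ob F b (b + s) (T + 1)‖ := by
      refine le_trans ?_ hpos.1
      have h2 := (tw_ge hC hS hρ (m + 1)).1
      have h4 : tw q ρ (m + 1) ≤ tw q ρ (m + 1) ^ N := le_self_pow₀ (by linarith) (by omega)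
      linarith [hC.c5, hC.B0]
    obtain ⟨hd1, hd2⟩ := hb2 hKb
    obtain ⟨hM, hneg, hclose⟩ := deep_facts hC hS hρ hc hpos hd1 hd2
    -- the asymptotic orbit at b
    have hfr : ∀ T', _ := fun T' => freeze hC hS hρ hc hη0 (m := m) hηm (by linarith [hC.B0]) hbη (hS.AS ha)
      (T := T') (fun t _ => (hH t).trans (by omega)) (fun t _ => hmga t) T' (le_refl T')
    have hlva : ∀ t, lv q α F b (b + a) t ≤ m + 1 := fun t => by
      rw [← (hfr t).1 t (le_refl t)]; exact (hH t).trans (by omega)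
    have hmgab : ∀ t, Mg q α ρ (1 / 4) (lv q α F b (b + a) t) (ob F b (b + a) t) := fun t =>
      (hfr (t + 1)).2.2 t (by omega)
    -- shadowing
    have hy1 := (tw_ge hC hS hρ (m + 1 + 1)).1
    obtain ⟨Y, hY⟩ : ∃ Y, Y = tw q ρ (m + 1 + 1) := ⟨_, rfl⟩
    rw [← hY] at hclose hy1
    have hY1 : 1000 ≤ Y := by linarith
    have hYN : (1000 : ℝ) ≤ Y ^ N := hY1.trans (le_self_pow₀ (by linarith) (by omega))
    obtain ⟨η', hη'⟩ : ∃ η' : ℝ, η' = 1 / Y ^ N := ⟨_, rfl⟩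
    have hη'0 : 0 < η' := by rw [hη']; positivity
    have hη'm : η' * tw q ρ m ^ (q + 5) ≤ 1 := by
      rw [hη', one_div_mul_eq_div, div_le_one (by positivity)]
      have h5 := tw_mono hC hS hρ (show m ≤ m + 1 + 1 by omega)
      calc tw q ρ m ^ (q + 5) ≤ Y ^ (q + 5) := by rw [hY]; gcongr
        _ ≤ Y ^ N := pow_le_pow_right₀ (by linarith) (by omega)
    have hlv2 : lv q α F b (b + s) (T + 2) = 0 := lv_succ_neg hneg
    obtain ⟨w, hw⟩ : ∃ w, w = ob F b (b + s) (T + 2) := ⟨_, rfl⟩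
    have hwa : ‖w - (b + a)‖ ≤ η' / 4 := by
      rw [hw]
      show ‖F (ob F b (b + s) (T + 1)) + b - (b + a)‖ ≤ _
      rw [show F (ob F b (b + s) (T + 1)) + b - (b + a) = F (ob F b (b + s) (T + 1)) - a by ring]
      refine hclose.trans (le_of_eq ?_)
      rw [hη']; field_simp
    have hη'1 : η' ≤ 1 := by rw [hη', div_le_one (by positivity)]; linarith
    have hwc : ‖w - c‖ ≤ K + B + 1 := by
      have h1 := hS.bd a (hS.AS ha)
      calc ‖w - c‖ = ‖(w - (b + a)) + (b - c) + a‖ := by ring_nf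
        _ ≤ ‖w - (b + a)‖ + ‖b - c‖ + ‖a‖ := norm_add₃_le
        _ ≤ K + B + 1 := by linarith
    have hcmp : ∀ t, lv q α F b w t ≤ m + 1 := fun t => by
      obtain ⟨k1, -, -⟩ := compare hC hS hρ hc (κ := 1 / 4) (by norm_num) hη'0 hη'm hbB hbB
        (by rw [sub_self, norm_zero]; exact hη'0.le) (s_mem hS (hS.AS ha) hbB) hwc (by linarith) t
        (fun t' _ _ => hlva t') (fun t' _ _ => hmgab t') t (le_refl t)
      rw [← k1 t (le_refl t)]
      exact hlva t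
    obtain ⟨t', ht'⟩ := hbub (m + 1 + 1)
    rcases Nat.lt_or_ge t' (T + 2) with h | h
    · rcases Nat.lt_or_ge t' (T + 1) with h' | h'
      · have h6 := hlv t' h'.le
        have h7 := hT2 t' (by omega)
        omega
      · have : t' = T + 1 := by omega
        rw [this, hTb] at ht'
        omega
    · obtain ⟨k, rfl⟩ := Nat.exists_eq_add_of_le h
      rw [lv_add q α F b (b + s) hlv2, ← hw] at ht'
      have := hcmp k
      omega
  · rw [← inter_assoc, inter_self]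
    refine le_trans (le_of_eq ?_) hdeep
    congr 1
    field_simp
    norm_num

/-- **The half where `c` is in the large region.** -/
theorem pos_part (hC : Cst q N K ‖α‖ B X) (hS : Sys q α F A S K) (hρ : X ≤ ρ) :
    volume {c | Adm q N α K ρ c ∧ ¬ ∀ s ∈ S, Attr (fun z => F z + c) (c + s)} ≤
      ENNReal.ofReal (hS.Sfin.toFinset.card * (8000 / ‖α‖ * ρ)) := by
  set E1 := {c | Adm q N α K ρ c ∧ ¬ ∀ ℓ, RGl q α F S ρ c ℓ} with hE1
  set E2 : ℂ → Set ℂ := fun a => {c | Adm q N α K ρ c ∧ (∀ ℓ, RGl q α F S ρ c ℓ) ∧ ∀ H, ∃ t, H < lv q α F c (c + a) t}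
  set E3 : ℂ → Set ℂ := fun s => {c | Adm q N α K ρ c ∧ (∀ ℓ, RGl q α F S ρ c ℓ) ∧
      (∀ a ∈ A, ∃ H, ∀ t, lv q α F c (c + a) t ≤ H) ∧ ∀ H, ∃ t, H < lv q α F c (c + s) t}
  have hsub : {c | Adm q N α K ρ c ∧ ¬ ∀ s ∈ S, Attr (fun z => F z + c) (c + s)} ⊆
      E1 ∪ ((⋃ a ∈ A, E2 a) ∪ ⋃ s ∈ S, E3 s) := by
    rintro c ⟨hc, hno⟩
    by_contra hcon
    rw [mem_union, mem_union, not_or, not_or] at hcon
    obtain ⟨h1, h2, h3⟩ := hcon
    have hR : ∀ ℓ, RGl q α F S ρ c ℓ := by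
      by_contra h
      exact h1 ⟨hc, h⟩
    have hA : ∀ a ∈ A, ∃ H, ∀ t, lv q α F c (c + a) t ≤ H := by
      intro a ha
      by_contra h
      push Not at h
      exact h2 (mem_iUnion₂.2 ⟨a, ha, hc, hR, h⟩)
    apply hno
    intro s hs
    have hb : ∃ H, ∀ t, lv q α F c (c + s) t ≤ H := by
      by_contra h
      push Not at h
      exact h3 (mem_iUnion₂.2 ⟨s, hs, hc, hR, hA, h⟩)
    obtain ⟨H, hH⟩ := hb
    exact attr_of_bdd hC hS hρ hc hs (fun t => allmg hC hS hρ hc (hR H) t s hs (fun r _ => hH r)) hH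
  refine (measure_mono hsub).trans ((measure_union_le _ _).trans ?_)
  have hz : volume ((⋃ a ∈ A, E2 a) ∪ ⋃ s ∈ S, E3 s) = 0 := by
    rw [measure_union_null_iff]
    constructor
    · rw [measure_biUnion_null_iff hS.Afin.countable]
      exact fun a ha => null_A hC hS hρ ha
    · rw [measure_biUnion_null_iff hS.Sfin.countable]
      exact fun s hs => null_S hC hS hρ hs
  rw [hz, add_zero]
  exact border hC hS hρ

end Pool.Agent.Helper34.EF
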