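import Pool.Agent.Helper34.EF.Orb

/-!
# Margins at record times imply margins at all times
-/

set_option autoImplicit false

open Filter Topology Metric Set MeasureTheory

namespace Pool.Agent.Helper34.EF

variable {q N : ℕ} {α : ℂ} {F : ℂ → ℂ} {A S : Set ℂ} {K B X ρ : ℝ} {c : ℂ}

theorem lv_cases (q : ℕ) (α : ℂ) (F : ℂ → ℂ) (b z : ℂ) (t : ℕ) :
    (uu q α (ob F b z t) < 0 ∧ lv q α F b z (t + 1) = 0) ∨
      (¬ uu q α (ob F b z t) < 0 ∧ lv q α F b z (t + 1) = lv q α F b z t + 1) := by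
  by_cases h : uu q α (ob F b z t) < 0
  · exact Or.inl ⟨h, lv_succ_neg h⟩
  · exact Or.inr ⟨h, lv_succ_pos h⟩

/-- a drop of the level is preceded by a return -/
theorem exists_return {b z : ℂ} {j r t : ℕ} (hrt : r < t) (hr : j ≤ lv q α F b z r)
    (ht : lv q α F b z t ≤ j) :
    ∃ t', r ≤ t' ∧ t' + 1 ≤ t ∧ lv q α F b z (t' + 1) = 0 ∧ j ≤ lv q α F b z t' := by
  by_contra hcon
  push Not at hcon
  have key : ∀ k, r + k ≤ t → j + k ≤ lv q α F b z (r + k) := by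
    intro k
    induction k with
    | zero => intro _; exact hr
    | succ k ih =>
      intro hk
      have h1 := ih (by omega)
      rcases lv_cases q α F b z (r + k) with ⟨h2, h3⟩ | ⟨h2, h3⟩
      · have := hcon (r + k) (by omega) (by omega) h3
        omega
      · rw [show r + (k + 1) = r + k + 1 by ring, h3]; omega
  have := key (t - r) (by omega)
  rw [show r + (t - r) = t by omega] at this
  omega

theorem mg_mono {κ κ' : ℝ} (h : κ' ≤ κ) {j : ℕ} {z : ℂ}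
    (hm : Mg q α ρ κ j z) : Mg q α ρ κ' j z := by
  cases j with
  | zero => exact trivial
  | succ j =>
    have h1 : κ * ‖z‖ ^ q ≤ tw q ρ j * |uu q α z| := hm
    show κ' * ‖z‖ ^ q ≤ tw q ρ j * |uu q α z|
    exact (mul_le_mul_of_nonneg_right h (by positivity)).trans h1

theorem s_mem (hS : Sys q α F A S K) {s : ℂ} (hs : s ∈ S) {b : ℂ} (hb : ‖b - c‖ ≤ B) :
    ‖b + s - c‖ ≤ K + B + 1 := by
  have h1 := hS.bd s hs
  calc ‖b + s - c‖ = ‖(b - c) + s‖ := by ring_nf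
    _ ≤ ‖b - c‖ + ‖s‖ := norm_add_le _ _
    _ ≤ _ := by linarith

/-- a return from level `j` comes very close to some `b + a` -/
theorem ret_close (hC : Cst q N K ‖α‖ B X) (hS : Sys q α F A S K) (hρ : X ≤ ρ)
    (hc : Adm q N α K ρ c) {κ : ℝ} (hκ : 1 / 16 ≤ κ) {b z : ℂ} (hb : ‖b - c‖ ≤ B)
    (hz : ‖z - c‖ ≤ K + B + 1) {t : ℕ}
    (hm : ∀ s ≤ t, Mg q α ρ κ (lv q α F b z s) (ob F b z s)) (h0 : lv q α F b z (t + 1) = 0) :
    uu q α (ob F b z t) < 0 ∧ ∃ a ∈ A, ‖ob F b z (t + 1) - (b + a)‖ ≤ 1 / (4 * tw q ρ (lv q α F b z t) ^ N) := by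
  have h1 : uu q α (ob F b z t) < 0 := by
    rcases lv_cases q α F b z t with h | h
    · exact h.1
    · rw [h.2] at h0; omega
  refine ⟨h1, ?_⟩
  have h2 := pos_ob hC hS hρ hc hκ hb hz (t := t) (fun s hs => hm s hs.le)
  have h3 := st_of_pos hC hS hρ hκ h2 (hm t (le_refl t))
  obtain ⟨⟨a, ha, h4⟩, -⟩ := stS hC hS hρ hc h3 h1
  refine ⟨a, ha, ?_⟩
  show ‖F (ob F b z t) + b - (b + a)‖ ≤ _
  rw [show F (ob F b z t) + b - (b + a) = F (ob F b z t) - a by ring]
  exact h4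

/-- **All margins from the margins at record times.** -/
theorem allmg (hC : Cst q N K ‖α‖ B X) (hS : Sys q α F A S K) (hρ : X ≤ ρ)
    (hc : Adm q N α K ρ c) {ℓ : ℕ}
    (hR : ∀ s ∈ S, ∀ t, (∀ r < t, lv q α F c (c + s) r < lv q α F c (c + s) t) →
      lv q α F c (c + s) t ≤ ℓ → Mg q α ρ 1 (lv q α F c (c + s) t) (ob F c (c + s) t)) :
    ∀ t, ∀ s ∈ S, (∀ r ≤ t, lv q α F c (c + s) r ≤ ℓ) →
      Mg q α ρ (1 / 2) (lv q α F c (c + s) t) (ob F c (c + s) t) := by
  intro t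
  induction t using Nat.strong_induction_on with
  | _ t ih =>
  intro s hs hlev
  have hcc : ‖c - c‖ ≤ B := by rw [sub_self, norm_zero]; linarith [hC.B0]
  by_cases hrec : ∀ r < t, lv q α F c (c + s) r < lv q α F c (c + s) t
  · exact mg_mono (by norm_num) (hR s hs t hrec (hlev t (le_refl t)))
  push Not at hrec
  obtain ⟨r, hrt, hr⟩ := hrec
  obtain ⟨j, hj⟩ : ∃ j, j = lv q α F c (c + s) t := ⟨_, rfl⟩
  rw [← hj] at hr ⊢
  cases j with
  | zero => exact trivial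
  | succ m =>
  -- the last return from level at least `m + 1`
  classical
  obtain ⟨t1, ht1, ht1', ht1'', ht1'''⟩ := exists_return hrt hr hj.symm.le
  set P : ℕ → Prop := fun t' => t' + 1 ≤ t ∧ lv q α F c (c + s) (t' + 1) = 0 ∧
    m + 1 ≤ lv q α F c (c + s) t' with hP
  have hPt1 : P t1 := ⟨ht1', ht1'', ht1'''⟩
  obtain ⟨T1, hT1⟩ : ∃ T1, T1 = Nat.findGreatest P t := ⟨_, rfl⟩
  have hPT : P T1 := by rw [hT1]; exact Nat.findGreatest_spec (show t1 ≤ t by omega) hPt1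
  have hmax : ∀ t', T1 < t' → ¬ P t' := by
    intro t' h1 h2
    have h3 := Nat.le_findGreatest (show t' ≤ t by exact (Nat.le_succ t').trans h2.1) h2
    omega
  obtain ⟨hT2, hT3, hT4⟩ := hPT
  have hlow : ∀ r', T1 + 1 ≤ r' → r' < t → lv q α F c (c + s) r' < m + 1 := by
    intro r' h1 h2
    by_contra h3
    rw [not_lt] at h3
    obtain ⟨t2, g1, g2, g3, g4⟩ := exists_return h2 h3 hj.symm.le
    exact hmax t2 (by omega) ⟨g2, g3, g4⟩
  -- closeness
  have hcs := s_mem hS (c := c) hs hcc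
  have hmT : ∀ r ≤ T1, Mg q α ρ (1 / 2) (lv q α F c (c + s) r) (ob F c (c + s) r) := fun r hr' =>
    ih r (by omega) s hs (fun r' h => hlev r' (by omega))
  obtain ⟨h0, a, ha, hclose⟩ := ret_close hC hS hρ hc (by norm_num) hcc hcs hmT hT3
  obtain ⟨w, hw⟩ : ∃ w, w = ob F c (c + s) (T1 + 1) := ⟨_, rfl⟩
  rw [← hw] at hclose
  have hX := hC.X1 hS
  have hN := hC.N1
  obtain ⟨hj1, hj2⟩ := tw_ge hC hS hρ (m + 1)
  have hjm := (tw_ge hC hS hρ m)
  obtain ⟨η, hη⟩ : ∃ η : ℝ, η = 1 / tw q ρ (m + 1) ^ N := ⟨_, rfl⟩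
  have hy0 : 0 < tw q ρ (m + 1) := by linarith
  have hη0 : 0 < η := by rw [hη]; positivity
  have hwz : ‖w - (c + a)‖ ≤ 2 * η := by
    refine hclose.trans ?_
    have h1 : 1 / (4 * tw q ρ (lv q α F c (c + s) T1) ^ N) ≤ 1 / (4 * tw q ρ (m + 1) ^ N) := by
      have := tw_mono hC hS hρ hT4
      gcongr
    refine h1.trans ?_
    rw [hη]
    have h2 : 1 / (4 * tw q ρ (m + 1) ^ N) = 1 / 4 * (1 / tw q ρ (m + 1) ^ N) := by field_simp
    rw [h2]
    have : 0 < 1 / tw q ρ (m + 1) ^ N := by positivity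
    linarith
  have hηm : η * tw q ρ m ^ (q + 5) ≤ 1 := by
    rw [hη, one_div_mul_eq_div, div_le_one (by positivity)]
    calc tw q ρ m ^ (q + 5) ≤ tw q ρ (m + 1) ^ (q + 5) := by
          have : 0 ≤ tw q ρ m := by linarith [hjm.1]
          have := hjm.2
          gcongr
          linarith
      _ ≤ tw q ρ (m + 1) ^ N := pow_le_pow_right₀ (by linarith) (by omega)
  have haS := hS.AS ha
  have hca := s_mem hS (c := c) haS hcc
  have hwc : ‖w - c‖ ≤ K + B + 1 := by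
    have h1 := pos_ob hC hS hρ hc (by norm_num : (1 : ℝ) / 16 ≤ 1 / 2) hcc hcs (t := T1 + 1)
      (fun r hr' => hmT r (by omega))
    rw [hT3, ← hw] at h1
    exact h1
  have hsh : ∀ t', lv q α F c (c + s) (T1 + 1 + t') = lv q α F c w t' := fun t' => by
    rw [hw]; exact lv_add q α F c (c + s) hT3 t'
  have hwlev : ∀ t' ≤ t - (T1 + 1), lv q α F c w t' ≤ m + 1 := by
    intro t' ht'
    rw [← hsh]
    by_cases h : T1 + 1 + t' < t
    · exact (hlow _ (by omega) h).le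
    · rw [show T1 + 1 + t' = t by omega, ← hj]
  have hcmp := compare hC hS hρ hc (κ := 1 / 2) (by norm_num) hη0 hηm hcc hcc
    (by rw [sub_self, norm_zero]; exact hη0.le) hca hwc hwz (t - (T1 + 1))
    (fun t' ht' heq => by rw [heq t' (le_refl t')]; exact hwlev t' ht')
    (fun t' ht' heq => ih t' (by omega) a haS (fun r' hr' => by
      rw [heq r' hr']
      refine (hwlev r' (by omega)).trans ?_
      rw [hj]
      exact hlev t (le_refl t)))
  obtain ⟨k1, k2, k3⟩ := hcmp (t - (T1 + 1)) (le_refl _)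
  have hTe : T1 + 1 + (t - (T1 + 1)) = t := by omega
  have hlvT : lv q α F c w (t - (T1 + 1)) = m + 1 := by rw [← hsh, hTe, ← hj]
  have hobT : ob F c w (t - (T1 + 1)) = ob F c (c + s) t := by
    rw [hw, ← ob_add, hTe]
  have hlvz : lv q α F c (c + a) (t - (T1 + 1)) = m + 1 := by rw [k1 _ (le_refl _), hlvT]
  have hmz : Mg q α ρ 1 (m + 1) (ob F c (c + a) (t - (T1 + 1))) := by
    have h1 := hR a haS (t - (T1 + 1)) (fun r' hr' => by
      rw [hlvz, k1 r' hr'.le, ← hsh]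
      exact hlow _ (by omega) (by omega)) (by
        rw [hlvz, hj]
        exact hlev t (le_refl t))
    rwa [hlvz] at h1
  rw [hlvz, hobT] at k2
  have hposz := pos_ob hC hS hρ hc (by norm_num : (1 : ℝ) / 16 ≤ 1 / 2) hcc hca (t := t - (T1 + 1))
    (fun r' hr' => ih r' (by omega) a haS (fun r'' hr'' => by
      rw [k1 r'' (by omega)]
      refine (hwlev r'' (by omega)).trans ?_
      rw [hj]
      exact hlev t (le_refl t)))
  rw [hlvz] at hposz
  exact (seg_facts hC hS hρ hc (by norm_num : (1 : ℝ) / 8 ≤ 1) hη0 (le_refl (m + 1)) hηm hposz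
    (fun h => absurd h (by omega)) hmz k2).2.1

end Pool.Agent.Helper34.EF
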