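import Pool.Agent.Helper34.EF.Frac

/-!
# Singular values
-/

set_option autoImplicit false

open Filter Topology Metric Set MeasureTheory

namespace Pool.Agent.Helper34.EF

/-- `v` is a (finite) asymptotic value of `f` -/
def AsymVal (f : ℂ → ℂ) (v : ℂ) : Prop :=
  ∃ γ : ℝ → ℂ, Continuous γ ∧ Tendsto (fun t => ‖γ t‖) atTop atTop ∧
    Tendsto (fun t => f (γ t)) atTop (𝓝 v)

/-- `v` is a singular value of `f`: a critical value or an asymptotic value -/
def SingVal (f : ℂ → ℂ) (v : ℂ) : Prop := (∃ z, deriv f z = 0 ∧ f z = v) ∨ AsymVal f v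

variable {q : ℕ} {α : ℂ} {F : ℂ → ℂ} {A S : Set ℂ} {K : ℝ}

theorem asym_mem (hF : Differentiable ℂ F) (hSf : S.Finite)
    (hlow : ∀ ε : ℝ, 0 < ε → ∃ κ : ℝ, 0 < κ ∧ ∀ z, (∀ s ∈ S, ε ≤ ‖F z - s‖) → κ ≤ ‖deriv F z‖)
    {v : ℂ} (h : AsymVal F v) : v ∈ S := by
  by_contra hv
  obtain ⟨δ, hδ, hb⟩ := Metric.isOpen_iff.1 hSf.isClosed.isOpen_compl v hv
  have hdist : ∀ s ∈ S, δ ≤ ‖v - s‖ := by
    intro s hs
    by_contra hcon
    rw [not_le, ← dist_eq_norm, dist_comm] at hcon
    exact hb hcon hs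
  obtain ⟨κ, hκ, hlow'⟩ := hlow (δ / 3) (by positivity)
  obtain ⟨γ, hγc, hγ1, hγ2⟩ := h
  obtain ⟨t0, ht0⟩ := eventually_atTop.1 (hγ2.eventually (ball_mem_nhds v (by positivity : 0 < δ / 12)))
  have hsep : ∀ z, F z ∈ ball (F (γ t0)) (δ / 3) → κ ≤ ‖deriv F z‖ := by
    intro z hz
    refine hlow' z fun s hs => ?_
    have h1 := hdist s hs
    have h2 := ht0 t0 (le_refl _)
    rw [mem_ball] at hz
    rw [← dist_eq_norm] at h1 ⊢
    rw [dist_comm] at h2 hz
    have h3 := dist_triangle4 v (F (γ t0)) (F z) s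
    linarith
  obtain ⟨G, hG1, hG2, hG3⟩ := lift hF (b := F (γ t0)) (z0 := γ t0) (R := δ / 3) (by positivity) hκ rfl hsep
  have hmem : ∀ t, t0 ≤ t → F (γ t) ∈ ball (F (γ t0)) (δ / 3) := by
    intro t ht
    have h1 := ht0 t ht
    have h2 := ht0 t0 (le_refl _)
    rw [mem_ball]
    rw [dist_comm] at h2
    linarith [dist_triangle (F (γ t)) v (F (γ t0))]
  have hGc : ∀ x ∈ ball (F (γ t0)) (δ / 3), ContinuousAt G x := fun x hx =>
    ((hG1 x hx).differentiableAt (isOpen_ball.mem_nhds hx)).continuousAt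
  have hFγ : Continuous (fun t => F (γ t)) := hF.continuous.comp hγc
  have key : ∀ t1, t0 ≤ t1 → γ t1 = G (F (γ t1)) := by
    intro t1 ht1
    have hcl : IsClosed ({t | γ t = G (F (γ t))} ∩ Icc t0 t1) := by
      have h1 : ContinuousOn (fun t => γ t - G (F (γ t))) (Icc t0 t1) := by
        refine hγc.continuousOn.sub fun t ht => ?_
        exact ContinuousAt.continuousWithinAt
          (ContinuousAt.comp (f := fun t => F (γ t)) (hGc _ (hmem t ht.1)) hFγ.continuousAt)
      have h2 := h1.preimage_isClosed_of_isClosed isClosed_Icc (isClosed_singleton (x := (0 : ℂ)))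
      convert h2 using 1
      ext t
      constructor
      · rintro ⟨h3, h4⟩
        exact ⟨h4, sub_eq_zero.2 h3⟩
      · rintro ⟨h3, h4⟩
        exact ⟨sub_eq_zero.1 h4, h3⟩
    have h2 := hcl.Icc_subset_of_forall_mem_nhdsWithin (show γ t0 = G (F (γ t0)) from hG2.symm) ?_
    · exact h2 ⟨ht1, le_refl _⟩
    · rintro x ⟨hx1, hx2⟩
      have hx1' : γ x = G (F (γ x)) := hx1
      have hx3 := hmem x hx2.1
      have hd : deriv F (γ x) ≠ 0 := by
        have := hsep (γ x) hx3
        exact norm_pos_iff.1 (by linarith)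
      have hst : HasStrictDerivAt F (deriv F (γ x)) (γ x) :=
        (hF.contDiff.contDiffAt).hasStrictDerivAt (n := 1) one_ne_zero
      have hL := HasStrictFDerivAt.eventually_left_inverse (hst.hasStrictFDerivAt_equiv hd)
      have h3 := hγc.continuousAt (x := x) |>.eventually hL
      have h4 : ContinuousAt (fun t => G (F (γ t))) x :=
        ContinuousAt.comp (f := fun t => F (γ t)) (hGc _ hx3) hFγ.continuousAt
      unfold ContinuousAt at h4
      change Tendsto (fun t => G (F (γ t))) (𝓝 x) (𝓝 (G (F (γ x)))) at h4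
      rw [← hx1'] at h4
      have h5 := h4.eventually hL
      have h6 : ∀ᶠ t in 𝓝 x, F (γ t) ∈ ball (F (γ t0)) (δ / 3) :=
        hFγ.continuousAt.eventually (isOpen_ball.mem_nhds hx3)
      refine mem_nhdsWithin_of_mem_nhds ?_
      filter_upwards [h3, h5, h6] with t h7 h8 h9
      rw [hG3 _ h9] at h8
      show γ t = G (F (γ t))
      exact h7.symm.trans h8
  have hvb : v ∈ ball (F (γ t0)) (δ / 3) := by
    have h2 := ht0 t0 (le_refl _)
    rw [dist_comm] at h2
    rw [mem_ball]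
    linarith
  have h1 : Tendsto (fun t => ‖G (F (γ t))‖) atTop (𝓝 ‖G v‖) := ((hGc v hvb).tendsto.comp hγ2).norm
  have h2 : Tendsto (fun t => ‖γ t‖) atTop (𝓝 ‖G v‖) := by
    refine h1.congr' ?_
    filter_upwards [eventually_ge_atTop t0] with t ht
    rw [← key t ht]
  exact not_tendsto_nhds_of_tendsto_atTop hγ1 _ h2

theorem asym_of_A (hS : Sys q α F A S K) {a : ℂ} (ha : a ∈ A) : AsymVal F a := by
  obtain ⟨θ, hθ⟩ := hS.deep a ha
  have hK := hS.K1
  have hn : ∀ t : ℝ, 0 ≤ t → ‖(t : ℂ) * Complex.exp ((θ : ℂ) * Complex.I)‖ = t := by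
    intro t ht
    rw [norm_mul, Complex.norm_exp_ofReal_mul_I, mul_one, Complex.norm_real, Real.norm_of_nonneg ht]
  refine ⟨fun t => (t : ℂ) * Complex.exp ((θ : ℂ) * Complex.I), by fun_prop, ?_, ?_⟩
  · refine tendsto_id.congr' ?_
    filter_upwards [eventually_ge_atTop (0 : ℝ)] with t ht
    exact (hn t ht).symm
  · rw [tendsto_iff_norm_sub_tendsto_zero]
    have h1 : Tendsto (fun t : ℝ => Real.exp (-(t / (2 * K)))) atTop (𝓝 0) := by
      refine Real.tendsto_exp_neg_atTop_nhds_zero.comp ?_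
      exact tendsto_id.atTop_div_const (by positivity)
    refine squeeze_zero' (Eventually.of_forall fun _ => norm_nonneg _) ?_ h1
    filter_upwards [eventually_ge_atTop K] with t ht
    have ht0 : 0 ≤ t := by linarith
    have h2 := hn t ht0
    obtain ⟨h3, h4⟩ := hθ ((t : ℂ) * Complex.exp ((θ : ℂ) * Complex.I)) 0 (by rw [abs_zero]; positivity)
      (by rw [h2]; exact ht) (by rw [h2, add_zero])
    rw [h2] at h3
    refine h4.trans (Real.exp_le_exp.2 ?_)
    have h5 : t ≤ t ^ q := le_self_pow₀ (by linarith) (by have := hS.q1; omega)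
    have h6 : t / K ≤ t ^ q / K := by gcongr
    have h7 : t / (2 * K) = t / K / 2 := by field_simp
    rw [h7]
    linarith

theorem sing_iff (hS : Sys q α F A S K) (hcrit : ∀ z, deriv F z = 0 → F z ∈ S)
    (hSA : ∀ s ∈ S, s ∈ A ∨ ∃ z, deriv F z = 0 ∧ F z = s)
    (hlow : ∀ ε : ℝ, 0 < ε → ∃ κ : ℝ, 0 < κ ∧ ∀ z, (∀ s ∈ S, ε ≤ ‖F z - s‖) → κ ≤ ‖deriv F z‖)
    (v : ℂ) : SingVal F v ↔ v ∈ S := by
  constructor
  · rintro (⟨z, h1, rfl⟩ | h)
    · exact hcrit z h1
    · exact asym_mem hS.diff hS.Sfin hlow h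
  · intro h
    rcases hSA v h with h1 | h1
    · exact Or.inr (asym_of_A hS h1)
    · exact Or.inl h1

theorem sing_add (F : ℂ → ℂ) (c v : ℂ) : SingVal (fun z => F z + c) (c + v) ↔ SingVal F v := by
  unfold SingVal AsymVal
  refine or_congr ?_ ?_
  · refine exists_congr fun z => ?_
    rw [deriv_add_const]
    refine and_congr_right fun _ => ?_
    constructor
    · intro h; linear_combination h
    · intro h; show F z + c = c + v; rw [h]; ring
  · refine exists_congr fun γ => and_congr_right fun _ => and_congr_right fun _ => ?_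
    constructor
    · intro h
      have := h.sub_const c
      simpa using this
    · intro h
      have := h.add_const c
      rwa [add_comm v c] at this

end Pool.Agent.Helper34.EF
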