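import Pool.Agent.Helper34.EF.Base

/-!
# One step of the dynamics
-/

set_option autoImplicit false

open Filter Topology Metric Set MeasureTheory

namespace Pool.Agent.Helper34.EF

/-- the tower of sizes -/
noncomputable def tw (q : ℕ) (ρ : ℝ) : ℕ → ℝ
  | 0 => ρ
  | n + 1 => Real.exp (tw q ρ n ^ (q + 1))

/-- the constants; all tower values are at least `X` -/
structure Cst (q N : ℕ) (K a B X : ℝ) : Prop where
  N1 : 10 * q + 40 ≤ N
  a0 : 0 < a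
  B0 : 1 ≤ B
  B1 : 2 * K ≤ B
  B2 : 1000 / a ≤ B
  c1 : 10000 * K ^ 2 * (N + 2) ≤ X
  c2 : ((4 * N).factorial : ℝ) ≤ X
  c3 : 10000 * (q + 1) * 4 ^ q * (a + 1) * (1 / a + 1) ≤ X
  c4 : 4 * Real.exp (a * q * 2 ^ q * (K + B + 1)) ≤ X
  c5 : 100 * (K + B + 1) ≤ X
  c6 : 4 ^ q * K + 1 ≤ X
  c7 : 100000 * (q + 1) * 4 ^ q * B ≤ X

/-- bound in the definition of the thin strip around `Re (α c ^ q) = 0` -/
noncomputable def kk (q N : ℕ) (K : ℝ) : ℝ := 8 * (N + 1) + K * 2 ^ (q + 1)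

/-- admissible base parameters -/
structure Adm (q N : ℕ) (α : ℂ) (K ρ : ℝ) (c : ℂ) : Prop where
  l : ρ / 4 ≤ ‖c‖
  u : ‖c‖ ≤ ρ / 2
  re : kk q N K * ‖c‖ ^ (q - 1) * Real.log ‖c‖ ≤ uu q α c

/-- position (weak form) at level `j` -/
def St (q N : ℕ) (α : ℂ) (K B ρ : ℝ) (c : ℂ) : ℕ → ℂ → Prop
  | 0, z => ‖z - c‖ ≤ K + B + 1
  | j + 1, z => tw q ρ j ^ N / 2 ≤ ‖z‖ ∧ ‖z‖ ≤ 2 * tw q ρ (j + 1) ∧
      1 / 16 * ‖z‖ ^ q ≤ tw q ρ j * |uu q α z|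

/-- position at level `j` -/
def Pos (q N : ℕ) (K B ρ : ℝ) (c : ℂ) : ℕ → ℂ → Prop
  | 0, z => ‖z - c‖ ≤ K + B + 1
  | j + 1, z => tw q ρ j ^ N ≤ ‖z‖ ∧ ‖z‖ ≤ tw q ρ (j + 1)

/-- margin at level `j` -/
def Mg (q : ℕ) (α : ℂ) (ρ κ : ℝ) : ℕ → ℂ → Prop
  | 0, _ => True
  | j + 1, z => κ * ‖z‖ ^ q ≤ tw q ρ j * |uu q α z|

variable {q N : ℕ} {α : ℂ} {F : ℂ → ℂ} {A S : Set ℂ} {K B X ρ : ℝ} {c : ℂ}

theorem pow_le_exp_of_le {n : ℕ} {x : ℝ} (hx : 0 < x) (h : ((n + 1).factorial : ℝ) ≤ x) :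
    x ^ n ≤ Real.exp x := by
  have h1 := Real.pow_div_factorial_le_exp x hx.le (n + 1)
  refine le_trans ?_ h1
  rw [le_div_iff₀ (by positivity), pow_succ]
  gcongr

theorem Cst.X0 {a : ℝ} (hC : Cst q N K a B X) (h2 : 1 ≤ K) : 1000 ≤ X := by
  have h1 := hC.c1
  have hN : (0 : ℝ) ≤ N := Nat.cast_nonneg N
  have hK2 : 1 ≤ K ^ 2 := by nlinarith
  nlinarith

theorem Cst.X1 (hC : Cst q N K ‖α‖ B X) (hS : Sys q α F A S K) : 1000 ≤ X := hC.X0 hS.K1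

/-- tower step -/
theorem tw_pow (hC : Cst q N K ‖α‖ B X) (hS : Sys q α F A S K) {x : ℝ} (hx : X ≤ x) {n : ℕ}
    (hn : n + 1 ≤ 4 * N) : x ^ n ≤ Real.exp (x ^ (q + 1)) := by
  have hX := hC.X1 hS
  have h1 : ((n + 1).factorial : ℝ) ≤ x := by
    refine le_trans ?_ (hC.c2.trans hx)
    exact_mod_cast Nat.factorial_le hn
  refine (pow_le_exp_of_le (by linarith) h1).trans (Real.exp_le_exp.2 ?_)
  exact le_self_pow₀ (by linarith) (by omega)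

theorem tw_ge (hC : Cst q N K ‖α‖ B X) (hS : Sys q α F A S K) (hρ : X ≤ ρ) (j : ℕ) :
    ρ ≤ tw q ρ j ∧ 2 * tw q ρ j ≤ tw q ρ (j + 1) := by
  have hX := hC.X1 hS
  have hN := hC.N1
  have key : ∀ x : ℝ, X ≤ x → 2 * x ≤ Real.exp (x ^ (q + 1)) := by
    intro x hx
    have h := tw_pow hC hS hx (n := 2) (by omega)
    have : 2 * x ≤ x ^ 2 := by nlinarith
    linarith
  induction j with
  | zero => exact ⟨le_refl _, key ρ hρ⟩
  | succ j ih =>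
    have h1 : ρ ≤ tw q ρ (j + 1) := by linarith [ih.1, ih.2]
    exact ⟨h1, key _ (hρ.trans h1)⟩

theorem step0' (hC : Cst q N K ‖α‖ B X) (hq : 1 ≤ q) (hK : 1 ≤ K) (hρ : X ≤ ρ)
    (hc : Adm q N α K ρ c) {ζ : ℂ} (hζ : ‖ζ - c‖ ≤ K + B + 1) :
    K ≤ ‖ζ‖ ∧ ‖ζ‖ ≤ ρ ∧ K * ‖ζ‖ ^ (q - 1) * Real.log ‖ζ‖ ≤ |uu q α ζ| ∧ 0 < uu q α ζ ∧
      4 * ρ ^ N ≤ Real.exp (|uu q α ζ| / 2) ∧ ρ / 8 ≤ ‖ζ‖ := by
  have hX := hC.X0 hK
  have hB := hC.B0
  have h5 := hC.c5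
  have hcl := hc.l
  have hcu := hc.u
  set r := ‖c‖ with hr
  set s := K + B + 1 with hs
  have hs3 : 3 ≤ s := by linarith
  have hrs : 25 * s ≤ r := by linarith
  have hr1 : 1 ≤ r := by linarith
  have hr2 : 250 ≤ r := by linarith
  have hζu : ‖ζ‖ ≤ r + s := by
    have := norm_sub_norm_le ζ c
    linarith
  have hζl : r - s ≤ ‖ζ‖ := by
    have := norm_sub_norm_le c ζ
    rw [norm_sub_rev] at this
    linarith
  have hsub := uu_sub_le q α (z := c) (w := ζ) (R := 2 * r) (by linarith) (by linarith)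
  have hlog0 : 0 < Real.log r := Real.log_pos (by linarith)
  have hkk1 : 8 * ((N : ℝ) + 1) ≤ kk q N K := by unfold kk; have : 0 ≤ K * 2 ^ (q + 1) := by positivity
                                                 linarith
  have hkk2 : K * 2 ^ (q + 1) ≤ kk q N K := by unfold kk; have : (0 : ℝ) ≤ 8 * ((N : ℝ) + 1) := by positivity
                                               linarith
  have hN0 : (0 : ℝ) ≤ N := Nat.cast_nonneg N
  have hkk0 : 8 ≤ kk q N K := by linarith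
  -- logarithm large
  have hlog1 : ‖α‖ * q * 2 ^ q * s ≤ Real.log r := by
    rw [Real.le_log_iff_exp_le (by linarith)]
    have := hC.c4
    linarith
  have hrq : 1 ≤ r ^ (q - 1) := one_le_pow₀ hr1
  have hdiff : |uu q α ζ - uu q α c| ≤ kk q N K / 2 * r ^ (q - 1) * Real.log r := by
    refine hsub.trans ?_
    calc ‖α‖ * q * (2 * r) ^ (q - 1) * ‖ζ - c‖ ≤ ‖α‖ * q * (2 * r) ^ (q - 1) * s := by gcongr
      _ = ‖α‖ * q * 2 ^ (q - 1) * s * r ^ (q - 1) := by rw [mul_pow]; ring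
      _ ≤ ‖α‖ * q * 2 ^ q * s * r ^ (q - 1) := by
        gcongr
        · norm_num
        · omega
      _ ≤ Real.log r * r ^ (q - 1) := by gcongr
      _ ≤ kk q N K / 2 * r ^ (q - 1) * Real.log r := by
        have : 0 ≤ r ^ (q - 1) * Real.log r := by positivity
        nlinarith
  have hr00 : 0 < r := by linarith
  have hre := hc.re
  rw [← hr] at hre
  have hlow : kk q N K / 2 * r ^ (q - 1) * Real.log r ≤ uu q α ζ := by
    have := (abs_le.1 hdiff).1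
    nlinarith
  have hkkp : 0 < kk q N K := by linarith
  have hpos : 0 < uu q α ζ := by
    refine lt_of_lt_of_le ?_ hlow
    positivity
  rw [abs_of_pos hpos]
  refine ⟨by linarith, by linarith, ?_, hpos, ?_, by linarith⟩
  · refine le_trans ?_ hlow
    have hζ2 : ‖ζ‖ ≤ 2 * r := by linarith
    have hζ1 : 1 ≤ ‖ζ‖ := by linarith
    have h1 : Real.log ‖ζ‖ ≤ 2 * Real.log r := by
      rw [← Real.log_rpow (by linarith) (2 : ℝ)]
      apply Real.log_le_log (by linarith)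
      have : r ^ (2 : ℝ) = r ^ 2 := by norm_cast
      rw [this]
      nlinarith
    calc K * ‖ζ‖ ^ (q - 1) * Real.log ‖ζ‖ ≤ K * (2 * r) ^ (q - 1) * (2 * Real.log r) := by
          have : 0 ≤ Real.log ‖ζ‖ := Real.log_nonneg hζ1
          gcongr
      _ = K * (2 ^ (q - 1) * 2) * r ^ (q - 1) * Real.log r := by rw [mul_pow]; ring
      _ = K * 2 ^ q * r ^ (q - 1) * Real.log r := by rw [← pow_succ]; congr 4; omega
      _ ≤ kk q N K / 2 * r ^ (q - 1) * Real.log r := by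
        have h2 : K * 2 ^ q ≤ kk q N K / 2 := by
          have : K * 2 ^ (q + 1) = 2 * (K * 2 ^ q) := by ring
          linarith
        gcongr
  · have h1 : (N + 1) * Real.log ρ ≤ uu q α ζ / 2 := by
      have h2 : Real.log ρ ≤ 2 * Real.log r := by
        rw [← Real.log_rpow (by linarith) (2 : ℝ)]
        apply Real.log_le_log (by linarith)
        have : r ^ (2 : ℝ) = r ^ 2 := by norm_cast
        rw [this]
        nlinarith
      have h3 : kk q N K / 2 * Real.log r ≤ uu q α ζ := by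
        refine le_trans ?_ hlow
        calc kk q N K / 2 * Real.log r = kk q N K / 2 * 1 * Real.log r := by ring
          _ ≤ _ := by gcongr
      have h5 : 8 * ((N : ℝ) + 1) * Real.log r ≤ kk q N K * Real.log r := by gcongr
      nlinarith
    have hρ0 : 0 < ρ := by linarith
    calc 4 * ρ ^ N ≤ ρ * ρ ^ N := by
          have : 0 ≤ ρ ^ N := by positivity
          nlinarith
      _ = ρ ^ (N + 1) := by ring
      _ = Real.exp ((N + 1) * Real.log ρ) := by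
        rw [← Real.exp_log (show 0 < ρ by linarith), ← Real.exp_nat_mul, Real.exp_log (by linarith)]
        push_cast; ring_nf
      _ ≤ _ := Real.exp_le_exp.2 h1

theorem step0 (hC : Cst q N K ‖α‖ B X) (hS : Sys q α F A S K) (hρ : X ≤ ρ)
    (hc : Adm q N α K ρ c) {ζ : ℂ} (hζ : ‖ζ - c‖ ≤ K + B + 1) :
    K ≤ ‖ζ‖ ∧ ‖ζ‖ ≤ ρ ∧ K * ‖ζ‖ ^ (q - 1) * Real.log ‖ζ‖ ≤ |uu q α ζ| ∧ 0 < uu q α ζ ∧
      4 * ρ ^ N ≤ Real.exp (|uu q α ζ| / 2) ∧ ρ / 8 ≤ ‖ζ‖ :=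
  step0' hC hS.q1 hS.K1 hρ hc hζ

/-- facts at a weak position -/
theorem st_facts (hC : Cst q N K ‖α‖ B X) (hS : Sys q α F A S K) (hρ : X ≤ ρ)
    (hc : Adm q N α K ρ c) {j : ℕ} {ζ : ℂ} (h : St q N α K B ρ c j ζ) :
    K ≤ ‖ζ‖ ∧ ‖ζ‖ ≤ 2 * tw q ρ j ∧ K * ‖ζ‖ ^ (q - 1) * Real.log ‖ζ‖ ≤ |uu q α ζ| ∧ uu q α ζ ≠ 0 ∧
      4 * tw q ρ j ^ N ≤ Real.exp (|uu q α ζ| / 2) ∧ 1 ≤ ‖ζ‖ := by
  have hX := hC.X1 hS
  have hK := hS.K1
  cases j with
  | zero =>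
    obtain ⟨h1, h2, h3, h4, h5, h6⟩ := step0 hC hS hρ hc h
    refine ⟨h1, ?_, h3, h4.ne', h5, by linarith⟩
    show ‖ζ‖ ≤ 2 * ρ
    linarith
  | succ j =>
    obtain ⟨h1, h2, h3⟩ := h
    have hN := hC.N1
    have hj := (tw_ge hC hS hρ j)
    obtain ⟨h4, h5, h6⟩ := marg hS (by omega : q + 4 ≤ N) (x := tw q ρ j)
      (by linarith [hC.c1, hj.1]) h1 h3
    refine ⟨h4, h2, h5, ?_, h6, by linarith⟩
    intro h0
    rw [h0, abs_zero, zero_div, Real.exp_zero] at h6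
    have h7 : (1 : ℝ) ≤ Real.exp (tw q ρ j ^ (q + 1)) ^ N := by
      apply one_le_pow₀
      apply Real.one_le_exp
      have : 0 ≤ tw q ρ j := by linarith [hj.1]
      positivity
    linarith

/-- the derivative in the region where `F` is large -/
theorem far_deriv (hS : Sys q α F A S K) {z : ℂ} (h1 : K ≤ ‖z‖) (h2 : K ≤ ‖F z‖) :
    ‖deriv F z‖ ≤ 2 * (q * ‖α‖ * ‖z‖ ^ (q - 1)) * ‖F z‖ ∧
      1 / 2 * (q * ‖α‖ * ‖z‖ ^ (q - 1)) * ‖F z‖ ≤ ‖deriv F z‖ := by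
  have h := hS.far z h1 h2
  have e : ‖q * α * z ^ (q - 1) * F z‖ = q * ‖α‖ * ‖z‖ ^ (q - 1) * ‖F z‖ := by
    rw [norm_mul, norm_mul, norm_mul, norm_pow, Complex.norm_natCast]
  rw [e] at h
  have h3 : 0 ≤ q * ‖α‖ * ‖z‖ ^ (q - 1) * ‖F z‖ := by positivity
  have h4 := norm_sub_norm_le (deriv F z) (q * α * z ^ (q - 1) * F z)
  have h5 := norm_sub_norm_le (q * α * z ^ (q - 1) * F z) (deriv F z)
  rw [norm_sub_rev] at h5
  rw [e] at h4 h5
  constructor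
  · linarith
  · linarith

/-- a step in the large region -/
theorem stL (hC : Cst q N K ‖α‖ B X) (hS : Sys q α F A S K) (hρ : X ≤ ρ)
    (hc : Adm q N α K ρ c) {j : ℕ} {ζ : ℂ} (h : St q N α K B ρ c j ζ) (h0 : 0 ≤ uu q α ζ)
    {b : ℂ} (hb : ‖b‖ ≤ ρ) :
    K ≤ ‖F ζ‖ ∧ 4 * tw q ρ j ^ N ≤ ‖F ζ‖ ∧ Pos q N K B ρ c (j + 1) (F ζ + b) ∧
      ‖F ζ‖ ≤ 2 * ‖F ζ + b‖ ∧ ‖F ζ + b‖ ≤ 2 * ‖F ζ‖ := by
  have hX := hC.X1 hS
  have hK := hS.K1
  have hN := hC.N1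
  obtain ⟨h1, h2, h3, h4, h5, h6⟩ := st_facts hC hS hρ hc h
  rw [abs_of_nonneg h0] at h3 h5
  obtain ⟨hj1, hj2⟩ := tw_ge hC hS hρ j
  set y := tw q ρ j with hy
  have hy1 : 1 ≤ y := by linarith
  have hyN : y ≤ y ^ N := le_self_pow₀ hy1 (by omega)
  have h7 : 4 * y ^ N ≤ ‖F ζ‖ := h5.trans (hS.big ζ h1 h3)
  have h8 := norm_sub_norm_le (F ζ) (-b)
  rw [norm_neg, sub_neg_eq_add] at h8
  have h9 := norm_add_le (F ζ) b
  have hKX : K ≤ X := by linarith [hC.c5, hC.B0]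
  refine ⟨by linarith, h7, ⟨?_, ?_⟩, by linarith, by linarith⟩
  · show y ^ N ≤ ‖F ζ + b‖
    linarith
  · show ‖F ζ + b‖ ≤ Real.exp (y ^ (q + 1))
    have h10 := hS.up ζ h1
    have h11 : K * ‖ζ‖ ^ q ≤ y ^ (q + 1) - 1 := by
      have h12 : K * ‖ζ‖ ^ q ≤ K * (2 * y) ^ q := by gcongr
      have h13 : K * (2 * y) ^ q = (K * 2 ^ q) * y ^ q := by rw [mul_pow]; ring
      have h14 : K * 2 ^ q + 1 ≤ y := by
        have h15 := hC.c6
        have h16 : (2 : ℝ) ^ q ≤ 4 ^ q := by gcongr; norm_num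
        have h17 : K * 2 ^ q ≤ 4 ^ q * K := by nlinarith
        linarith
      have h18 : 1 ≤ y ^ q := one_le_pow₀ hy1
      have h19 : y ^ (q + 1) = y * y ^ q := by ring
      rw [h19]
      nlinarith
    have h12 : ‖F ζ + b‖ ≤ Real.exp (y ^ (q + 1) - 1) + y := by
      have := h10.trans (Real.exp_le_exp.2 h11)
      linarith
    refine h12.trans ?_
    have h13 : 2 * y ≤ Real.exp (y ^ (q + 1)) := hj2
    rw [Real.exp_sub]
    have h14 := Real.exp_one_gt_d9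
    have h15 : Real.exp (y ^ (q + 1)) / Real.exp 1 ≤ Real.exp (y ^ (q + 1)) / 2 := by
      gcongr; linarith
    linarith

/-- a step in the small region -/
theorem stS (hC : Cst q N K ‖α‖ B X) (hS : Sys q α F A S K) (hρ : X ≤ ρ)
    (hc : Adm q N α K ρ c) {j : ℕ} {ζ : ℂ} (h : St q N α K B ρ c j ζ) (h0 : uu q α ζ < 0) :
    (∃ a ∈ A, ‖F ζ - a‖ ≤ 1 / (4 * tw q ρ j ^ N)) ∧ ‖deriv F ζ‖ ≤ 1 / (4 * tw q ρ j ^ N) := by
  have hX := hC.X1 hS
  obtain ⟨h1, h2, h3, h4, h5, h6⟩ := st_facts hC hS hρ hc h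
  rw [abs_of_neg h0] at h3 h5
  obtain ⟨hj1, hj2⟩ := tw_ge hC hS hρ j
  have hy : 0 < tw q ρ j := by linarith
  have h7 : Real.exp (uu q α ζ / 2) ≤ 1 / (4 * tw q ρ j ^ N) := by
    rw [le_div_iff₀ (by positivity)]
    calc Real.exp (uu q α ζ / 2) * (4 * tw q ρ j ^ N) ≤
          Real.exp (uu q α ζ / 2) * Real.exp (-uu q α ζ / 2) := by gcongr
      _ = 1 := by rw [← Real.exp_add]; ring_nf; exact Real.exp_zero
  obtain ⟨⟨a, ha, h8⟩, h9⟩ := hS.small ζ h1 (by linarith)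
  exact ⟨⟨a, ha, h8.trans h7⟩, h9.trans h7⟩

theorem st_of_pos {κ : ℝ} (hC : Cst q N K ‖α‖ B X) (hS : Sys q α F A S K) (hρ : X ≤ ρ)
    (hκ : 1 / 16 ≤ κ) {j : ℕ} {z : ℂ}
    (h : Pos q N K B ρ c j z) (hm : Mg q α ρ κ j z) : St q N α K B ρ c j z := by
  have hX := hC.X1 hS
  cases j with
  | zero => exact h
  | succ j =>
    obtain ⟨hj1, hj2⟩ := tw_ge hC hS hρ j
    obtain ⟨h1, h2⟩ := h
    have h3 : κ * ‖z‖ ^ q ≤ tw q ρ j * |uu q α z| := hm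
    have h4 : 0 < tw q ρ j := by linarith
    refine ⟨?_, by linarith, ?_⟩
    · have : 0 < tw q ρ j ^ N := by positivity
      linarith
    · refine le_trans ?_ h3
      gcongr

/-- relative closeness -/
theorem near (hC : Cst q N K ‖α‖ B X) (hS : Sys q α F A S K) (hρ : X ≤ ρ)
    {κ δ : ℝ} (hκ : 1 / 8 ≤ κ) {j : ℕ} {z ζ : ℂ}
    (h : Pos q N K B ρ c (j + 1) z) (hm : Mg q α ρ κ (j + 1) z) (hd : ‖ζ - z‖ ≤ δ * ‖z‖)
    (hδ : δ * tw q ρ j ^ 2 ≤ 1) :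
    St q N α K B ρ c (j + 1) ζ ∧ Mg q α ρ (κ / 2) (j + 1) ζ ∧ (uu q α ζ < 0 ↔ uu q α z < 0) ∧
      ‖ζ‖ ≤ 2 * ‖z‖ := by
  have hX := hC.X1 hS
  have hN := hC.N1
  obtain ⟨hj1, hj2⟩ := tw_ge hC hS hρ j
  obtain ⟨h1, h2⟩ := h
  have h3 : κ * ‖z‖ ^ q ≤ tw q ρ j * |uu q α z| := hm
  set x := tw q ρ j with hx
  have hx1 : 1000 ≤ x := by linarith
  have hxX : X ≤ x := by linarith
  have hz0 : 0 < ‖z‖ := by
    refine lt_of_lt_of_le ?_ h1
    positivity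
  have hδ0 : 0 ≤ δ := by
    have := (norm_nonneg _).trans hd
    by_contra hneg
    nlinarith
  have hδ1 : δ ≤ 1 / x ^ 2 := by
    rw [le_div_iff₀ (by positivity)]; exact hδ
  have hδ2 : δ ≤ 1 / 1000 := by
    refine hδ1.trans ?_
    rw [div_le_div_iff₀ (by positivity) (by norm_num)]
    nlinarith
  have hζu : ‖ζ‖ ≤ (1 + δ) * ‖z‖ := by
    have := norm_sub_norm_le ζ z
    linarith
  have hζl : (1 - δ) * ‖z‖ ≤ ‖ζ‖ := by
    have := norm_sub_norm_le z ζ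
    rw [norm_sub_rev] at this
    linarith
  have hζ2 : ‖ζ‖ ≤ 2 * ‖z‖ :=
    hζu.trans (mul_le_mul_of_nonneg_right (by linarith) hz0.le)
  have hsub := uu_sub_le q α (z := z) (w := ζ) (R := 2 * ‖z‖) (by linarith) hζ2
  have hzq : 0 < ‖z‖ ^ q := by positivity
  have hq1 := hS.q1
  have hsub2 : |uu q α ζ - uu q α z| ≤ ‖α‖ * q * 2 ^ q * δ * ‖z‖ ^ q := by
    refine hsub.trans ?_
    calc ‖α‖ * q * (2 * ‖z‖) ^ (q - 1) * ‖ζ - z‖ ≤ ‖α‖ * q * (2 * ‖z‖) ^ (q - 1) * (δ * ‖z‖) := by gcongr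
      _ = ‖α‖ * q * 2 ^ (q - 1) * δ * (‖z‖ ^ (q - 1) * ‖z‖) := by rw [mul_pow]; ring
      _ = ‖α‖ * q * 2 ^ (q - 1) * δ * ‖z‖ ^ q := by rw [← pow_succ]; congr 2; omega
      _ ≤ _ := by
        gcongr
        · norm_num
        · omega
  have hc3 := hC.c3
  have ha := hC.a0
  have hb1 : 0 < 1 / ‖α‖ := by positivity
  have hbig : 64 * (‖α‖ * q * 2 ^ q) ≤ x := by
    refine le_trans ?_ (hc3.trans hxX)
    have e1 : (2 : ℝ) ^ q ≤ 4 ^ q := by gcongr; norm_num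
    have e2 : 64 * (‖α‖ * q * 2 ^ q) ≤ 64 * ((‖α‖ + 1) * (q + 1) * 4 ^ q) := by
      gcongr <;> linarith
    have e3 : 0 ≤ (‖α‖ + 1) * (q + 1) * (4 : ℝ) ^ q := by positivity
    calc _ ≤ 64 * ((‖α‖ + 1) * (q + 1) * 4 ^ q) := e2
      _ ≤ 10000 * ((‖α‖ + 1) * (q + 1) * 4 ^ q) * 1 := by linarith
      _ ≤ 10000 * ((‖α‖ + 1) * (q + 1) * 4 ^ q) * (1 / ‖α‖ + 1) := by gcongr; linarith
      _ = _ := by ring
  -- difference in terms of the margin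
  have hx0 : 0 < x := by linarith
  have hdx : x * (‖α‖ * q * 2 ^ q * δ * ‖z‖ ^ q) ≤ 1 / 64 * ‖z‖ ^ q := by
    have e1 : x * δ ≤ 1 / x := by
      rw [le_div_iff₀ hx0]
      calc x * δ * x = δ * x ^ 2 := by ring
        _ ≤ 1 := hδ
    have e2 : (‖α‖ * q * 2 ^ q) * (x * δ) ≤ 1 / 64 := by
      calc (‖α‖ * q * 2 ^ q) * (x * δ) ≤ (x / 64) * (1 / x) := by
            apply mul_le_mul (by linarith) e1 (by positivity) (by positivity)
        _ = 1 / 64 := by field_simp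
    calc x * (‖α‖ * q * 2 ^ q * δ * ‖z‖ ^ q) = ((‖α‖ * q * 2 ^ q) * (x * δ)) * ‖z‖ ^ q := by ring
      _ ≤ 1 / 64 * ‖z‖ ^ q := by gcongr
  have hxd : x * |uu q α ζ - uu q α z| ≤ κ / 8 * ‖z‖ ^ q := by
    calc x * |uu q α ζ - uu q α z| ≤ x * (‖α‖ * q * 2 ^ q * δ * ‖z‖ ^ q) := by gcongr
      _ ≤ 1 / 64 * ‖z‖ ^ q := hdx
      _ ≤ κ / 8 * ‖z‖ ^ q := mul_le_mul_of_nonneg_right (by linarith) hzq.le
  have habs : |uu q α z| ≤ |uu q α ζ| + |uu q α ζ - uu q α z| := by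
    have := abs_sub_abs_le_abs_sub (uu q α z) (uu q α ζ)
    rw [abs_sub_comm] at this
    linarith
  have hmζ : 7 / 8 * κ * ‖z‖ ^ q ≤ x * |uu q α ζ| := by
    have : x * |uu q α z| ≤ x * |uu q α ζ| + x * |uu q α ζ - uu q α z| := by
      rw [← mul_add]; gcongr
    linarith
  have hpw : ‖ζ‖ ^ q ≤ 3 / 2 * ‖z‖ ^ q := by
    have e1 : (1 + δ) ^ q ≤ 3 / 2 := by
      have e2 : (1 + δ) ^ q ≤ Real.exp (q * δ) := by
        rw [Real.exp_nat_mul]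
        gcongr
        linarith [Real.add_one_le_exp δ]
      have e3 : (q : ℝ) * δ ≤ 1 / 3 := by
        have e4 : 3 * (q : ℝ) ≤ x := by
          refine le_trans ?_ (hc3.trans hxX)
          have e5 : (1 : ℝ) ≤ 4 ^ q := one_le_pow₀ (by norm_num)
          have e6 : (1 : ℝ) ≤ ‖α‖ + 1 := by linarith
          have e7 : (1 : ℝ) ≤ 1 / ‖α‖ + 1 := by linarith
          have e8 : (0 : ℝ) ≤ q := Nat.cast_nonneg q
          calc 3 * (q : ℝ) ≤ 10000 * (q + 1) * 1 * 1 * 1 := by linarith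
            _ ≤ 10000 * (q + 1) * 4 ^ q * (‖α‖ + 1) * (1 / ‖α‖ + 1) := by gcongr
        have e9 : (q : ℝ) * δ ≤ (x / 3) * (1 / x ^ 2) := by
          apply mul_le_mul (by linarith) hδ1 hδ0 (by positivity)
        refine e9.trans ?_
        have : x / 3 * (1 / x ^ 2) = 1 / (3 * x) := by field_simp
        rw [this, div_le_div_iff₀ (by positivity) (by norm_num)]
        linarith
      have e4 : Real.exp (q * δ) ≤ Real.exp (1 / 3) := Real.exp_le_exp.2 e3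
      have e5 : Real.exp (1 / 3) ≤ 3 / 2 := by
        have := Real.exp_bound' (x := 1 / 3) (by norm_num) (by norm_num) (n := 3) (by norm_num)
        refine this.trans ?_
        norm_num [Finset.sum_range_succ, Nat.factorial]
      linarith
    calc ‖ζ‖ ^ q ≤ ((1 + δ) * ‖z‖) ^ q := by gcongr
      _ = (1 + δ) ^ q * ‖z‖ ^ q := by rw [mul_pow]
      _ ≤ _ := by gcongr
  have hMg : κ / 2 * ‖ζ‖ ^ q ≤ x * |uu q α ζ| := by
    refine le_trans ?_ hmζ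
    have hκz : 0 ≤ κ * ‖z‖ ^ q := by positivity
    calc κ / 2 * ‖ζ‖ ^ q ≤ κ / 2 * (3 / 2 * ‖z‖ ^ q) := by gcongr
      _ = 3 / 4 * (κ * ‖z‖ ^ q) := by ring
      _ ≤ 7 / 8 * (κ * ‖z‖ ^ q) := mul_le_mul_of_nonneg_right (by norm_num) hκz
      _ = 7 / 8 * κ * ‖z‖ ^ q := by ring
  refine ⟨⟨?_, ?_, ?_⟩, hMg, ?_, hζ2⟩
  · have e1 : x ^ N / 2 ≤ (1 - δ) * ‖z‖ := by
      have e2 : 1 / 2 * x ^ N ≤ (1 - δ) * ‖z‖ := by
        apply mul_le_mul (by linarith) h1 (by positivity) (by linarith)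
      linarith
    exact e1.trans hζl
  · exact hζ2.trans (by linarith)
  · refine le_trans ?_ hMg
    exact mul_le_mul_of_nonneg_right (by linarith) (by positivity)
  · -- signs
    have hlt : |uu q α ζ - uu q α z| < |uu q α z| := by
      have e1 : x * |uu q α ζ - uu q α z| < x * |uu q α z| := by
        have : 0 < κ * ‖z‖ ^ q := by positivity
        linarith
      exact lt_of_mul_lt_mul_left e1 hx0.le
    constructor
    · intro h
      by_contra h'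
      rw [not_lt] at h'
      rw [abs_of_nonneg h'] at hlt
      have := (abs_lt.1 hlt).1
      linarith
    · intro h
      by_contra h'
      rw [not_lt] at h'
      rw [abs_of_neg h] at hlt
      have := (abs_lt.1 hlt).2
      linarith

end Pool.Agent.Helper34.EF
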